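import Mathlib
import Pool.Agent.Helper832.AutC.Burnside
import Pool.Agent.Helper832.AutC.Three

/-!
Class-preserving automorphisms of finite p-groups: the bound `|Aut_c(G)| ≤ |γ₂(G)|^d`.
Right commutators, extension of independent elements to generating sets, and the property `E`.
-/

set_option autoImplicit false

open scoped commutatorElement

namespace Pool.Agent.Q21.AC

open Pool.Agent.Helper832.AutC

variable {G : Type} [Group G]

/-- right commutator -/
def cm (x g : G) : G := x⁻¹ * g⁻¹ * x * g

theorem cm_eq (x g : G) : cm x g = ⁅x⁻¹, g⁻¹⁆ := by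
  simp [cm, commutatorElement_def]

theorem cm_mem (x g : G) : cm x g ∈ commutator G := by
  rw [cm_eq]
  exact Subgroup.commutator_mem_commutator (Subgroup.mem_top _) (Subgroup.mem_top _)

theorem conj_eq (x g : G) : g⁻¹ * x * g = x * cm x g := by
  unfold cm; group

theorem cm_mul_right (x g h : G) : cm x (g * h) = cm x h * (h⁻¹ * cm x g * h) := by
  unfold cm; group

theorem cm_mul_left (x y g : G) : cm (x * y) g = y⁻¹ * cm x g * y * cm y g := by
  unfold cm; group

theorem cm_self (x : G) : cm x x = 1 := by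
  unfold cm; group

theorem cm_one_left (g : G) : cm 1 g = 1 := by
  unfold cm; group

theorem cm_one_right (g : G) : cm g 1 = 1 := by
  unfold cm; group

theorem cm_eq_one_iff (x g : G) : cm x g = 1 ↔ Commute x g := by
  unfold cm
  constructor
  · intro h
    show x * g = g * x
    have h1 : x * g = g * x * (x⁻¹ * g⁻¹ * x * g) := by group
    rw [h1, h, mul_one]
  · intro h
    have h1 : x⁻¹ * g⁻¹ * x * g = (g * x)⁻¹ * (x * g) := by group
    rw [h1, h.eq, inv_mul_cancel]

theorem map_cm {H : Type*} [Group H] (f : G →* H) (x g : G) : f (cm x g) =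
    (f x)⁻¹ * (f g)⁻¹ * f x * f g := by
  unfold cm; simp

theorem isConj_cm (x y : G) : IsConj x y ↔ ∃ g, y = x * cm x g := by
  rw [isConj_iff]
  constructor
  · rintro ⟨c, rfl⟩
    exact ⟨c⁻¹, by unfold cm; group⟩
  · rintro ⟨g, rfl⟩
    exact ⟨g⁻¹, by unfold cm; group⟩

theorem autC_cm {α : MulAut G} (hα : α ∈ AutC G) (x : G) : ∃ g, α x = x * cm x g :=
  (isConj_cm x (α x)).mp (hα x)

theorem autC_cm' {α : MulAut G} (hα : α ∈ AutC G) (x : G) : x⁻¹ * α x ∈ commutator G := by
  obtain ⟨g, hg⟩ := autC_cm hα x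
  rw [hg, inv_mul_cancel_left]
  exact cm_mem x g

/-- commutators with all of `G` -/
theorem comm_top_le (H K : Subgroup G) :
    ⁅H, (⊤ : Subgroup G)⁆ ≤ K ↔ ∀ c ∈ H, ∀ g, cm c g ∈ K := by
  rw [Subgroup.commutator_le]
  constructor
  · intro h c hc g
    rw [cm_eq]
    exact h _ (inv_mem hc) _ (Subgroup.mem_top _)
  · intro h c hc g _
    have := h c⁻¹ (inv_mem hc) g⁻¹
    rw [cm_eq, inv_inv, inv_inv] at this
    exact this

theorem cm_mem_top {H : Subgroup G} {c : G} (hc : c ∈ H) (g : G) :
    cm c g ∈ ⁅H, (⊤ : Subgroup G)⁆ := (comm_top_le H _).mp le_rfl c hc g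

/-- a map `g ↦ cm c g` with central values is a homomorphism -/
theorem cm_hom (c : G) (hc : ∀ g h, Commute (cm c g) h) (g h : G) :
    cm c (g * h) = cm c g * cm c h := by
  rw [cm_mul_right, mul_assoc h⁻¹, (hc g h).eq, inv_mul_cancel_left, (hc h _).eq]

theorem cm_comm_eq_one (c : G) (hc : ∀ g h, Commute (cm c g) h) {k : G} (hk : k ∈ commutator G) :
    Commute c k := by
  let f : G →* Subgroup.center G := MonoidHom.mk' (fun g => ⟨cm c g, by
    rw [Subgroup.mem_center_iff]
    intro h
    exact (hc g h).symm.eq⟩) (by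
      intro a b
      apply Subtype.ext
      exact cm_hom c hc a b)
  have h1 : commutator G ≤ f.ker := Abelianization.commutator_subset_ker f
  have h2 : f k = 1 := h1 hk
  have h3 : cm c k = 1 := congrArg Subtype.val h2
  exact (cm_eq_one_iff c k).mp h3

/-- a normal subgroup containing the commutator of two generators contains `γ₂` -/
theorem comm_le_of_gen {x y : G} (hgen : Subgroup.closure ({x, y} : Set G) = ⊤) (K : Subgroup G)
    [hK : K.Normal] (h : cm x y ∈ K) : commutator G ≤ K := by
  let π := QuotientGroup.mk' K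
  have hπs : Function.Surjective π := QuotientGroup.mk'_surjective K
  have hxy : Commute (π x) (π y) := by
    rw [← cm_eq_one_iff]
    have h1 : π (cm x y) = 1 := (QuotientGroup.eq_one_iff _).mpr h
    rw [map_cm] at h1
    exact h1
  have hgen' : Subgroup.closure ({π x, π y} : Set (G ⧸ K)) = ⊤ := by
    have e1 : ({π x, π y} : Set (G ⧸ K)) = π '' {x, y} := by rw [Set.image_pair]
    rw [e1, ← MonoidHom.map_closure, hgen, Subgroup.map_top_of_surjective _ hπs]
  have hc1 : ∀ a ∈ ({π x, π y} : Set (G ⧸ K)), ∀ b ∈ ({π x, π y} : Set (G ⧸ K)), a * b = b * a := by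
    intro a ha b hb
    rcases ha with rfl | rfl <;> rcases hb with rfl | rfl
    · rfl
    · exact hxy.eq
    · exact hxy.symm.eq
    · rfl
  have hcomm : ∀ a b : G ⧸ K, a * b = b * a := by
    intro a b
    have h1 : (⊤ : Subgroup (G ⧸ K)) ≤ Subgroup.centralizer {π x, π y} := by
      rw [← hgen', Subgroup.closure_le]
      intro c hc
      rw [SetLike.mem_coe, Subgroup.mem_centralizer_iff]
      intro h hh
      exact hc1 h hh c hc
    have h2 : (⊤ : Subgroup (G ⧸ K)) ≤ Subgroup.centralizer (⊤ : Subgroup (G ⧸ K)) := by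
      conv_lhs => rw [← hgen']
      rw [Subgroup.closure_le]
      intro c hc
      rw [SetLike.mem_coe, Subgroup.mem_centralizer_iff]
      intro h _
      have := Subgroup.mem_centralizer_iff.mp (h1 (Subgroup.mem_top h)) c hc
      exact this.symm
    exact (Subgroup.mem_centralizer_iff.mp (h2 (Subgroup.mem_top a)) b (Subgroup.mem_top b)).symm
  rw [commutator_def, comm_top_le]
  intro c _ g
  have h1 : π (cm c g) = 1 := by
    rw [map_cm]
    exact (cm_eq_one_iff _ _).mpr (hcomm (π c) (π g))
  exact (QuotientGroup.eq_one_iff _).mp h1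

/-- in a nilpotent group, `H ≤ [H, G]` forces `H = 1` -/
theorem eq_bot_of_le_comm [hn : Group.IsNilpotent G] (H : Subgroup G)
    (h : H ≤ ⁅H, (⊤ : Subgroup G)⁆) : H = ⊥ := by
  obtain ⟨n, hn⟩ := Subgroup.nilpotent_iff_lowerCentralSeries.mp hn
  have key : ∀ m : ℕ, H ≤ (⊤ : Subgroup G).lowerCentralSeries m := by
    intro m
    induction m with
    | zero => exact le_top
    | succ m ih =>
      refine h.trans ?_
      exact Subgroup.commutator_mono ih le_rfl
  rw [eq_bot_iff, ← hn]
  exact key n

end Pool.Agent.Q21.AC
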