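import Mathlib
import Pool.Agent.Q21.AC.Basic

/-!
Burnside basis theorem: extension of independent elements to generating sets of minimal size, and
the property `E` equivalent to `|Aut_c(G)| = |γ₂(G)|^d`.
-/

set_option autoImplicit false

open scoped commutatorElement

namespace Pool.Agent.Q21.AC

open Pool.Agent.Helper832.AutC

variable {G : Type} [Group G]

theorem frat_normal {p : ℕ} [hp : Fact p.Prime] [Finite G] (hG : IsPGroup p G) (H : Subgroup G)
    (hH : frattini G ≤ H) : H.Normal := by
  refine ⟨fun n hn g => ?_⟩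
  have h1 := hH ((frattini_facts hG).1 g n)
  have h2 : g * n * g⁻¹ = ⁅g, n⁆ * n := by rw [commutatorElement_def]; group
  rw [h2]
  exact mul_mem h1 hn

theorem comm_le_frat {p : ℕ} [hp : Fact p.Prime] [Finite G] (hG : IsPGroup p G) :
    commutator G ≤ frattini G := by
  rw [commutator_def, Subgroup.commutator_le]
  intro a _ b _
  exact (frattini_facts hG).1 a b

theorem card_step {p : ℕ} [hp : Fact p.Prime] [Finite G] (hG : IsPGroup p G) (H : Subgroup G)
    (hH : frattini G ≤ H) (g : G) (hg : g ∉ H) :
    Nat.card (Subgroup.zpowers g ⊔ H : Subgroup G) = p * Nat.card H := by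
  have hn := frat_normal hG H hH
  let π := QuotientGroup.mk' H
  have hπs : Function.Surjective π := QuotientGroup.mk'_surjective H
  have e1 : (Subgroup.zpowers g ⊔ H : Subgroup G) = (Subgroup.zpowers (π g)).comap π := by
    rw [← MonoidHom.map_zpowers, Subgroup.comap_map_eq, QuotientGroup.ker_mk']
  have e2 : Nat.card (Subgroup.zpowers (π g)) = p := by
    rw [Nat.card_zpowers]
    refine orderOf_eq_prime ?_ ?_
    · rw [← map_pow]
      exact (QuotientGroup.eq_one_iff _).mpr (hH ((frattini_facts hG).2 g))
    · intro h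
      exact hg ((QuotientGroup.eq_one_iff _).mp h)
  have e3 := Subgroup.card_mul_index (Subgroup.zpowers g ⊔ H : Subgroup G)
  have e4 := Subgroup.card_mul_index (Subgroup.zpowers (π g))
  have e5 : (Subgroup.zpowers g ⊔ H : Subgroup G).index = (Subgroup.zpowers (π g)).index := by
    rw [e1]
    exact Subgroup.index_comap_of_surjective _ hπs
  have e6 := Subgroup.card_eq_card_quotient_mul_card_subgroup H
  have e7 : (Subgroup.zpowers (π g)).index ≠ 0 := Subgroup.FiniteIndex.index_ne_zero
  rw [e5, e6, ← e4, e2] at e3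
  have e8 : (Nat.card (Subgroup.zpowers g ⊔ H : Subgroup G)) * (Subgroup.zpowers (π g)).index
      = (p * Nat.card H) * (Subgroup.zpowers (π g)).index := by
    rw [e3]; ring
  exact Nat.eq_of_mul_eq_mul_right (Nat.pos_of_ne_zero e7) e8

/-- the order of the Frattini quotient -/
theorem card_frat {p : ℕ} [hp : Fact p.Prime] [Finite G] (hG : IsPGroup p G) :
    Nat.card G ≤ p ^ (Group.rank G) * Nat.card (frattini G) := by
  obtain ⟨s, hs, hgen⟩ := Group.rank_spec G
  obtain ⟨hF1, hF2⟩ := frattini_facts hG
  let V := G ⧸ frattini G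
  let iV : CommGroup V :=
    { (inferInstance : Group (G ⧸ frattini G)) with
      mul_comm := by
        intro a b
        obtain ⟨a, rfl⟩ := QuotientGroup.mk'_surjective (frattini G) a
        obtain ⟨b, rfl⟩ := QuotientGroup.mk'_surjective (frattini G) b
        rw [← commutatorElement_eq_one_iff_mul_comm, ← map_commutatorElement]
        exact (QuotientGroup.eq_one_iff _).mpr (hF1 a b) }
  let π : G →* V := QuotientGroup.mk' (frattini G)
  have hπs : Function.Surjective π := QuotientGroup.mk'_surjective (frattini G)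
  have hexp : ∀ v : V, v ^ p = 1 := by
    intro v
    obtain ⟨a, rfl⟩ := hπs v
    rw [← map_pow]
    exact (QuotientGroup.eq_one_iff _).mpr (hF2 a)
  have h1 : Nat.card V ≤ p ^ s.card := by
    refine card_le_of_gen hexp (fun i => π (s.equivFin.symm i : G)) ?_
    have e1 : Set.range (fun i => π (s.equivFin.symm i : G)) = π '' (s : Set G) := by
      ext v
      constructor
      · rintro ⟨i, rfl⟩
        exact ⟨_, (s.equivFin.symm i).2, rfl⟩
      · rintro ⟨g, hg, rfl⟩
        exact ⟨s.equivFin ⟨g, hg⟩, by simp⟩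
    rw [e1, ← MonoidHom.map_closure, hgen, Subgroup.map_top_of_surjective _ hπs]
  rw [Subgroup.card_eq_card_quotient_mul_card_subgroup (frattini G), ← hs]
  exact Nat.mul_le_mul_right _ h1

/-- independence modulo the Frattini subgroup -/
def Ind (p : ℕ) (s : Finset G) : Prop :=
  Nat.card (Subgroup.closure (s : Set G) ⊔ frattini G : Subgroup G)
    = p ^ s.card * Nat.card (frattini G)

theorem closure_insert_sup [DecidableEq G] (s : Finset G) (g : G) (H : Subgroup G) :
    (Subgroup.closure ((insert g s : Finset G) : Set G) ⊔ H : Subgroup G)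
      = Subgroup.zpowers g ⊔ (Subgroup.closure (s : Set G) ⊔ H) := by
  rw [Finset.coe_insert, Set.insert_eq, Subgroup.closure_union, ← Subgroup.zpowers_eq_closure,
    sup_assoc]

theorem Ind.ins [DecidableEq G] {p : ℕ} [hp : Fact p.Prime] [Finite G] (hG : IsPGroup p G)
    {s : Finset G} (hs : Ind p s) {g : G} (hg : g ∉ Subgroup.closure (s : Set G) ⊔ frattini G) :
    Ind p (insert g s) := by
  unfold Ind
  have hgs : g ∉ s := fun h => hg ((le_sup_left : _ ≤ Subgroup.closure (s : Set G) ⊔ frattini G)
    (Subgroup.subset_closure h))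
  rw [closure_insert_sup, card_step hG _ le_sup_right g hg, Finset.card_insert_of_notMem hgs,
    hs, pow_succ]
  ring

theorem Ind.ext0 {p : ℕ} [hp : Fact p.Prime] [Finite G] (hG : IsPGroup p G) :
    ∀ n : ℕ, ∀ s : Finset G, Ind p s →
      Nat.card G - Nat.card (Subgroup.closure (s : Set G) ⊔ frattini G : Subgroup G) = n →
      ∃ t : Finset G, s ⊆ t ∧ Ind p t ∧ Subgroup.closure (t : Set G) ⊔ frattini G = ⊤ := by
    classical
    intro n
    induction n using Nat.strong_induction_on with
    | _ n ih =>
      intro s hs hn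
      by_cases htop : Subgroup.closure (s : Set G) ⊔ frattini G = ⊤
      · exact ⟨s, Finset.Subset.refl s, hs, htop⟩
      · obtain ⟨g, hg⟩ : ∃ g, g ∉ Subgroup.closure (s : Set G) ⊔ frattini G := by
          by_contra h
          push Not at h
          exact htop (eq_top_iff.mpr fun g _ => h g)
        have h1 := hs.ins hG hg
        have h2 := card_step hG _ le_sup_right g hg
        have h3 := Subgroup.card_le_card_group
          (Subgroup.zpowers g ⊔ (Subgroup.closure (s : Set G) ⊔ frattini G) : Subgroup G)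
        have h4 : 0 < Nat.card (Subgroup.closure (s : Set G) ⊔ frattini G : Subgroup G) :=
          Nat.card_pos
        have h5 := hp.out.two_le
        have h6 : 2 * Nat.card (Subgroup.closure (s : Set G) ⊔ frattini G : Subgroup G)
          ≤ p * Nat.card (Subgroup.closure (s : Set G) ⊔ frattini G : Subgroup G) :=
          Nat.mul_le_mul_right _ h5
        obtain ⟨t, ht1, ht2, ht3⟩ := ih _ (by
          rw [← hn, closure_insert_sup, h2]
          omega) (insert g s) h1 rfl
        exact ⟨t, (Finset.subset_insert g s).trans ht1, ht2, ht3⟩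

theorem Ind.extend {p : ℕ} [hp : Fact p.Prime] [Finite G] (hG : IsPGroup p G)
    {s : Finset G} (hs : Ind p s) :
    ∃ t : Finset G, s ⊆ t ∧ t.card = Group.rank G ∧ Subgroup.closure (t : Set G) = ⊤ := by
  classical
  obtain ⟨t, ht1, ht2, ht3⟩ := Ind.ext0 hG _ s hs rfl
  have ht4 := frattini_nongenerating ht3
  refine ⟨t, ht1, ?_, ht4⟩
  apply le_antisymm
  · have h1 := card_frat hG
    have h2 : Nat.card G = p ^ t.card * Nat.card (frattini G) := by
      rw [← ht2, ht3]
      exact Subgroup.card_top.symm
    rw [h2] at h1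
    have h3 : p ^ t.card ≤ p ^ Group.rank G := Nat.le_of_mul_le_mul_right h1 Nat.card_pos
    exact (Nat.pow_le_pow_iff_right hp.out.one_lt).mp h3
  · exact Group.rank_le ht4

theorem ind_empty (p : ℕ) : Ind p (∅ : Finset G) := by
  unfold Ind
  simp

theorem card_frat_eq {p : ℕ} [hp : Fact p.Prime] [Finite G] (hG : IsPGroup p G) :
    Nat.card G = p ^ (Group.rank G) * Nat.card (frattini G) := by
  classical
  refine le_antisymm (card_frat hG) ?_
  obtain ⟨t, ht1, ht2, ht3⟩ := Ind.ext0 hG _ ∅ (ind_empty p) rfl
  have ht4 := frattini_nongenerating ht3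
  have h2 : Nat.card G = p ^ t.card * Nat.card (frattini G) := by
    rw [← ht2, ht3]
    exact Subgroup.card_top.symm
  rw [h2]
  exact Nat.mul_le_mul_right _ (Nat.pow_le_pow_right hp.out.pos (Group.rank_le ht4))

/-- every prescription of images `g ↦ g * F g`, `F g ∈ γ₂(G)`, on a generating set of minimal size
extends to a class-preserving automorphism -/
def E (G : Type) [Group G] [Finite G] : Prop :=
  ∀ s : Finset G, s.card = Group.rank G → Subgroup.closure (s : Set G) = ⊤ →
    ∀ F : G → G, (∀ g, F g ∈ commutator G) → ∃ α ∈ AutC G, ∀ g ∈ s, α g = g * F g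

section Count

variable [Finite G]

/-- restriction of a class-preserving automorphism to a set -/
def res (s : Finset G) (α : AutC G) : s → commutator G :=
  fun g => ⟨(g : G)⁻¹ * α.1 (g : G), autC_cm' α.2 (g : G)⟩

theorem res_inj (s : Finset G) (hs : Subgroup.closure (s : Set G) = ⊤) :
    Function.Injective (res s) := by
  intro α β h
  apply Subtype.ext
  have h1 : (α.1 : G →* G) = (β.1 : G →* G) := by
    refine MonoidHom.eq_of_eqOn_dense hs ?_
    intro g hg
    have h2 := congrArg Subtype.val (congrFun h ⟨g, hg⟩)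
    exact mul_left_cancel h2
  exact MulEquiv.ext (fun g => DFunLike.congr_fun h1 g)

theorem card_res (s : Finset G) : Nat.card (s → commutator G)
    = Nat.card (commutator G) ^ s.card := by
  rw [Nat.card_fun]
  simp

theorem E_of_card (h : Nat.card (AutC G) = Nat.card (commutator G) ^ Group.rank G) : E G := by
  intro s hs hgen F hF
  have h1 : Nat.card (s → commutator G) ≤ Nat.card (AutC G) := by
    rw [card_res, hs]; exact h.ge
  have hbij := (res_inj s hgen).bijective_of_nat_card_le h1
  obtain ⟨α, hα⟩ := hbij.2 (fun g => ⟨F g, hF g⟩)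
  refine ⟨α.1, α.2, fun g hg => ?_⟩
  have h2 : g⁻¹ * α.1 g = F g := congrArg Subtype.val (congrFun hα ⟨g, hg⟩)
  rw [← h2, mul_inv_cancel_left]

theorem card_of_surj (s : Finset G) (hs : s.card = Group.rank G)
    (hgen : Subgroup.closure (s : Set G) = ⊤)
    (h : ∀ F : G → G, (∀ g, F g ∈ commutator G) → ∃ α ∈ AutC G, ∀ g ∈ s, α g = g * F g) :
    Nat.card (AutC G) = Nat.card (commutator G) ^ Group.rank G := by
  classical
  have hbij : Function.Bijective (res s) := by
    refine ⟨res_inj s hgen, fun f => ?_⟩
    obtain ⟨α, hα, hα'⟩ := h (fun g => if hg : g ∈ s then f ⟨g, hg⟩ else 1) (by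
      intro g
      by_cases hg : g ∈ s
      · simp only [hg, dite_true]
        exact (f ⟨g, hg⟩).2
      · simp only [hg, dite_false]
        exact one_mem _)
    refine ⟨⟨α, hα⟩, ?_⟩
    funext g
    apply Subtype.ext
    show (g : G)⁻¹ * α (g : G) = f g
    rw [hα' g g.2, inv_mul_cancel_left]
    simp
  rw [Nat.card_eq_of_bijective _ hbij, card_res, hs]

end Count

section Use

variable {p : ℕ} [hp : Fact p.Prime] [Finite G] (hG : IsPGroup p G) (hE : E G)

include hG in
theorem ind_one {x : G} (hx : x ∉ frattini G) : Ind p ({x} : Finset G) := by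
  classical
  have := (ind_empty (G := G) p).ins hG (g := x) (by simpa using hx)
  exact this

include hG in
theorem ind_two [DecidableEq G] {x y : G} (hx : x ∉ frattini G)
    (hy : y ∉ Subgroup.zpowers x ⊔ frattini G) : Ind p ({y, x} : Finset G) := by
  refine (ind_one hG hx).ins hG ?_
  rwa [Finset.coe_singleton, ← Subgroup.zpowers_eq_closure]

include hG in
theorem ind_three [DecidableEq G] {x y h : G} (hx : x ∉ frattini G)
    (hy : y ∉ Subgroup.zpowers x ⊔ frattini G)
    (hh : h ∉ Subgroup.zpowers y ⊔ (Subgroup.zpowers x ⊔ frattini G)) :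
    Ind p ({h, y, x} : Finset G) := by
  refine (ind_two hG hx hy).ins hG ?_
  rw [closure_insert_sup, Finset.coe_singleton, ← Subgroup.zpowers_eq_closure]
  exact hh

include hG hE in
theorem E.one {x : G} (hx : x ∉ frattini G) {c : G} (hc : c ∈ commutator G) :
    ∃ α ∈ AutC G, α x = x * c := by
  obtain ⟨t, ht1, ht2, ht3⟩ := (ind_one hG hx).extend hG
  obtain ⟨α, hα, h⟩ := hE t ht2 ht3 (fun _ => c) (fun _ => hc)
  exact ⟨α, hα, h x (ht1 (by simp))⟩

include hG hE in
/-- all of the coset `x γ₂` is conjugate to `x` -/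
theorem E.cam {x : G} (hx : x ∉ frattini G) {c : G} (hc : c ∈ commutator G) :
    ∃ g, cm x g = c := by
  obtain ⟨α, hα, h⟩ := E.one hG hE hx hc
  obtain ⟨g, hg⟩ := autC_cm hα x
  refine ⟨g, ?_⟩
  rw [h] at hg
  exact (mul_left_cancel hg).symm

theorem ne_of_ind {x y : G} {H : Subgroup G} (hy : y ∉ Subgroup.zpowers x ⊔ H) : x ≠ y := by
  rintro rfl
  exact hy ((le_sup_left : Subgroup.zpowers x ≤ _) (Subgroup.mem_zpowers x))

include hG hE in
theorem E.two {x y : G} (hx : x ∉ frattini G) (hy : y ∉ Subgroup.zpowers x ⊔ frattini G)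
    {c d : G} (hc : c ∈ commutator G) (hd : d ∈ commutator G) :
    ∃ α ∈ AutC G, α x = x * c ∧ α y = y * d := by
  classical
  obtain ⟨t, ht1, ht2, ht3⟩ := (ind_two hG hx hy).extend hG
  obtain ⟨α, hα, h⟩ := hE t ht2 ht3 (fun g => if g = x then c else d) (by
    intro g
    by_cases hg : g = x
    · simp only [hg, if_true]; exact hc
    · simp only [hg, if_false]; exact hd)
  refine ⟨α, hα, ?_, ?_⟩
  · have := h x (ht1 (by simp))
    simpa using this
  · have := h y (ht1 (by simp))
    rw [if_neg (ne_of_ind hy).symm] at this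
    exact this

include hG hE in
theorem E.three {x y h : G} (hx : x ∉ frattini G) (hy : y ∉ Subgroup.zpowers x ⊔ frattini G)
    (hh : h ∉ Subgroup.zpowers y ⊔ (Subgroup.zpowers x ⊔ frattini G))
    {c : G} (hc : c ∈ commutator G) :
    ∃ α ∈ AutC G, α x = x ∧ α y = y ∧ α h = h * c ∧ ∃ t : Finset G,
      Subgroup.closure (t : Set G) = ⊤ ∧ ∀ g ∈ t, α g = g ∨ α g = g * c := by
  classical
  obtain ⟨t, ht1, ht2, ht3⟩ := (ind_three hG hx hy hh).extend hG
  obtain ⟨α, hα, hf⟩ := hE t ht2 ht3 (fun g => if g = h then c else 1) (by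
    intro g
    by_cases hg : g = h
    · simp only [hg, if_true]; exact hc
    · simp only [hg, if_false]; exact one_mem _)
  refine ⟨α, hα, ?_, ?_, ?_, t, ht3, ?_⟩
  · have := hf x (ht1 (by simp))
    have hne : x ≠ h := by
      rintro rfl
      exact hh ((le_sup_right : _ ≤ Subgroup.zpowers y ⊔ (Subgroup.zpowers x ⊔ frattini G))
        ((le_sup_left : Subgroup.zpowers x ≤ _) (Subgroup.mem_zpowers x)))
    rw [if_neg hne, mul_one] at this
    exact this
  · have := hf y (ht1 (by simp))
    rw [if_neg (ne_of_ind hh), mul_one] at this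
    exact this
  · have := hf h (ht1 (by simp))
    simpa using this
  · intro g hg
    have := hf g hg
    by_cases hgh : g = h
    · right; rw [this, if_pos hgh]
    · left; rw [this, if_neg hgh, mul_one]

end Use

end Pool.Agent.Q21.AC
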