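import Mathlib
import Pool.Agent.Q21.AC.Gen

/-!
The property `E` passes to quotients by normal subgroups inside `γ₂(G)`.
-/

set_option autoImplicit false

open scoped commutatorElement

namespace Pool.Agent.Q21.AC

open Pool.Agent.Helper832.AutC

variable {G : Type} [Group G]

theorem lift_gen [DecidableEq G] [Finite G] (N : Subgroup G) [N.Normal] (hN : N ≤ frattini G)
    (s : Finset (G ⧸ N)) (hs : Subgroup.closure (s : Set (G ⧸ N)) = ⊤) :
    (s.image Quotient.out).card = s.card ∧
      Subgroup.closure ((s.image Quotient.out : Finset G) : Set G) = ⊤ := by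
  let π := QuotientGroup.mk' N
  have hout : ∀ q : G ⧸ N, π (Quotient.out q) = q := fun q => Quotient.out_eq q
  constructor
  · refine Finset.card_image_of_injective s ?_
    intro a b hab
    have := congrArg π hab
    rwa [hout, hout] at this
  · apply frattini_nongenerating
    rw [eq_top_iff]
    have h1 : (Subgroup.closure ((s.image Quotient.out : Finset G) : Set G)).map π = ⊤ := by
      rw [MonoidHom.map_closure, ← hs]
      congr 1
      ext q
      constructor
      · rintro ⟨g, hg, rfl⟩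
        rw [Finset.mem_coe, Finset.mem_image] at hg
        obtain ⟨q, hq, rfl⟩ := hg
        rw [hout]
        exact hq
      · intro hq
        exact ⟨Quotient.out q, by
          rw [Finset.mem_coe, Finset.mem_image]; exact ⟨q, hq, rfl⟩, hout q⟩
    have h2 := congrArg (Subgroup.comap π) h1
    rw [Subgroup.comap_map_eq, Subgroup.comap_top, QuotientGroup.ker_mk'] at h2
    rw [← h2]
    exact sup_le_sup le_rfl hN

theorem rank_quot [Finite G] (N : Subgroup G) [N.Normal] (hN : N ≤ frattini G) :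
    Group.rank (G ⧸ N) = Group.rank G := by
  classical
  apply le_antisymm
  · exact Group.rank_le_of_surjective (QuotientGroup.mk' N) (QuotientGroup.mk'_surjective N)
  · obtain ⟨s, hs, hgen⟩ := Group.rank_spec (G ⧸ N)
    obtain ⟨h1, h2⟩ := lift_gen N hN s hgen
    rw [← hs, ← h1]
    exact Group.rank_le h2

theorem autC_map {α : MulAut G} (hα : α ∈ AutC G) (N : Subgroup G) [hn : N.Normal] :
    N.map (α : G →* G) = N := by
  have h1 : ∀ β ∈ AutC G, ∀ n ∈ N, β n ∈ N := by
    intro β hβ n hnN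
    obtain ⟨c, hc⟩ := isConj_iff.mp (hβ n)
    rw [← hc]
    exact hn.conj_mem n hnN c
  apply le_antisymm
  · rintro _ ⟨n, hnN, rfl⟩
    exact h1 α hα n hnN
  · intro n hnN
    refine ⟨α⁻¹ n, h1 α⁻¹ ((AutC G).inv_mem hα) n hnN, ?_⟩
    exact MulAut.apply_inv_self G α n

theorem autC_quot {α : MulAut G} (hα : α ∈ AutC G) (N : Subgroup G) [hn : N.Normal] :
    ∃ β ∈ AutC (G ⧸ N), ∀ g : G, β (g : G ⧸ N) = ((α g : G) : G ⧸ N) := by
  refine ⟨QuotientGroup.congr N N α (autC_map hα N), ?_, fun g => rfl⟩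
  intro q
  obtain ⟨g, rfl⟩ := QuotientGroup.mk'_surjective N q
  obtain ⟨c, hc⟩ := isConj_iff.mp (hα g)
  refine isConj_iff.mpr ⟨(c : G ⧸ N), ?_⟩
  show ((c * g * c⁻¹ : G) : G ⧸ N) = ((α g : G) : G ⧸ N)
  rw [hc]

theorem comm_quot (N : Subgroup G) [N.Normal] :
    (commutator G).map (QuotientGroup.mk' N) = commutator (G ⧸ N) := by
  rw [commutator_def, commutator_def, Subgroup.map_commutator,
    Subgroup.map_top_of_surjective _ (QuotientGroup.mk'_surjective N)]

theorem exists_comm_quot (N : Subgroup G) [N.Normal] {q : G ⧸ N} (hq : q ∈ commutator (G ⧸ N)) :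
    ∃ c ∈ commutator G, (c : G ⧸ N) = q := by
  rw [← comm_quot] at hq
  exact hq

theorem E_quot {p : ℕ} [hp : Fact p.Prime] [Finite G] (hG : IsPGroup p G) (hE : E G)
    (N : Subgroup G) [N.Normal] (hN : N ≤ commutator G) : E (G ⧸ N) := by
  classical
  intro s hs hgen F hF
  have hN' : N ≤ frattini G := hN.trans (comm_le_frat hG)
  obtain ⟨h1, h2⟩ := lift_gen N hN' s hgen
  choose F' hF' hF'' using fun g : G => exists_comm_quot N (hF (g : G ⧸ N))
  obtain ⟨α, hα, hα'⟩ := hE (s.image Quotient.out) (by rw [h1, hs, rank_quot N hN']) h2 F' hF'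
  obtain ⟨β, hβ, hβ'⟩ := autC_quot hα N
  refine ⟨β, hβ, fun q hq => ?_⟩
  have h3 := hα' (Quotient.out q) (Finset.mem_image_of_mem _ hq)
  have h4 := hβ' (Quotient.out q)
  have h5 : ((Quotient.out q : G) : G ⧸ N) = q := Quotient.out_eq q
  rw [h3] at h4
  have h6 : ((Quotient.out q * F' (Quotient.out q) : G) : G ⧸ N)
      = ((Quotient.out q : G) : G ⧸ N) * ((F' (Quotient.out q) : G) : G ⧸ N) := rfl
  rw [h6, hF'', h5] at h4
  exact h4

/-- the Frattini subgroup lies in every normal subgroup with elementary abelian quotient -/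
theorem frat_le {p : ℕ} [hp : Fact p.Prime] [Finite G] (hG : IsPGroup p G) (K : Subgroup G)
    (h1 : commutator G ≤ K) (h2 : ∀ g : G, g ^ p ∈ K) : frattini G ≤ K := by
  intro g hgF
  by_contra hgK
  let S : Set (Subgroup G) := {M | K ≤ M ∧ g ∉ M}
  obtain ⟨M, ⟨hKM, hgM⟩, hmax⟩ := Set.exists_max_image S (fun M => Nat.card M) (Set.toFinite S)
    ⟨K, le_rfl, hgK⟩
  have hbig : ∀ L : Subgroup G, M ≤ L → L ≠ M → g ∈ L := by
    intro L hML hne
    by_contra hgL
    have h3 := hmax L ⟨hKM.trans hML, hgL⟩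
    exact hne (Subgroup.eq_of_le_of_card_ge hML h3).symm
  have hMn : M.Normal := Subgroup.Normal.of_commutator_le G (h1.trans hKM)
  have hco : IsCoatom M := by
    refine ⟨fun h => hgM (by rw [h]; trivial), fun L hL => ?_⟩
    have hgL : g ∈ L := hbig L hL.le hL.ne'
    rw [eq_top_iff]
    intro h _
    by_cases hhM : h ∈ M
    · exact hL.le hhM
    · have h4 : g ∈ Subgroup.zpowers h ⊔ M := by
        refine hbig _ le_sup_right ?_
        intro h5
        apply hhM
        rw [← h5]
        exact (le_sup_left : Subgroup.zpowers h ≤ _) (Subgroup.mem_zpowers h)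
      obtain ⟨_, ⟨k, rfl⟩, m, hm, hkm⟩ := Subgroup.mem_sup_of_normal_right.mp h4
      have hkm' : h ^ k * m = g := hkm
      refine mem_of_zpow_mem hG L h k ?_ ?_
      · rintro ⟨j, rfl⟩
        apply hgM
        rw [← hkm', zpow_mul, zpow_natCast]
        exact mul_mem (zpow_mem (hKM (h2 h)) j) hm
      · have h6 : h ^ k = g * m⁻¹ := by rw [← hkm']; group
        rw [h6]
        exact mul_mem hgL (inv_mem (hL.le hm))
  exact hgM (frattini_le_coatom hco hgF)

end Pool.Agent.Q21.AC
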