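import Mathlib
import Pool.Agent.Q21.AC.Quot

/-!
The property `E` in groups with `γ₄ = 1` and `|γ₃| = p`.
-/

set_option autoImplicit false

open scoped commutatorElement

namespace Pool.Agent.Q21.AC

open Pool.Agent.Helper832.AutC

variable {G : Type} [Group G]

section Calc

variable (h4 : ∀ c ∈ commutator G, ∀ g h : G, Commute (cm c g) h)

include h4

theorem c3_comm {c d : G} (hc : c ∈ commutator G) (hd : d ∈ commutator G) : Commute c d :=
  cm_comm_eq_one c (h4 c hc) hd

theorem c3_right {c : G} (hc : c ∈ commutator G) (g h : G) : cm c (g * h) = cm c g * cm c h :=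
  cm_hom c (h4 c hc) g h

theorem c3_left {c d : G} (hc : c ∈ commutator G) (g : G) :
    cm (c * d) g = cm c g * cm d g := by
  rw [cm_mul_left, mul_assoc d⁻¹, (h4 c hc g d).eq, inv_mul_cancel_left]

theorem c3_right_pow {c : G} (hc : c ∈ commutator G) (g : G) (n : ℕ) :
    cm c (g ^ n) = (cm c g) ^ n := by
  induction n with
  | zero => simp [cm_one_right]
  | succ n ih => rw [pow_succ, c3_right h4 hc, ih, pow_succ]

theorem c3_left_pow {c : G} (hc : c ∈ commutator G) (g : G) (n : ℕ) :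
    cm (c ^ n) g = (cm c g) ^ n := by
  induction n with
  | zero => simp [cm_one_left]
  | succ n ih => rw [pow_succ, c3_left h4 (pow_mem hc n), ih, pow_succ]

theorem c3_left_zpow {c : G} (hc : c ∈ commutator G) (g : G) (n : ℤ) :
    cm (c ^ n) g = (cm c g) ^ n := by
  rcases n.eq_nat_or_neg with ⟨m, rfl | rfl⟩
  · rw [zpow_natCast, zpow_natCast, c3_left_pow h4 hc]
  · rw [zpow_neg, zpow_neg, zpow_natCast, zpow_natCast, ← c3_left_pow h4 hc]
    have h1 := c3_left h4 (inv_mem (pow_mem hc m)) (d := c ^ m) g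
    rw [inv_mul_cancel, cm_one_left] at h1
    exact eq_inv_of_mul_eq_one_left h1.symm

/-- the subgroup of elements of `γ₂` commuting with `x` -/
def Lx (x : G) : Subgroup G := commutator G ⊓ Subgroup.centralizer {x}

omit h4 in
theorem mem_Lx {x c : G} : c ∈ Lx x ↔ c ∈ commutator G ∧ Commute c x := by
  unfold Lx
  rw [Subgroup.mem_inf, Subgroup.mem_centralizer_iff]
  constructor
  · rintro ⟨h1, h2⟩
    exact ⟨h1, (h2 x rfl).symm⟩
  · rintro ⟨h1, h2⟩
    exact ⟨h1, by rintro _ rfl; exact h2.symm.eq⟩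

theorem Lx_normal (x : G) : (Lx x).Normal := by
  refine ⟨fun c hc g => ?_⟩
  rw [mem_Lx] at hc ⊢
  refine ⟨(inferInstance : (commutator G).Normal).conj_mem c hc.1 g, ?_⟩
  have h1 : g * c * g⁻¹ = c * cm c g⁻¹ := by unfold cm; group
  rw [h1]
  exact hc.2.mul_left (h4 c hc.1 _ _)

theorem frat_comm {p : ℕ} [hp : Fact p.Prime] [Finite G] (hG : IsPGroup p G) {c : G}
    (hc : c ∈ commutator G) (hcp : ∀ g, (cm c g) ^ p = 1) {g : G} (hg : g ∈ frattini G) :
    Commute c g := by
  have h1 : frattini G ≤ Subgroup.centralizer {c} := by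
    refine frat_le hG _ ?_ ?_
    · intro k hk
      rw [Subgroup.mem_centralizer_iff]
      rintro _ rfl
      exact (c3_comm h4 hc hk).eq
    · intro k
      rw [Subgroup.mem_centralizer_iff]
      intro c' hc'
      have hc'' : c' = c := hc'
      have : cm c (k ^ p) = 1 := by rw [c3_right_pow h4 hc, hcp]
      rw [hc'']
      exact ((cm_eq_one_iff _ _).mp this).eq
  exact Subgroup.mem_centralizer_iff.mp (h1 hg) c rfl

end Calc

section T

variable {p : ℕ} [hp : Fact p.Prime] [Finite G] (hG : IsPGroup p G) (hE : E G)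
  (h4 : ∀ c ∈ commutator G, ∀ g h : G, Commute (cm c g) h)

theorem map_cm' (α : MulAut G) (x g : G) : α (cm x g) = cm (α x) (α g) := by
  unfold cm; simp

theorem autC_fix {α : MulAut G} (hα : α ∈ AutC G) {c : G} (hc : ∀ g, Commute c g) : α c = c := by
  obtain ⟨g, hg⟩ := autC_cm hα c
  rw [hg, (cm_eq_one_iff c g).mpr (hc g), mul_one]

include hG hE in
theorem F1 {x y : G} (hx : x ∉ frattini G) (hy : y ∉ Subgroup.zpowers x ⊔ frattini G)
    (hz : ∀ g, Commute (cm x y) g) {c : G} (hc : c ∈ commutator G) :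
    Commute c x ∧ Commute c y := by
  constructor
  · obtain ⟨α, hα, h1, h2⟩ := E.two hG hE hx hy (one_mem (commutator G)) hc
    have h3 := autC_fix hα hz
    rw [map_cm', h1, h2, mul_one, cm_mul_right, mul_assoc c⁻¹, (hz c).eq, inv_mul_cancel_left] at h3
    have h5 : cm x c = 1 := mul_eq_right.mp h3
    exact ((cm_eq_one_iff x c).mp h5).symm
  · obtain ⟨α, hα, h1, h2⟩ := E.two hG hE hx hy hc (one_mem (commutator G))
    have h3 := autC_fix hα hz
    rw [map_cm', h1, h2, mul_one, cm_mul_left, mul_assoc c⁻¹, (hz c).eq, inv_mul_cancel_left] at h3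
    have h5 : cm c y = 1 := mul_eq_left.mp h3
    exact (cm_eq_one_iff c y).mp h5

include hG in
theorem exists_notMem_sup {x : G} (hx : x ∉ frattini G) (hr : 2 ≤ Group.rank G) :
    ∃ y, y ∉ Subgroup.zpowers x ⊔ frattini G := by
  by_contra h
  push Not at h
  have h1 : Subgroup.zpowers x ⊔ frattini G = ⊤ := eq_top_iff.mpr fun g _ => h g
  have h2 := card_step hG _ le_rfl x hx
  rw [h1, Subgroup.card_top, card_frat_eq hG] at h2
  have h3 : p ^ Group.rank G = p := Nat.eq_of_mul_eq_mul_right Nat.card_pos h2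
  have h5 : p ^ 1 < p ^ Group.rank G := Nat.pow_lt_pow_right hp.out.one_lt (by omega)
  rw [pow_one] at h5
  omega

include hG in
theorem exists_notMem_sup2 {x y : G} (hx : x ∉ frattini G)
    (hy : y ∉ Subgroup.zpowers x ⊔ frattini G) (hr : 3 ≤ Group.rank G) :
    ∃ z, z ∉ Subgroup.zpowers y ⊔ (Subgroup.zpowers x ⊔ frattini G) := by
  by_contra h
  push Not at h
  have h1 : Subgroup.zpowers y ⊔ (Subgroup.zpowers x ⊔ frattini G) = ⊤ :=
    eq_top_iff.mpr fun g _ => h g
  have h2 := card_step hG _ le_rfl x hx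
  have h3 := card_step hG _ le_sup_right y hy
  rw [h1, Subgroup.card_top, card_frat_eq hG, h2, ← mul_assoc] at h3
  have h4 : p ^ Group.rank G = p * p := Nat.eq_of_mul_eq_mul_right Nat.card_pos h3
  have h5 : p ^ 2 < p ^ Group.rank G := Nat.pow_lt_pow_right hp.out.one_lt (by omega)
  rw [pow_two] at h5
  omega

include hG hE h4 in
theorem T1 (hr : 3 ≤ Group.rank G) (hcp : ∀ c ∈ commutator G, ∀ g, (cm c g) ^ p = 1)
    {x c₀ w : G} (hc₀ : c₀ ∈ commutator G)
    (hx : ¬ Commute c₀ x) (hw : w ∈ commutator G) (hwx : Commute w x) (h : G) : Commute w h := by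
  have hxF : x ∉ frattini G := fun hf => hx (frat_comm h4 hG hc₀ (hcp c₀ hc₀) hf)
  by_cases hh : h ∈ Subgroup.zpowers x ⊔ frattini G
  · have h1 : Subgroup.zpowers x ⊔ frattini G ≤ Subgroup.centralizer {w} := by
      refine sup_le ?_ ?_
      · rw [Subgroup.zpowers_le, Subgroup.mem_centralizer_iff]
        rintro _ rfl
        exact hwx.eq
      · intro k hk
        rw [Subgroup.mem_centralizer_iff]
        rintro _ rfl
        exact (frat_comm h4 hG hw (hcp _ hw) hk).eq
    exact Subgroup.mem_centralizer_iff.mp (h1 hh) w rfl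
  · obtain ⟨x₁, hx₁⟩ := exists_notMem_sup2 hG hxF hh hr
    obtain ⟨α, hα, a1, a2, a3, t, ht, htα⟩ := E.three hG hE hxF hh hx₁ hw
    have hLn := Lx_normal h4 x
    let K : Subgroup G :=
      { carrier := {g | g⁻¹ * α g ∈ Lx x}
        mul_mem' := by
          intro a b ha hb
          show (a * b)⁻¹ * α (a * b) ∈ Lx x
          have e1 : (a * b)⁻¹ * α (a * b) = (b⁻¹ * (a⁻¹ * α a) * b) * (b⁻¹ * α b) := by
            rw [map_mul]; group
          rw [e1]
          refine mul_mem ?_ hb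
          have := hLn.conj_mem _ ha b⁻¹
          rwa [inv_inv] at this
        one_mem' := by
          show (1 : G)⁻¹ * α 1 ∈ Lx x
          rw [map_one, inv_one, mul_one]; exact one_mem _
        inv_mem' := by
          intro a ha
          show (a⁻¹)⁻¹ * α a⁻¹ ∈ Lx x
          have e1 : (a⁻¹)⁻¹ * α a⁻¹ = a * (a⁻¹ * α a)⁻¹ * a⁻¹ := by
            rw [map_inv]; group
          rw [e1]
          exact hLn.conj_mem _ (inv_mem ha) a }
    have hK : K = ⊤ := by
      rw [eq_top_iff, ← ht, Subgroup.closure_le]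
      intro g hg
      show g⁻¹ * α g ∈ Lx x
      rcases htα g hg with h1 | h1
      · rw [h1, inv_mul_cancel]; exact one_mem _
      · rw [h1, inv_mul_cancel_left]; exact mem_Lx.mpr ⟨hw, hwx⟩
    have hfix : ∀ c ∈ commutator G, α c = c := by
      intro c hc
      obtain ⟨g, rfl⟩ := E.cam hG hE hxF hc
      have hgK : g ∈ K := by rw [hK]; trivial
      obtain ⟨hl1, hl2⟩ := mem_Lx.mp (show g⁻¹ * α g ∈ Lx x from hgK)
      have e1 : α g = g * (g⁻¹ * α g) := by group
      rw [map_cm', a1, e1, cm_mul_right, (cm_eq_one_iff _ _).mpr hl2.symm, one_mul, mul_assoc _⁻¹,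
        (c3_comm h4 (cm_mem x g) hl1).eq, inv_mul_cancel_left]
    have h6 := hfix _ (cm_mem x₁ h)
    rw [map_cm', a3, a2, cm_mul_left, mul_assoc w⁻¹, (c3_comm h4 (cm_mem x₁ h) hw).eq,
      inv_mul_cancel_left] at h6
    exact (cm_eq_one_iff w h).mp (mul_eq_left.mp h6)

omit hp in
/-- a homomorphism with image of order at most `p` kills an element outside a small subgroup -/
theorem exists_ker {A : Type} [Group A] (f : G →* A) (M : Subgroup G)
    (hf : Nat.card f.range ≤ p) (hM : p * Nat.card M < Nat.card G) : ∃ g, g ∉ M ∧ f g = 1 := by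
  by_contra h
  push Not at h
  have h1 : f.ker ≤ M := by
    intro g hg
    by_contra hgM
    exact h g hgM hg
  have h2 : Nat.card f.ker ≤ Nat.card M := Nat.card_le_card_of_injective _
    (Subgroup.inclusion_injective h1)
  have h3 := Subgroup.card_mul_index f.ker
  rw [Subgroup.index_ker] at h3
  have h5 : Nat.card f.ker * Nat.card f.range ≤ Nat.card M * p := Nat.mul_le_mul h2 hf
  rw [h3, mul_comm] at h5
  omega

include hG hE h4 in
theorem rank_lt_three (z : G) (hz : ∀ c ∈ commutator G, ∀ g, cm c g ∈ Subgroup.zpowers z)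
    (hzp : z ^ p = 1) (h3 : ∃ c ∈ commutator G, ∃ g, ¬ Commute c g) : Group.rank G < 3 := by
  by_contra hr
  push Not at hr
  have hcp : ∀ c ∈ commutator G, ∀ g, (cm c g) ^ p = 1 := by
    intro c hc g
    obtain ⟨k, hk⟩ := hz c hc g
    have hk' : z ^ k = cm c g := hk
    rw [← hk', ← zpow_natCast, ← zpow_mul, mul_comm, zpow_mul, zpow_natCast, hzp, one_zpow]
  obtain ⟨c₀, hc₀, x, hx⟩ := h3
  have hxF : x ∉ frattini G := fun hf => hx (frat_comm h4 hG hc₀ (hcp c₀ hc₀) hf)
  have key : ∀ a b : G, cm (cm x (a * b)) x = cm (cm x a) x * cm (cm x b) x := by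
    intro a b
    have e1 : b⁻¹ * cm x a * b = cm x a * cm (cm x a) b := by
      unfold cm; group
    rw [cm_mul_right, e1, c3_left h4 (cm_mem x b), c3_left h4 (cm_mem x a),
      (cm_eq_one_iff _ x).mpr (h4 _ (cm_mem x a) b x), mul_one, (h4 _ (cm_mem x b) x _).eq]
  let θ : G →* G := MonoidHom.mk' (fun g => cm (cm x g) x) key
  have hθ : Nat.card θ.range ≤ p := by
    have h1 : θ.range ≤ Subgroup.zpowers z := by
      rintro _ ⟨g, rfl⟩
      exact hz _ (cm_mem x g) x
    have h2 : Nat.card θ.range ≤ Nat.card (Subgroup.zpowers z) :=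
      Nat.card_le_card_of_injective _ (Subgroup.inclusion_injective h1)
    refine h2.trans ?_
    rw [Nat.card_zpowers]
    exact Nat.le_of_dvd hp.out.pos (orderOf_dvd_of_pow_eq_one hzp)
  obtain ⟨y, hy, hy'⟩ := exists_ker θ (Subgroup.zpowers x ⊔ frattini G) hθ (by
    rw [card_step hG _ le_rfl x hxF, card_frat_eq hG]
    have h5 : p ^ 2 < p ^ Group.rank G := Nat.pow_lt_pow_right hp.out.one_lt (by omega)
    have h6 : 0 < Nat.card (frattini G) := Nat.card_pos
    calc p * (p * Nat.card (frattini G)) = p ^ 2 * Nat.card (frattini G) := by ring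
      _ < _ := Nat.mul_lt_mul_of_pos_right h5 h6)
  have hy'' : cm (cm x y) x = 1 := hy'
  have h1 : ∀ g, Commute (cm x y) g :=
    T1 hG hE h4 hr hcp hc₀ hx (cm_mem x y) ((cm_eq_one_iff _ _).mp hy'')
  exact hx (F1 hG hE hxF hy h1 hc₀).1

include hG in
theorem exists_indep (h : ∃ a b : G, ¬ Commute a b) :
    ∃ x y : G, x ∉ frattini G ∧ y ∉ Subgroup.zpowers x ⊔ frattini G := by
  obtain ⟨a, b, hab⟩ := h
  have h1 : ∃ x, x ∉ frattini G := by
    by_contra h
    push Not at h
    have h2 : Subgroup.closure (∅ : Set G) ⊔ frattini G = ⊤ := eq_top_iff.mpr fun g _ =>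
      (le_sup_right : frattini G ≤ _) (h g)
    have h3 := frattini_nongenerating h2
    rw [Subgroup.closure_empty] at h3
    have h4 : a ∈ (⊥ : Subgroup G) := by rw [h3]; trivial
    rw [Subgroup.mem_bot.mp h4] at hab
    exact hab (Commute.one_left b)
  obtain ⟨x, hx⟩ := h1
  refine ⟨x, ?_⟩
  by_contra h
  push Not at h
  have h2 : Subgroup.zpowers x ⊔ frattini G = ⊤ := eq_top_iff.mpr fun g _ => h g hx
  have h3 := frattini_nongenerating h2
  have h4 : ∀ g : G, g ∈ Subgroup.zpowers x := fun g => by rw [h3]; trivial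
  obtain ⟨i, rfl⟩ := h4 a
  obtain ⟨j, rfl⟩ := h4 b
  exact hab ((Commute.refl x).zpow_zpow i j)

include hG in
theorem two_le_rank {x y : G} (hx : x ∉ frattini G) (hy : y ∉ Subgroup.zpowers x ⊔ frattini G) :
    2 ≤ Group.rank G := by
  classical
  obtain ⟨t, ht1, ht2, ht3⟩ := (ind_two hG hx hy).extend hG
  rw [← ht2, ← Finset.card_pair (ne_of_ind hy).symm]
  exact Finset.card_le_card ht1

include hG in
theorem gen_of_indep (hr : Group.rank G = 2) {x y : G} (hx : x ∉ frattini G)
    (hy : y ∉ Subgroup.zpowers x ⊔ frattini G) : Subgroup.closure ({x, y} : Set G) = ⊤ := by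
  classical
  obtain ⟨t, ht1, ht2, ht3⟩ := (ind_two hG hx hy).extend hG
  have h1 : ({y, x} : Finset G) = t := by
    refine Finset.eq_of_subset_of_card_le ht1 ?_
    rw [ht2, hr, Finset.card_pair (ne_of_ind hy).symm]
  rw [← h1] at ht3
  rw [Set.pair_comm]
  simpa using ht3

omit hp in
theorem indep_of_gen (hr : Group.rank G = 2) {x y : G}
    (hgen : Subgroup.closure ({x, y} : Set G) = ⊤) :
    x ∉ frattini G ∧ y ∉ Subgroup.zpowers x ⊔ frattini G := by
  classical
  have h0 : Subgroup.closure ({x, y} : Set G) = Subgroup.zpowers y ⊔ Subgroup.zpowers x := by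
    rw [Set.insert_eq, Subgroup.closure_union, ← Subgroup.zpowers_eq_closure,
      ← Subgroup.zpowers_eq_closure, sup_comm]
  have aux : ∀ a b : G, Subgroup.zpowers b ⊔ Subgroup.zpowers a = ⊤ → a ∉ frattini G := by
    intro a b hab ha
    have h1 : Subgroup.zpowers b ⊔ frattini G = ⊤ := by
      rw [eq_top_iff, ← hab]
      exact sup_le_sup le_rfl (by rwa [Subgroup.zpowers_le])
    have h2 := frattini_nongenerating h1
    have h3 : Group.rank G ≤ ({b} : Finset G).card := Group.rank_le (by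
      rw [Finset.coe_singleton, ← Subgroup.zpowers_eq_closure]; exact h2)
    rw [hr, Finset.card_singleton] at h3
    omega
  rw [h0] at hgen
  refine ⟨aux x y hgen, fun hy => ?_⟩
  have h1 : Subgroup.zpowers x ⊔ frattini G = ⊤ := by
    rw [eq_top_iff, ← hgen]
    refine sup_le ?_ le_sup_left
    rwa [Subgroup.zpowers_le]
  have h2 := frattini_nongenerating h1
  have h3 : Group.rank G ≤ ({x} : Finset G).card := Group.rank_le (by
    rw [Finset.coe_singleton, ← Subgroup.zpowers_eq_closure]; exact h2)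
  rw [hr, Finset.card_singleton] at h3
  omega

include h4 in
/-- powers of `y` against `x` when `x` centralises `u = [x, y]` modulo nothing -/
theorem cm_pow_choose (x y : G) (n : ℕ) :
    cm x (y ^ n) = (cm x y) ^ n * (cm (cm x y) y) ^ (n.choose 2) := by
  induction n with
  | zero => simp [cm_one_right]
  | succ n ih =>
    have hu := cm_mem x y
    have e1 : y⁻¹ * cm x (y ^ n) * y = cm x (y ^ n) * cm (cm x (y ^ n)) y := conj_eq _ _
    have e2 : cm (cm x (y ^ n)) y = (cm (cm x y) y) ^ n := by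
      rw [ih, c3_left h4 (pow_mem hu n), c3_left_pow h4 hu,
        (cm_eq_one_iff _ y).mpr ((h4 _ hu y y).pow_left _), mul_one]
    have e3 : Commute ((cm (cm x y) y) ^ (n.choose 2)) ((cm (cm x y) y) ^ n) :=
      (Commute.refl _).pow_pow _ _
    have e4 : (n + 1).choose 2 = n + n.choose 2 := by
      rw [Nat.choose_succ_succ' n 1, Nat.choose_one_right]
    rw [pow_succ y, cm_mul_right, e1, e2, ih, e4, pow_add _ n (n.choose 2),
      pow_succ' (cm x y) n]
    calc cm x y * (cm x y ^ n * cm (cm x y) y ^ n.choose 2 * cm (cm x y) y ^ n)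
        = cm x y * cm x y ^ n * (cm (cm x y) y ^ n.choose 2 * cm (cm x y) y ^ n) := by group
      _ = _ := by rw [e3.eq]

include hG hE h4 in
theorem T2 (z : G) (hz : ∀ c ∈ commutator G, ∀ g, cm c g ∈ Subgroup.zpowers z)
    (hzp : z ^ p = 1) (h3 : ∃ c ∈ commutator G, ∃ g, ¬ Commute c g) :
    Group.rank G = 2 ∧ ∃ u b : G, ∃ n : ℕ, u ∈ commutator G ∧
      (∀ c ∈ commutator G, c ∈ Subgroup.zpowers u ⊔ Subgroup.zpowers b) ∧
      (∀ c ∈ commutator G, ∀ g, cm c g ∈ Subgroup.zpowers b) ∧ b ^ p = 1 ∧ (∀ g, Commute b g) ∧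
      (¬ ∀ g, Commute u g) ∧ b ≠ 1 ∧ b = u ^ n * b ^ (n.choose 2) := by
  have hcp : ∀ c ∈ commutator G, ∀ g, (cm c g) ^ p = 1 := by
    intro c hc g
    obtain ⟨k, hk⟩ := hz c hc g
    have hk' : z ^ k = cm c g := hk
    rw [← hk', ← zpow_natCast, ← zpow_mul, mul_comm, zpow_mul, zpow_natCast, hzp, one_zpow]
  have hrlt := rank_lt_three hG hE h4 z hz hzp h3
  have hzc : Nat.card (Subgroup.zpowers z) ≤ p := by
    rw [Nat.card_zpowers]
    exact Nat.le_of_dvd hp.out.pos (orderOf_dvd_of_pow_eq_one hzp)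
  obtain ⟨c₀, hc₀, g₀, hg₀⟩ := h3
  obtain ⟨x₀, y₀, hx₀, hy₀⟩ := exists_indep hG ⟨c₀, g₀, hg₀⟩
  have hr : Group.rank G = 2 := by
    have := two_le_rank hG hx₀ hy₀
    omega
  refine ⟨hr, ?_⟩
  have hgen₀ := gen_of_indep hG hr hx₀ hy₀
  -- an element `x ∉ Φ` centralising `γ₂`
  have hu₀ := cm_mem x₀ y₀
  let φ : G →* G := MonoidHom.mk' (fun g => cm (cm x₀ y₀) g) (fun a b => c3_right h4 hu₀ a b)
  have hφ : Nat.card φ.range ≤ p := by
    have h1 : φ.range ≤ Subgroup.zpowers z := by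
      rintro _ ⟨g, rfl⟩
      exact hz _ hu₀ g
    exact (Nat.card_le_card_of_injective _ (Subgroup.inclusion_injective h1)).trans hzc
  obtain ⟨x, hx, hx'⟩ := exists_ker φ (frattini G) hφ (by
    rw [card_frat_eq hG, hr]
    have h5 : p ^ 1 < p ^ 2 := Nat.pow_lt_pow_right hp.out.one_lt (by omega)
    have h6 : 0 < Nat.card (frattini G) := Nat.card_pos
    calc p * Nat.card (frattini G) = p ^ 1 * Nat.card (frattini G) := by ring
      _ < _ := Nat.mul_lt_mul_of_pos_right h5 h6)
  have hxu₀ : Commute (cm x₀ y₀) x := (cm_eq_one_iff _ _).mp hx'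
  have hLn := Lx_normal h4 x
  have hxC : ∀ c ∈ commutator G, Commute c x := by
    intro c hc
    exact (mem_Lx.mp (comm_le_of_gen hgen₀ (Lx x) (mem_Lx.mpr ⟨hu₀, hxu₀⟩) hc)).2
  obtain ⟨y, hy⟩ := exists_notMem_sup hG hx hr.ge
  have hgen := gen_of_indep hG hr hx hy
  have hu := cm_mem x y
  -- `b = [u, y]`
  have hb1 : cm (cm x y) y ≠ 1 := by
    intro hb
    have huy := (cm_eq_one_iff _ _).mp hb
    have hLy := Lx_normal h4 y
    have h1 : ∀ c ∈ commutator G, Commute c y := fun c hc =>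
      (mem_Lx.mp (comm_le_of_gen hgen (Lx y) (mem_Lx.mpr ⟨hu, huy⟩) hc)).2
    have h2 : (⊤ : Subgroup G) ≤ Subgroup.centralizer {c₀} := by
      rw [← hgen, Subgroup.closure_le]
      rintro g (rfl | rfl)
      · rw [SetLike.mem_coe, Subgroup.mem_centralizer_iff]
        rintro _ rfl
        exact (hxC _ hc₀).eq
      · rw [SetLike.mem_coe, Subgroup.mem_centralizer_iff]
        rintro _ rfl
        exact (h1 _ hc₀).eq
    exact hg₀ (Subgroup.mem_centralizer_iff.mp (h2 (Subgroup.mem_top g₀)) c₀ rfl)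
  have hzb : Subgroup.zpowers (cm (cm x y) y) = Subgroup.zpowers z := by
    have h1 : Subgroup.zpowers (cm (cm x y) y) ≤ Subgroup.zpowers z := by
      rw [Subgroup.zpowers_le]; exact hz _ hu y
    refine Subgroup.eq_of_le_of_card_ge h1 (hzc.trans ?_)
    rw [Nat.card_zpowers, orderOf_eq_prime (hcp _ hu y) hb1]
  have hbc : ∀ g, Commute (cm (cm x y) y) g := h4 _ hu y
  have hbz : ∀ c ∈ commutator G, ∀ g, cm c g ∈ Subgroup.zpowers (cm (cm x y) y) := by
    rw [hzb]; exact hz
  -- the coset of `x`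
  obtain ⟨k, hk⟩ := E.cam hG hE hx (cm_mem (cm x y) y)
  have hH : (Subgroup.centralizer ({x} : Set G)).Normal := by
    refine Subgroup.Normal.of_commutator_le G ?_
    intro c hc
    rw [Subgroup.mem_centralizer_iff]
    rintro _ rfl
    exact (hxC c hc).symm.eq
  have hk2 : k ∈ Subgroup.centralizer ({x} : Set G) ⊔ Subgroup.zpowers y := by
    have h1 : (⊤ : Subgroup G) ≤ Subgroup.centralizer ({x} : Set G) ⊔ Subgroup.zpowers y := by
      rw [← hgen, Subgroup.closure_le]
      rintro g (rfl | rfl)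
      · refine (le_sup_left : _ ≤ Subgroup.centralizer ({g} : Set G) ⊔ Subgroup.zpowers y) ?_
        rw [Subgroup.mem_centralizer_iff]
        rintro _ rfl
        rfl
      · exact (le_sup_right : _ ≤ Subgroup.centralizer ({x} : Set G) ⊔ Subgroup.zpowers g)
          (Subgroup.mem_zpowers g)
    exact h1 (Subgroup.mem_top k)
  obtain ⟨h, hh, w, hw, rfl⟩ := Subgroup.mem_sup_of_normal_left.mp hk2
  rw [← mem_powers_iff_mem_zpowers] at hw
  obtain ⟨n, rfl⟩ := hw
  have hxh : cm x h = 1 := (cm_eq_one_iff _ _).mpr (Subgroup.mem_centralizer_iff.mp hh x rfl)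
  have hyn : (fun n : ℕ => y ^ n) n = y ^ n := rfl
  rw [cm_mul_right, hxh, mul_one, inv_mul_cancel, mul_one, hyn, cm_pow_choose h4] at hk
  refine ⟨cm x y, cm (cm x y) y, n, hu, ?_, hbz, hcp _ hu y, hbc, ?_, hb1, hk.symm⟩
  · -- `γ₂ ≤ ⟨u⟩⟨b⟩`
    have hbn : (Subgroup.zpowers (cm (cm x y) y)).Normal := by
      refine ⟨fun n hn g => ?_⟩
      obtain ⟨j, rfl⟩ := hn
      have h1 : g * (cm (cm x y) y) ^ j * g⁻¹ = (cm (cm x y) y) ^ j := by
        rw [← ((hbc g).zpow_left j).eq, mul_inv_cancel_right]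
      show g * (cm (cm x y) y) ^ j * g⁻¹ ∈ _
      rw [h1]
      exact ⟨j, rfl⟩
    have hKn : (Subgroup.zpowers (cm x y) ⊔ Subgroup.zpowers (cm (cm x y) y)).Normal := by
      refine ⟨fun n hn g => ?_⟩
      have hn2 : n ∈ commutator G := by
        refine (sup_le ?_ ?_ : Subgroup.zpowers (cm x y) ⊔ Subgroup.zpowers (cm (cm x y) y)
          ≤ commutator G) hn
        · rw [Subgroup.zpowers_le]; exact hu
        · rw [Subgroup.zpowers_le]; exact cm_mem _ _
      have h1 : g * n * g⁻¹ = n * cm n g⁻¹ := by unfold cm; group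
      rw [h1]
      exact mul_mem hn ((le_sup_right : Subgroup.zpowers (cm (cm x y) y) ≤ _) (hbz n hn2 g⁻¹))
    intro c hc
    exact comm_le_of_gen hgen _ ((le_sup_left : Subgroup.zpowers (cm x y) ≤ _)
      (Subgroup.mem_zpowers _)) hc
  · intro h
    exact hb1 ((cm_eq_one_iff _ _).mpr (h y))

end T

end Pool.Agent.Q21.AC
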