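import Mathlib
import Pool.Agent.Q21.AC.Three
import Pool.Agent.Helper832.AutC.Nec

/-!
The two types of groups of class at least three with the property `E`.
-/

set_option autoImplicit false

open scoped commutatorElement

namespace Pool.Agent.Q21.AC

open Pool.Agent.Helper832.AutC

/-- `γ₂` is cyclic, and `[γ₂, G] ≤ γ₂⁴` when `p = 2` -/
def TB (p : ℕ) (G : Type) [Group G] : Prop :=
  (∃ u ∈ commutator G, ∀ c ∈ commutator G, c ∈ Subgroup.zpowers u) ∧
    (p = 2 → ∀ c ∈ commutator G, ∀ g : G, ∃ e ∈ commutator G, cm c g = e ^ 4)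

/-- `p = 2`, class at most three, `γ₂` of exponent two -/
def TC (p : ℕ) (G : Type) [Group G] : Prop :=
  p = 2 ∧ (∀ c ∈ commutator G, ∀ g h : G, Commute (cm c g) h) ∧ ∀ c ∈ commutator G, c ^ 2 = 1

variable {G : Type} [Group G] {p : ℕ} [hp : Fact p.Prime] [Finite G]

theorem typeT (hG : IsPGroup p G) (hE : E G)
    (h4 : ∀ c ∈ commutator G, ∀ g h : G, Commute (cm c g) h)
    (z : G) (hz : ∀ c ∈ commutator G, ∀ g, cm c g ∈ Subgroup.zpowers z)
    (hzp : z ^ p = 1) (h3 : ∃ c ∈ commutator G, ∃ g, ¬ Commute c g) :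
    Group.rank G = 2 ∧ (TB p G ∨ TC p G) := by
  obtain ⟨hr, u, b, n, hu, hub, hb, hbp, hbc, huc, hb1, hbn⟩ := T2 hG hE h4 z hz hzp h3
  refine ⟨hr, ?_⟩
  have hbcen : ∀ k : ℤ, b ^ k ∈ Subgroup.center G := fun k => by
    rw [Subgroup.mem_center_iff]; intro g; exact ((hbc g).zpow_left k).symm.eq
  have hpn : p ∣ n := by
    by_contra hpn
    apply huc
    have h1 : u ∈ Subgroup.center G := by
      refine mem_of_zpow_mem hG _ u n (fun h => hpn (by exact_mod_cast h)) ?_
      have h2 : u ^ (n : ℤ) = b ^ (1 - (n.choose 2 : ℤ)) := by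
        rw [zpow_sub, zpow_one, zpow_natCast, zpow_natCast]
        exact eq_mul_inv_of_mul_eq hbn.symm
      rw [h2]
      exact hbcen _
    intro g
    exact (Subgroup.mem_center_iff.mp h1 g).symm
  by_cases hp2 : p = 2
  · subst hp2
    obtain ⟨m, rfl⟩ := hpn
    have hch : (2 * m).choose 2 = m * (2 * m - 1) := by
      rw [Nat.choose_two_right, mul_assoc, Nat.mul_div_cancel_left _ (by norm_num)]
    rcases Nat.even_or_odd m with ⟨k, hk⟩ | hm
    · -- `4 ∣ n`
      left
      have h1 : b = u ^ (4 * k) := by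
        have h2 : b ^ ((2 * m).choose 2) = 1 := by
          rw [hch, hk, show (k + k) * (2 * (k + k) - 1) = 2 * (k * (2 * (k + k) - 1)) by ring,
            pow_mul, hbp, one_pow]
        rw [h2, mul_one] at hbn
        rw [hbn]; congr 1; omega
      refine ⟨⟨u, hu, fun c hc => ?_⟩, fun _ c hc g => ?_⟩
      · have h2 := hub c hc
        have h3 : Subgroup.zpowers u ⊔ Subgroup.zpowers b ≤ Subgroup.zpowers u := by
          refine sup_le le_rfl ?_
          rw [Subgroup.zpowers_le, h1]
          exact pow_mem (Subgroup.mem_zpowers u) _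
        exact h3 h2
      · obtain ⟨j, hj⟩ := hb c hc g
        have hj' : b ^ j = cm c g := hj
        refine ⟨(u ^ k) ^ j, zpow_mem (pow_mem hu _) _, ?_⟩
        rw [← hj', h1, ← zpow_natCast u (4 * k), ← zpow_natCast u k, ← zpow_mul, ← zpow_mul,
          ← zpow_natCast, ← zpow_mul]
        congr 1; push_cast; ring
    · right
      have h1 : u ^ 2 = 1 := by
        have h2 : b ^ ((2 * m).choose 2) = b := by
          obtain ⟨k, hk⟩ := hm
          have h3 : (2 * m).choose 2 = 2 * (k * (2 * m - 1) + (m - 1)) + 1 := by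
            rw [hch, hk]
            have : 2 * (2 * k + 1) - 1 = 4 * k + 1 := by omega
            rw [this]
            have : 2 * k + 1 - 1 = 2 * k := by omega
            rw [this]; ring
          rw [h3, pow_succ, pow_mul, hbp, one_pow, one_mul]
        rw [h2] at hbn
        have h3 : u ^ (2 * m) = 1 := by
          exact (mul_eq_right.mp hbn.symm)
        have h4 : u ^ 2 ∈ (⊥ : Subgroup G) := by
          refine mem_of_zpow_mem hG ⊥ (u ^ 2) m ?_ ?_
          · intro h
            have h5 : 2 ∣ m := by exact_mod_cast h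
            exact (Nat.not_even_iff_odd.mpr hm) (even_iff_two_dvd.mpr h5)
          · rw [Subgroup.mem_bot, zpow_natCast, ← pow_mul, h3]
        exact Subgroup.mem_bot.mp h4
      refine ⟨rfl, h4, fun c hc => ?_⟩
      have hbn : (Subgroup.zpowers b).Normal := by
        refine ⟨?_⟩
        rintro _ ⟨j, rfl⟩ g
        have h1 : g * b ^ j * g⁻¹ = b ^ j := by
          rw [← ((hbc g).zpow_left j).eq, mul_inv_cancel_right]
        show g * b ^ j * g⁻¹ ∈ _
        rw [h1]
        exact ⟨j, rfl⟩
      obtain ⟨_, ⟨i, rfl⟩, _, ⟨j, rfl⟩, rfl⟩ := Subgroup.mem_sup_of_normal_right.mp (hub c hc)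
      show (u ^ i * b ^ j) ^ 2 = 1
      rw [((hbc _).zpow_left j).symm.mul_pow, ← zpow_natCast, ← zpow_natCast, ← zpow_mul,
        ← zpow_mul, mul_comm i, mul_comm j, zpow_mul, zpow_mul, zpow_natCast, zpow_natCast, h1, hbp,
        one_zpow, one_zpow, one_mul]
  · left
    have h1 : b = u ^ n := by
      obtain ⟨k, hk⟩ := dvd_choose_two hp.out hp2 hpn
      rw [hk, pow_mul, hbp, one_pow, mul_one] at hbn
      exact hbn
    refine ⟨⟨u, hu, fun c hc => ?_⟩, fun h => absurd h hp2⟩
    have h3 : Subgroup.zpowers u ⊔ Subgroup.zpowers b ≤ Subgroup.zpowers u := by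
      refine sup_le le_rfl ?_
      rw [Subgroup.zpowers_le, h1]
      exact pow_mem (Subgroup.mem_zpowers u) _
    exact h3 (hub c hc)

end Pool.Agent.Q21.AC
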