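import Mathlib
import Pool.Agent.Q21.AC.Types

/-!
A 2-group with the property `E` does not have `|γ₄| = 2` and `γ₂/γ₄` of exponent two.
-/

set_option autoImplicit false

open scoped commutatorElement

namespace Pool.Agent.Q21.AC

open Pool.Agent.Helper832.AutC

variable {G : Type} [Group G]

theorem cm_mul_right' (c v w : G) : cm c (v * w) = cm c w * (cm c v * cm (cm c v) w) := by
  unfold cm; group

section Calc

variable (z : G) (zc : ∀ g, Commute z g) (z2 : z * z = 1)
  (hN : ∀ c ∈ commutator G, ∀ g h : G, cm (cm c g) h = 1 ∨ cm (cm c g) h = z)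
  (hs : ∀ c ∈ commutator G, c * c = 1 ∨ c * c = z)

include zc hN in
theorem U_cen {c : G} (hc : c ∈ commutator G) (g h k : G) : Commute (cm (cm c g) h) k := by
  rcases hN c hc g h with h1 | h1
  · rw [h1]; exact Commute.one_left k
  · rw [h1]; exact zc k

include zc hN in
theorem U_d {c k : G} (hc : c ∈ commutator G) (g : G) (hk : k ∈ commutator G) :
    Commute (cm c g) k := cm_comm_eq_one (cm c g) (fun a b => U_cen z zc hN hc g a b) hk

include zc hN in
theorem U_ab {x y : G} (hgen : Subgroup.closure ({x, y} : Set G) = ⊤) {c d : G}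
    (hc : c ∈ commutator G) (hd : d ∈ commutator G) : Commute c d := by
  have hu := cm_mem x y
  have h1 : ∀ c ∈ commutator G, Commute c (cm x y) := by
    let L : Subgroup G := commutator G ⊓ Subgroup.centralizer {cm x y}
    have hL : ∀ c, c ∈ L ↔ c ∈ commutator G ∧ Commute c (cm x y) := fun c => mem_Lx
    have hLn : L.Normal := by
      refine ⟨fun c hc g => ?_⟩
      rw [hL] at hc ⊢
      refine ⟨(inferInstance : (commutator G).Normal).conj_mem c hc.1 g, ?_⟩
      have h1 : g * c * g⁻¹ = c * cm c g⁻¹ := by unfold cm; group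
      rw [h1]
      exact hc.2.mul_left (U_d z zc hN hc.1 _ hu)
    intro c hc
    exact ((hL c).mp (comm_le_of_gen hgen L ((hL _).mpr ⟨hu, Commute.refl _⟩) hc)).2
  let K : Subgroup G := commutator G ⊓ Subgroup.centralizer (commutator G)
  have hK : ∀ c, c ∈ K ↔ c ∈ commutator G ∧ ∀ d ∈ commutator G, Commute c d := by
    intro c
    show c ∈ commutator G ⊓ Subgroup.centralizer (commutator G) ↔ _
    rw [Subgroup.mem_inf, Subgroup.mem_centralizer_iff]
    constructor
    · rintro ⟨h1, h2⟩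
      exact ⟨h1, fun d hd => (h2 d hd).symm⟩
    · rintro ⟨h1, h2⟩
      exact ⟨h1, fun d hd => (h2 d hd).symm.eq⟩
  have hKn : K.Normal := by
    refine ⟨fun c hc g => ?_⟩
    rw [hK] at hc ⊢
    refine ⟨(inferInstance : (commutator G).Normal).conj_mem c hc.1 g, fun d hd => ?_⟩
    have h1 : g * c * g⁻¹ = c * cm c g⁻¹ := by unfold cm; group
    rw [h1]
    exact (hc.2 d hd).mul_left (U_d z zc hN hc.1 _ hd)
  exact ((hK c).mp (comm_le_of_gen hgen K ((hK _).mpr ⟨hu, fun d hd => (h1 d hd).symm⟩) hc)).2 d hd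

variable (ab : ∀ c ∈ commutator G, ∀ d ∈ commutator G, Commute c d)

include ab in
theorem U_left {c d : G} (hc : c ∈ commutator G) (hd : d ∈ commutator G) (g : G) :
    cm (c * d) g = cm c g * cm d g := by
  rw [cm_mul_left, mul_assoc d⁻¹, (ab _ (cm_mem c g) _ hd).eq, inv_mul_cancel_left]

include zc hs in
theorem U_sq {c : G} (hc : c ∈ commutator G) (g : G) : cm (c * c) g = 1 := by
  rw [cm_eq_one_iff]
  rcases hs c hc with h | h
  · rw [h]; exact Commute.one_left g
  · rw [h]; exact zc g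

include zc hs ab in
theorem U_cm_sq {c : G} (hc : c ∈ commutator G) (g : G) : cm c g * cm c g = 1 := by
  rw [← U_left ab hc hc, U_sq z zc hs hc]

include zc hN ab in
theorem U_B1 {c : G} (hc : c ∈ commutator G) (v w k : G) :
    cm (cm c (v * w)) k = cm (cm c v) k * cm (cm c w) k := by
  rw [cm_mul_right', U_left ab (cm_mem c w) (mul_mem (cm_mem c v) (cm_mem _ w)),
    U_left ab (cm_mem c v) (cm_mem _ w), (cm_eq_one_iff _ k).mpr (U_cen z zc hN hc v w k), mul_one,
    (U_cen z zc hN hc w k _).eq]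

include zc hN in
theorem U_B2 {c : G} (hc : c ∈ commutator G) (k v w : G) :
    cm (cm c k) (v * w) = cm (cm c k) v * cm (cm c k) w :=
  cm_hom (cm c k) (fun a b => U_cen z zc hN hc k a b) v w

include ab in
theorem U_symm {c : G} (hc : c ∈ commutator G) (v w : G) :
    cm (cm c v) w = cm (cm c w) v := by
  have h1 := cm_mul_right' c v w
  have h2 := cm_mul_right' c w v
  have h3 : cm c (v * w) = cm c (w * v) := by
    have h4 : v * w = (w * v) * cm v w := by unfold cm; group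
    rw [h4, cm_mul_right, (cm_eq_one_iff _ _).mpr (ab c hc _ (cm_mem v w)), one_mul, mul_assoc _⁻¹,
      (ab _ (cm_mem c _) _ (cm_mem v w)).eq, inv_mul_cancel_left]
  rw [h1, h2, ← mul_assoc, ← mul_assoc, (ab _ (cm_mem c w) _ (cm_mem c v)).eq] at h3
  exact mul_left_cancel h3

include zc hs ab in
theorem U_cm_vv {c : G} (hc : c ∈ commutator G) (v : G) : cm c (v * v) = cm (cm c v) v := by
  rw [cm_mul_right', ← mul_assoc, U_cm_sq z zc hs ab hc, one_mul]

include zc hN z2 in
theorem U_d_vv {c : G} (hc : c ∈ commutator G) (g v : G) : cm (cm c g) (v * v) = 1 := by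
  rw [U_B2 z zc hN hc]
  rcases hN c hc g v with h | h
  · rw [h, mul_one]
  · rw [h, z2]

include ab in
theorem U_B_mul {c d : G} (hc : c ∈ commutator G) (hd : d ∈ commutator G) (v w : G) :
    cm (cm (c * d) v) w = cm (cm c v) w * cm (cm d v) w := by
  rw [U_left ab hc hd, U_left ab (cm_mem c v) (cm_mem d v)]

include zc hN in
theorem U_B_d {c : G} (hc : c ∈ commutator G) (g v w : G) : cm (cm (cm c g) v) w = 1 :=
  (cm_eq_one_iff _ w).mpr (U_cen z zc hN hc g v w)

/-- cosets of a normal subgroup containing `γ₂`, `x²`, `y²` -/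
theorem four_cosets {x y : G} (hgen : Subgroup.closure ({x, y} : Set G) = ⊤) (M : Subgroup G)
    (hM : commutator G ≤ M) (hx : x * x ∈ M) (hy : y * y ∈ M) (g : G) :
    ∃ r m : G, (r = 1 ∨ r = x ∨ r = y ∨ r = x * y) ∧ m ∈ M ∧ g = r * m := by
  have hMn : M.Normal := Subgroup.Normal.of_commutator_le G hM
  have hpar : ∀ (t : G), t * t ∈ M → ∀ k : ℤ, ∃ m ∈ M, t ^ k = m ∨ t ^ k = t * m := by
    intro t ht k
    rcases Int.even_or_odd k with ⟨j, hj⟩ | ⟨j, hj⟩
    · refine ⟨(t * t) ^ j, zpow_mem ht j, Or.inl ?_⟩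
      rw [hj, zpow_add, (Commute.refl t).mul_zpow]
    · refine ⟨(t * t) ^ j, zpow_mem ht j, Or.inr ?_⟩
      rw [hj, zpow_add, zpow_one, two_mul, zpow_add, (Commute.refl t).mul_zpow]
      exact (((Commute.refl t).zpow_left j).mul_left ((Commute.refl t).zpow_left j)).eq
  have h1 : g ∈ Subgroup.zpowers x ⊔ (Subgroup.zpowers y ⊔ M) := by
    have h2 : (⊤ : Subgroup G) ≤ Subgroup.zpowers x ⊔ (Subgroup.zpowers y ⊔ M) := by
      rw [← hgen, Subgroup.closure_le]
      rintro t (rfl | rfl)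
      · exact (le_sup_left : Subgroup.zpowers t ≤ _) (Subgroup.mem_zpowers t)
      · exact (le_sup_right : Subgroup.zpowers t ⊔ M ≤ Subgroup.zpowers x ⊔ _)
          ((le_sup_left : Subgroup.zpowers t ≤ _) (Subgroup.mem_zpowers t))
    exact h2 (Subgroup.mem_top g)
  have hn2 : (Subgroup.zpowers y ⊔ M).Normal :=
    Subgroup.Normal.of_commutator_le G (hM.trans le_sup_right)
  obtain ⟨_, ⟨i, rfl⟩, w, hw, rfl⟩ := Subgroup.mem_sup_of_normal_right.mp h1
  obtain ⟨_, ⟨j, rfl⟩, m, hm, rfl⟩ := Subgroup.mem_sup_of_normal_right.mp hw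
  obtain ⟨m1, hm1, h1⟩ := hpar x hx i
  obtain ⟨m2, hm2, h2⟩ := hpar y hy j
  show ∃ r n : G, (r = 1 ∨ r = x ∨ r = y ∨ r = x * y) ∧ n ∈ M ∧ x ^ i * (y ^ j * m) = r * n
  rcases h1 with h1 | h1 <;> rcases h2 with h2 | h2 <;> rw [h1, h2]
  · exact ⟨1, m1 * (m2 * m), Or.inl rfl, mul_mem hm1 (mul_mem hm2 hm), by group⟩
  · refine ⟨y, (y⁻¹ * m1 * y) * (m2 * m), Or.inr (Or.inr (Or.inl rfl)), ?_, by group⟩
    refine mul_mem ?_ (mul_mem hm2 hm)
    have := hMn.conj_mem m1 hm1 y⁻¹
    rwa [inv_inv] at this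
  · exact ⟨x, m1 * (m2 * m), Or.inr (Or.inl rfl), mul_mem hm1 (mul_mem hm2 hm), by group⟩
  · refine ⟨x * y, (y⁻¹ * m1 * y) * (m2 * m), Or.inr (Or.inr (Or.inr rfl)), ?_, by group⟩
    refine mul_mem ?_ (mul_mem hm2 hm)
    have := hMn.conj_mem m1 hm1 y⁻¹
    rwa [inv_inv] at this

end Calc

end Pool.Agent.Q21.AC
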