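import Mathlib
import Pool.Agent.Q21.AC.Four

/-!
A 2-group with the property `E` does not have `|γ₄| = 2` and `γ₂/γ₄` of exponent two.
-/

set_option autoImplicit false

open scoped commutatorElement

namespace Pool.Agent.Q21.AC

open Pool.Agent.Helper832.AutC

variable {G : Type} [Group G] [Finite G] (hG : IsPGroup 2 G) (hE : E G)
  (z : G) (zc : ∀ g, Commute z g) (z1 : z ≠ 1) (z2 : z * z = 1)
  (hN : ∀ c ∈ commutator G, ∀ g h : G, cm (cm c g) h = 1 ∨ cm (cm c g) h = z)
  (hs : ∀ c ∈ commutator G, c * c = 1 ∨ c * c = z)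

include hG hE z1 z2 zc hN hs in
theorem U1core {x y : G} (hgen : Subgroup.closure ({x, y} : Set G) = ⊤) (hx : x ∉ frattini G)
    (h1 : cm (cm x y) x = 1) (h2 : cm (cm (cm x y) y) y = z) : False := by
  have ab : ∀ c ∈ commutator G, ∀ d ∈ commutator G, Commute c d :=
    fun c hc d hd => U_ab z zc hN hgen hc hd
  have hu := cm_mem x y
  have hzm : z ∈ commutator G := by rw [← h2]; exact cm_mem _ _
  -- `x` centralises `γ₂`
  have hxC : ∀ c ∈ commutator G, Commute c x := by
    intro c hc
    have h3 : cm x y ∈ (Lx x).normalCore := by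
      intro b
      have e1 : b * cm x y * b⁻¹ = cm x y * cm (cm x y) b⁻¹ := by
        rw [← conj_eq]; group
      rw [e1]
      refine mem_Lx.mpr ⟨mul_mem hu (cm_mem _ _), ?_⟩
      refine ((cm_eq_one_iff _ _).mp h1).mul_left ?_
      rw [← cm_eq_one_iff, U_symm ab hu, h1, cm_one_left]
    have h4 := comm_le_of_gen hgen _ h3 hc
    exact (mem_Lx.mp (Subgroup.normalCore_le _ h4)).2
  obtain ⟨k, hk⟩ := E.cam hG hE hx hzm
  have hH : (Subgroup.centralizer ({x} : Set G)).Normal := by
    refine Subgroup.Normal.of_commutator_le G ?_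
    intro c hc
    rw [Subgroup.mem_centralizer_iff]
    rintro _ rfl
    exact (hxC c hc).symm.eq
  have hk2 : k ∈ Subgroup.centralizer ({x} : Set G) ⊔ Subgroup.zpowers y := by
    have h1 : (⊤ : Subgroup G) ≤ Subgroup.centralizer ({x} : Set G) ⊔ Subgroup.zpowers y := by
      rw [← hgen, Subgroup.closure_le]
      rintro g (rfl | rfl)
      · refine (le_sup_left : _ ≤ Subgroup.centralizer ({g} : Set G) ⊔ Subgroup.zpowers y) ?_
        rw [Subgroup.mem_centralizer_iff]
        rintro _ rfl
        rfl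
      · exact (le_sup_right : _ ≤ Subgroup.centralizer ({x} : Set G) ⊔ Subgroup.zpowers g)
          (Subgroup.mem_zpowers g)
    exact h1 (Subgroup.mem_top k)
  obtain ⟨h, hh, w, hw, rfl⟩ := Subgroup.mem_sup_of_normal_left.mp hk2
  rw [← mem_powers_iff_mem_zpowers] at hw
  obtain ⟨n, rfl⟩ := hw
  have hxh : cm x h = 1 := (cm_eq_one_iff _ _).mpr (Subgroup.mem_centralizer_iff.mp hh x rfl)
  have hyn : (fun n : ℕ => y ^ n) n = y ^ n := rfl
  rw [cm_mul_right, hxh, mul_one, inv_mul_cancel, mul_one, hyn] at hk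
  -- parity of `n`
  have hB : ∀ n : ℕ, cm (cm (cm x (y ^ n)) y) y = z ^ n := by
    intro n
    induction n with
    | zero => simp [cm_one_right, cm_one_left]
    | succ n ih =>
      rw [pow_succ y, cm_mul_right, conj_eq,
        U_B_mul ab hu (mul_mem (cm_mem _ _) (cm_mem _ _)),
        U_B_mul ab (cm_mem _ _) (cm_mem _ _), U_B_d z zc hN (cm_mem _ _), mul_one, ih, h2,
        pow_succ']
  have hn := hB n
  rw [hk, (cm_eq_one_iff _ _).mpr (zc y), cm_one_left] at hn
  obtain ⟨m, rfl⟩ : ∃ m, n = m + m := by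
    rcases Nat.even_or_odd n with h | ⟨m, hm⟩
    · exact h
    · exfalso
      rw [hm, pow_succ, pow_mul, pow_two, z2, one_pow, one_mul] at hn
      exact z1 hn.symm
  -- `v = [x, y²]`
  have hv : cm x (y * y) = (cm x y * cm x y) * cm (cm x y) y := by
    rw [cm_mul_right, conj_eq, mul_assoc]
  have hb := cm_mem (cm x y) y
  have hb2 : cm (cm x y) y * cm (cm x y) y = 1 := U_cm_sq z zc hs ab hu y
  have huu : (cm x y * cm x y) * (cm x y * cm x y) = 1 := by
    rcases hs _ hu with h | h
    · rw [h, mul_one]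
    · rw [h, z2]
  have hvv : cm x (y * y) * cm x (y * y) = 1 := by
    rw [hv]
    calc (cm x y * cm x y) * cm (cm x y) y * ((cm x y * cm x y) * cm (cm x y) y)
        = (cm x y * cm x y) * (cm (cm x y) y * (cm x y * cm x y)) * cm (cm x y) y := by group
      _ = (cm x y * cm x y) * ((cm x y * cm x y) * cm (cm x y) y) * cm (cm x y) y := by
          rw [(ab _ hb _ (mul_mem hu hu)).eq]
      _ = ((cm x y * cm x y) * (cm x y * cm x y)) * (cm (cm x y) y * cm (cm x y) y) := by group
      _ = 1 := by rw [huu, hb2, mul_one]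
  have hvt : Commute (cm x (y * y)) (y * y) := by
    rw [← cm_eq_one_iff, hv, U_left ab (mul_mem hu hu) hb, U_sq z zc hs hu,
      U_d_vv z zc z2 hN hu, mul_one]
  have hvm : ∀ m : ℕ, cm x ((y * y) ^ m) = (cm x (y * y)) ^ m := by
    intro m
    induction m with
    | zero => simp [cm_one_right]
    | succ m ih =>
      rw [pow_succ (y * y), cm_mul_right, ih, mul_assoc _⁻¹, (hvt.pow_left m).eq,
        inv_mul_cancel_left, pow_succ']
  have e1 : y ^ (m + m) = (y * y) ^ m := by rw [pow_add, (Commute.refl y).mul_pow]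
  rw [e1, hvm] at hk
  rcases Nat.even_or_odd m with ⟨j, hj⟩ | ⟨j, hj⟩
  · rw [hj, pow_add, ← (Commute.refl (cm x (y * y))).mul_pow, hvv, one_pow] at hk
    exact z1 hk.symm
  · rw [hj, pow_succ, two_mul, pow_add, ← (Commute.refl (cm x (y * y))).mul_pow, hvv, one_pow,
      one_mul, hv] at hk
    have h3 : cm ((cm x y * cm x y) * cm (cm x y) y) y = z := by
      rw [U_left ab (mul_mem hu hu) hb, U_sq z zc hs hu, one_mul, h2]
    rw [hk, (cm_eq_one_iff _ _).mpr (zc y)] at h3
    exact z1 h3.symm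

include hG hE z1 z2 zc hN hs in
theorem U1 (hZ : ∀ c ∈ commutator G, ∀ g, (∀ h, Commute (cm c g) h) → cm c g = 1 ∨ cm c g = z)
    {x y : G} (hgen : Subgroup.closure ({x, y} : Set G) = ⊤) (hx : x ∉ frattini G)
    (h1 : cm (cm (cm x y) x) x = 1) (h2 : cm (cm (cm x y) x) y = 1)
    (h3 : cm (cm (cm x y) y) y = z) : False := by
  have ab : ∀ c ∈ commutator G, ∀ d ∈ commutator G, Commute c d :=
    fun c hc d hd => U_ab z zc hN hgen hc hd
  have hu := cm_mem x y
  have hac : ∀ h, Commute (cm (cm x y) x) h := by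
    have h4 : (⊤ : Subgroup G) ≤ Subgroup.centralizer {cm (cm x y) x} := by
      rw [← hgen, Subgroup.closure_le]
      rintro g (rfl | rfl)
      · rw [SetLike.mem_coe, Subgroup.mem_centralizer_iff]
        rintro _ rfl
        exact ((cm_eq_one_iff _ _).mp h1).eq
      · rw [SetLike.mem_coe, Subgroup.mem_centralizer_iff]
        rintro _ rfl
        exact ((cm_eq_one_iff _ _).mp h2).eq
    intro h
    exact Subgroup.mem_centralizer_iff.mp (h4 (Subgroup.mem_top h)) _ rfl
  rcases hZ _ hu x hac with ha | ha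
  · exact U1core hG hE z zc z1 z2 hN hs hgen hx ha h3
  · -- replace `x` by `x y²`
    have huy : cm (cm x y) (y * y) = z := by rw [U_cm_vv z zc hs ab hu, h3]
    have e1 : cm (x * (y * y)) y = cm x y * z := by
      have e2 : cm (y * y) y = 1 := by unfold cm; group
      rw [cm_mul_left, e2, mul_one, conj_eq, huy]
    have hzm : z ∈ commutator G := by rw [← h3]; exact cm_mem _ _
    have hz1 : ∀ g, cm z g = 1 := fun g => (cm_eq_one_iff _ _).mpr (zc g)
    refine U1core hG hE z zc z1 z2 hN hs (x := x * (y * y)) (y := y) ?_ ?_ ?_ ?_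
    · rw [eq_top_iff, ← hgen, Subgroup.closure_le]
      have hy : y ∈ Subgroup.closure ({x * (y * y), y} : Set G) :=
        Subgroup.subset_closure (Or.inr rfl)
      have hxy : x * (y * y) ∈ Subgroup.closure ({x * (y * y), y} : Set G) :=
        Subgroup.subset_closure (Or.inl rfl)
      rintro g (rfl | rfl)
      · have h7 := mul_mem hxy (inv_mem (mul_mem hy hy))
        rwa [mul_inv_cancel_right] at h7
      · exact hy
    · intro h
      apply hx
      have h5 : y * y ∈ frattini G := by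
        have : Fact (Nat.Prime 2) := ⟨Nat.prime_two⟩
        have := (frattini_facts hG).2 y
        rwa [pow_two] at this
      have e3 : x = x * (y * y) * (y * y)⁻¹ := by group
      rw [e3]
      exact mul_mem h (inv_mem h5)
    · rw [e1, U_left ab hu hzm, hz1, mul_one, cm_mul_right', huy, ha, hz1, mul_one, z2]
    · rw [e1, U_left ab hu hzm, hz1, mul_one, h3]

include hG hE z1 zc hN hs in
theorem U2 {x y : G} (hgen : Subgroup.closure ({x, y} : Set G) = ⊤) (hx : x ∉ frattini G)
    (hy : y ∉ Subgroup.zpowers x ⊔ frattini G)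
    (h1 : cm (cm (cm x y) x) x = 1) (h2 : cm (cm (cm x y) x) y = z)
    (h3 : cm (cm (cm x y) y) y = 1) : False := by
  have hp2 : Fact (Nat.Prime 2) := ⟨Nat.prime_two⟩
  have ab : ∀ c ∈ commutator G, ∀ d ∈ commutator G, Commute c d :=
    fun c hc d hd => U_ab z zc hN hgen hc hd
  have hu := cm_mem x y
  have hz1 : ∀ g, cm z g = 1 := fun g => (cm_eq_one_iff _ _).mpr (zc g)
  obtain ⟨α, hα, hαx, hαy⟩ := E.two hG hE hx hy (cm_mem (cm x y) x) (one_mem (commutator G))
  obtain ⟨g, hg⟩ := autC_cm hα (cm x y)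
  rw [map_cm', hαx, hαy, mul_one, cm_mul_left, mul_assoc _⁻¹, (ab _ hu _ (cm_mem _ x)).eq,
    inv_mul_cancel_left, h2] at hg
  have hg' : z = cm (cm x y) g := mul_left_cancel hg
  obtain ⟨r, m, hr, hm, rfl⟩ := four_cosets hgen (Subgroup.centralizer {cm x y}) (by
    intro c hc
    rw [Subgroup.mem_centralizer_iff]
    rintro _ rfl
    exact (ab _ hu _ hc).eq) (by
    rw [Subgroup.mem_centralizer_iff]
    intro c hc
    have hc' : c = cm x y := hc
    have h4 : cm (cm x y) (x * x) = 1 := by rw [U_cm_vv z zc hs ab hu, h1]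
    rw [hc']
    exact ((cm_eq_one_iff _ _).mp h4).eq) (by
    rw [Subgroup.mem_centralizer_iff]
    intro c hc
    have hc' : c = cm x y := hc
    have h4 : cm (cm x y) (y * y) = 1 := by rw [U_cm_vv z zc hs ab hu, h3]
    rw [hc']
    exact ((cm_eq_one_iff _ _).mp h4).eq) g
  have hm' : Commute (cm x y) m := Subgroup.mem_centralizer_iff.mp hm _ rfl
  rw [cm_mul_right, (cm_eq_one_iff _ _).mpr hm', one_mul] at hg'
  have hr' : cm (cm x y) r = z := by
    have e1 : cm (cm x y) r = m * z * m⁻¹ := by rw [hg']; group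
    rw [e1, ← (zc m).eq, mul_inv_cancel_right]
  rcases hr with rfl | rfl | rfl | rfl
  · rw [cm_one_right] at hr'; exact z1 hr'.symm
  · rw [hr', hz1] at h2; exact z1 h2.symm
  · have h5 : cm (cm (cm x r) r) x = z := by rw [U_symm ab hu, h2]
    rw [hr', hz1] at h5; exact z1 h5.symm
  · have h5 : cm (cm (cm x y) (x * y)) x = z := by
      rw [U_B1 z zc hN ab hu, h1, one_mul, U_symm ab hu, h2]
    rw [hr', hz1] at h5; exact z1 h5.symm

include hG hE z1 z2 zc hN hs in
theorem U3 {x y : G} (hgen : Subgroup.closure ({x, y} : Set G) = ⊤) (hx : x ∉ frattini G)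
    (hy : y ∉ Subgroup.zpowers x ⊔ frattini G)
    (h1 : cm (cm (cm x y) x) x = z) (h2 : cm (cm (cm x y) x) y = 1)
    (h3 : cm (cm (cm x y) y) y = z) : False := by
  have hp2 : Fact (Nat.Prime 2) := ⟨Nat.prime_two⟩
  have ab : ∀ c ∈ commutator G, ∀ d ∈ commutator G, Commute c d :=
    fun c hc d hd => U_ab z zc hN hgen hc hd
  have hu := cm_mem x y
  have hz1 : ∀ g, cm z g = 1 := fun g => (cm_eq_one_iff _ _).mpr (zc g)
  have h2' : cm (cm (cm x y) y) x = 1 := by rw [U_symm ab hu, h2]
  -- names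
  have ha2 : cm (cm x y) x * cm (cm x y) x = 1 := U_cm_sq z zc hs ab hu x
  have hb2 : cm (cm x y) y * cm (cm x y) y = 1 := U_cm_sq z zc hs ab hu y
  have huuc : ∀ g, Commute (cm x y * cm x y) g := by
    intro g
    rcases hs _ hu with h | h
    · rw [h]; exact Commute.one_left g
    · rw [h]; exact zc g
  have huu : (cm x y * cm x y) * (cm x y * cm x y) = 1 := by
    rcases hs _ hu with h | h
    · rw [h, mul_one]
    · rw [h, z2]
  have hxyy : cm x (y * y) = (cm x y * cm x y) * cm (cm x y) y := by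
    rw [cm_mul_right, conj_eq, mul_assoc]
  have hxxy : cm (x * x) y = (cm x y * cm x y) * cm (cm x y) x := by
    rw [cm_mul_left, conj_eq, mul_assoc, (ab _ (cm_mem _ x) _ hu).eq, mul_assoc]
  -- `x²` and `y²` commute
  have hsq : Commute (x * x) (y * y) := by
    rw [← cm_eq_one_iff, cm_mul_left, conj_eq, hxyy,
      U_left ab (mul_mem hu hu) (cm_mem _ y), U_sq z zc hs hu, one_mul, h2', mul_one]
    calc (cm x y * cm x y) * cm (cm x y) y * ((cm x y * cm x y) * cm (cm x y) y)
        = (cm x y * cm x y) * (cm (cm x y) y * (cm x y * cm x y)) * cm (cm x y) y := by group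
      _ = (cm x y * cm x y) * ((cm x y * cm x y) * cm (cm x y) y) * cm (cm x y) y := by
          rw [(ab _ (cm_mem _ y) _ (mul_mem hu hu)).eq]
      _ = ((cm x y * cm x y) * (cm x y * cm x y)) * (cm (cm x y) y * cm (cm x y) y) := by group
      _ = 1 := by rw [huu, hb2, mul_one]
  -- `w₀ = x² y²` centralises `γ₂`
  have hw : ∀ c ∈ commutator G, Commute c ((x * x) * (y * y)) := by
    have hdw : ∀ c ∈ commutator G, ∀ g, Commute (cm c g) ((x * x) * (y * y)) := by
      intro c hc g
      exact ((cm_eq_one_iff _ _).mp (U_d_vv z zc z2 hN hc g x)).mul_right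
        ((cm_eq_one_iff _ _).mp (U_d_vv z zc z2 hN hc g y))
    have hn : (Lx ((x * x) * (y * y))).Normal := by
      refine ⟨fun c hc g => ?_⟩
      rw [mem_Lx] at hc ⊢
      refine ⟨(inferInstance : (commutator G).Normal).conj_mem c hc.1 g, ?_⟩
      have h1 : g * c * g⁻¹ = c * cm c g⁻¹ := by unfold cm; group
      rw [h1]
      exact hc.2.mul_left (hdw c hc.1 _)
    intro c hc
    refine (mem_Lx.mp (comm_le_of_gen hgen _ (mem_Lx.mpr ⟨hu, ?_⟩) hc)).2
    rw [← cm_eq_one_iff, cm_mul_right', U_cm_vv z zc hs ab hu x, U_cm_vv z zc hs ab hu y, h1, h3,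
      hz1, mul_one, z2]
  -- the automorphism
  obtain ⟨α, hα, hαx, hαy⟩ := E.two hG hE hx hy (cm_mem (cm x y) x) (one_mem (commutator G))
  obtain ⟨g, hg⟩ := autC_cm hα ((x * x) * (y * y))
  have e1 : α ((x * x) * (y * y)) = ((x * x) * (y * y)) * z := by
    rw [map_mul, map_mul, map_mul, hαx, hαy, mul_one]
    have e2 : x * cm (cm x y) x * (x * cm (cm x y) x)
        = (x * x) * (x⁻¹ * cm (cm x y) x * x) * cm (cm x y) x := by group
    rw [e2, conj_eq, h1]
    calc x * x * (cm (cm x y) x * z) * cm (cm x y) x * (y * y)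
        = x * x * (cm (cm x y) x * (z * cm (cm x y) x)) * (y * y) := by group
      _ = x * x * ((cm (cm x y) x * cm (cm x y) x) * z) * (y * y) := by rw [(zc _).eq]; group
      _ = x * x * (z * (y * y)) := by rw [ha2]; group
      _ = x * x * ((y * y) * z) := by rw [(zc (y * y)).eq]
      _ = _ := by group
  rw [e1] at hg
  have hg' : z = cm ((x * x) * (y * y)) g := mul_left_cancel hg
  have hcx : Commute ((x * x) * (y * y)) (x * x) := (Commute.refl (x * x)).mul_left hsq.symm
  have hcy : Commute ((x * x) * (y * y)) (y * y) := hsq.mul_left (Commute.refl (y * y))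
  obtain ⟨r, m, hr, hm, rfl⟩ := four_cosets hgen
    (Subgroup.centralizer {(x * x) * (y * y)}) (by
    intro c hc
    rw [Subgroup.mem_centralizer_iff]
    rintro _ rfl
    exact (hw c hc).symm.eq) (by
    rw [Subgroup.mem_centralizer_iff]
    intro c hc
    have hc' : c = (x * x) * (y * y) := hc
    rw [hc']
    exact hcx.eq) (by
    rw [Subgroup.mem_centralizer_iff]
    intro c hc
    have hc' : c = (x * x) * (y * y) := hc
    rw [hc']
    exact hcy.eq) g
  have hm' : Commute ((x * x) * (y * y)) m := Subgroup.mem_centralizer_iff.mp hm _ rfl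
  rw [cm_mul_right, (cm_eq_one_iff _ _).mpr hm', one_mul] at hg'
  have hr' : cm ((x * x) * (y * y)) r = z := by
    have e1 : cm ((x * x) * (y * y)) r = m * z * m⁻¹ := by rw [hg']; group
    rw [e1, ← (zc m).eq, mul_inv_cancel_right]
  have hwx : cm ((x * x) * (y * y)) x = ((cm x y * cm x y) * cm (cm x y) y)⁻¹ := by
    have e2 : cm (x * x) x = 1 := by unfold cm; group
    have e3 : cm (y * y) x = (cm x (y * y))⁻¹ := by
      have : ∀ a b : G, cm a b = (cm b a)⁻¹ := fun a b => by unfold cm; group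
      exact this _ _
    rw [cm_mul_left, e2, mul_one, inv_mul_cancel, one_mul, e3, hxyy]
  have hwy : cm ((x * x) * (y * y)) y = (cm x y * cm x y) * cm (cm x y) x := by
    have e2 : cm (y * y) y = 1 := by unfold cm; group
    rw [cm_mul_left, e2, mul_one, conj_eq, hxxy, U_left ab (mul_mem hu hu) (cm_mem _ x),
      U_sq z zc hs hu, one_mul, U_d_vv z zc z2 hN hu, mul_one]
  have hBx : cm (cm ((x * x) * (y * y)) y) x = z := by
    rw [hwy, U_left ab (mul_mem hu hu) (cm_mem _ x), U_sq z zc hs hu, one_mul, h1]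
  have hinv : ∀ c ∈ commutator G, ∀ g, cm c⁻¹ g = (cm c g)⁻¹ := by
    intro c hc g
    have := U_left ab (inv_mem hc) hc g
    rw [inv_mul_cancel, cm_one_left] at this
    exact eq_inv_of_mul_eq_one_left this.symm
  rcases hr with rfl | rfl | rfl | rfl
  · rw [cm_one_right] at hr'; exact z1 hr'.symm
  · -- `r = x`
    rw [hwx] at hr'
    have h5 : cm ((cm r y * cm r y) * cm (cm r y) y)⁻¹ y = z := by
      rw [hinv _ (mul_mem (mul_mem hu hu) (cm_mem _ _)), U_left ab (mul_mem hu hu) (cm_mem _ y),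
        U_sq z zc hs hu, one_mul, h3]
      exact inv_eq_of_mul_eq_one_left z2
    rw [hr', hz1] at h5
    exact z1 h5.symm
  · rw [hr', hz1] at hBx
    exact z1 hBx.symm
  · have h5 : cm (cm ((x * x) * (y * y)) (x * y)) x = z := by
      rw [cm_mul_right', U_left ab (cm_mem _ y) (mul_mem (cm_mem _ _) (cm_mem _ _)),
        U_left ab (cm_mem _ x) (cm_mem _ _), hBx, hwx,
        hinv _ (mul_mem (mul_mem hu hu) (cm_mem _ _)), U_left ab (mul_mem hu hu) (cm_mem _ y),
        U_sq z zc hs hu, one_mul, h2', inv_one, one_mul,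
        hinv _ (mul_mem (mul_mem hu hu) (cm_mem _ _)), U_left ab (mul_mem hu hu) (cm_mem _ y),
        U_sq z zc hs hu, one_mul, h3, hinv _ (by rw [← h3]; exact cm_mem _ _), hz1, inv_one,
        mul_one]
    rw [hr', hz1] at h5
    exact z1 h5.symm

include hG hE z1 z2 zc hN hs in
theorem lemmaU (hr : Group.rank G = 2)
    (hZ : ∀ c ∈ commutator G, ∀ g, (∀ h, Commute (cm c g) h) → cm c g = 1 ∨ cm c g = z)
    (h4 : ¬ ∀ c ∈ commutator G, ∀ g h : G, Commute (cm c g) h) : False := by
  have hp2 : Fact (Nat.Prime 2) := ⟨Nat.prime_two⟩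
  have hnc : ∃ a b : G, ¬ Commute a b := by
    by_contra h
    push Not at h
    exact h4 fun c _ g k => h _ _
  obtain ⟨x, y, hx, hy⟩ := exists_indep hG hnc
  have hgen := gen_of_indep hG hr hx hy
  have ab : ∀ c ∈ commutator G, ∀ d ∈ commutator G, Commute c d :=
    fun c hc d hd => U_ab z zc hN hgen hc hd
  have hu := cm_mem x y
  have hz1 : ∀ g, cm z g = 1 := fun g => (cm_eq_one_iff _ _).mpr (zc g)
  have hsym : cm (cm (cm x y) y) x = cm (cm (cm x y) x) y := U_symm ab hu y x
  -- independence of the choice of `u`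
  have hBu : ∀ g v w, cm (cm (cm x y * cm (cm x y) g) v) w = cm (cm (cm x y) v) w := by
    intro g v w
    rw [U_B_mul ab hu (cm_mem _ _), U_B_d z zc hN hu, mul_one]
  have hgen1 : Subgroup.closure ({y, x} : Set G) = ⊤ := by rw [Set.pair_comm]; exact hgen
  have hgen2 : Subgroup.closure ({x * y, y} : Set G) = ⊤ := by
    rw [eq_top_iff, ← hgen, Subgroup.closure_le]
    have hy : y ∈ Subgroup.closure ({x * y, y} : Set G) := Subgroup.subset_closure (Or.inr rfl)
    have hxy : x * y ∈ Subgroup.closure ({x * y, y} : Set G) :=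
      Subgroup.subset_closure (Or.inl rfl)
    rintro g (rfl | rfl)
    · have h7 := mul_mem hxy (inv_mem hy)
      rwa [mul_inv_cancel_right] at h7
    · exact hy
  have hgen3 : Subgroup.closure ({x, x * y} : Set G) = ⊤ := by
    rw [eq_top_iff, ← hgen, Subgroup.closure_le]
    have hx : x ∈ Subgroup.closure ({x, x * y} : Set G) := Subgroup.subset_closure (Or.inl rfl)
    have hxy : x * y ∈ Subgroup.closure ({x, x * y} : Set G) :=
      Subgroup.subset_closure (Or.inr rfl)
    rintro g (rfl | rfl)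
    · exact hx
    · have h7 := mul_mem (inv_mem hx) hxy
      rwa [inv_mul_cancel_left] at h7
  have eu1 : cm y x = (cm x y)⁻¹ := by unfold cm; group
  have eu2 : cm (x * y) y = cm x y * cm (cm x y) y := by
    rw [cm_mul_left, cm_self, mul_one, conj_eq]
  have eu3 : cm x (x * y) = cm x y := by
    rw [cm_mul_right, cm_self, mul_one, inv_mul_cancel, mul_one]
  have hinv : ∀ v w, cm (cm (cm x y)⁻¹ v) w = cm (cm (cm x y) v) w := by
    intro v w
    have h5 := U_B_mul ab (inv_mem hu) hu v w
    rw [inv_mul_cancel, cm_one_left, cm_one_left] at h5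
    rw [eq_inv_of_mul_eq_one_left h5.symm]
    rcases hN _ hu v w with h | h
    · rw [h, inv_one]
    · rw [h]; exact inv_eq_of_mul_eq_one_left z2
  have hB1 : ∀ v w k, cm (cm (cm x y) (v * w)) k = cm (cm (cm x y) v) k * cm (cm (cm x y) w) k :=
    U_B1 z zc hN ab hu
  have hB2 : ∀ k v w, cm (cm (cm x y) k) (v * w) = cm (cm (cm x y) k) v * cm (cm (cm x y) k) w :=
    U_B2 z zc hN hu
  obtain ⟨i1a, i1b⟩ := indep_of_gen hr hgen1
  obtain ⟨i2a, i2b⟩ := indep_of_gen hr hgen2
  obtain ⟨i3a, i3b⟩ := indep_of_gen hr hgen3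
  rcases hN _ hu x x with hxx | hxx <;> rcases hN _ hu x y with hxy | hxy <;>
    rcases hN _ hu y y with hyy | hyy
  · -- `B = 0`
    apply h4
    have hyx : cm (cm (cm x y) y) x = 1 := by rw [hsym, hxy]
    have hcen : ∀ a : G, cm a x = 1 → cm a y = 1 → ∀ h, Commute a h := by
      intro a ha hb
      have h4 : (⊤ : Subgroup G) ≤ Subgroup.centralizer {a} := by
        rw [← hgen, Subgroup.closure_le]
        rintro g (rfl | rfl)
        · rw [SetLike.mem_coe, Subgroup.mem_centralizer_iff]
          rintro _ rfl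
          exact ((cm_eq_one_iff _ _).mp ha).eq
        · rw [SetLike.mem_coe, Subgroup.mem_centralizer_iff]
          rintro _ rfl
          exact ((cm_eq_one_iff _ _).mp hb).eq
      intro h
      exact Subgroup.mem_centralizer_iff.mp (h4 (Subgroup.mem_top h)) _ rfl
    -- `[u, g]` is central for all `g`
    have hug : ∀ g h, Commute (cm (cm x y) g) h := by
      intro g
      let K : Subgroup G :=
        { carrier := {g | ∀ h, Commute (cm (cm x y) g) h}
          mul_mem' := by
            intro a b ha hb h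
            rw [cm_mul_right', (cm_eq_one_iff _ _).mpr (ha b), mul_one]
            exact (hb h).mul_left (ha h)
          one_mem' := by
            intro h
            rw [cm_one_right]; exact Commute.one_left h
          inv_mem' := by
            intro a ha h
            have e1 : cm (cm x y) a⁻¹ = (cm (cm x y) a)⁻¹ := by
              have h5 := cm_mul_right' (cm x y) a a⁻¹
              rw [mul_inv_cancel, cm_one_right, (cm_eq_one_iff _ _).mpr (ha a⁻¹), mul_one] at h5
              exact eq_inv_of_mul_eq_one_left h5.symm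
            rw [e1]
            exact (ha h).inv_left }
      have hK : K = ⊤ := by
        rw [eq_top_iff, ← hgen, Subgroup.closure_le]
        rintro g (rfl | rfl)
        · exact hcen _ hxx hxy
        · exact hcen _ hyx hyy
      have : g ∈ K := by rw [hK]; trivial
      exact this
    let K : Subgroup G :=
      { carrier := {c | c ∈ commutator G ∧ ∀ g h, Commute (cm c g) h}
        mul_mem' := by
          rintro a b ⟨ha, ha'⟩ ⟨hb, hb'⟩
          refine ⟨mul_mem ha hb, fun g h => ?_⟩
          rw [U_left ab ha hb]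
          exact (ha' g h).mul_left (hb' g h)
        one_mem' := ⟨one_mem _, fun g h => by rw [cm_one_left]; exact Commute.one_left h⟩
        inv_mem' := by
          rintro a ⟨ha, ha'⟩
          refine ⟨inv_mem ha, fun g h => ?_⟩
          have h5 := U_left ab (inv_mem ha) ha g
          rw [inv_mul_cancel, cm_one_left] at h5
          rw [eq_inv_of_mul_eq_one_left h5.symm]
          exact (ha' g h).inv_left }
    have hKn : K.Normal := by
      refine ⟨fun c hc g => ?_⟩
      obtain ⟨hc1, hc2⟩ := hc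
      refine ⟨(inferInstance : (commutator G).Normal).conj_mem c hc1 g, fun k h => ?_⟩
      have h1 : g * c * g⁻¹ = c * cm c g⁻¹ := by unfold cm; group
      rw [h1, U_left ab hc1 (cm_mem _ _), (cm_eq_one_iff _ k).mpr (hc2 _ _), mul_one]
      exact hc2 k h
    intro c hc g h
    exact (comm_le_of_gen hgen K ⟨hu, hug⟩ hc).2 g h
  · exact U1 hG hE z zc z1 z2 hN hs hZ hgen hx hxx hxy hyy
  · exact U2 hG hE z zc z1 hN hs hgen hx hy hxx hxy hyy
  · -- (1, z, z): the pair `(xy, y)`
    refine U3 hG hE z zc z1 z2 hN hs hgen2 i2a i2b ?_ ?_ ?_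
    · rw [eu2, hBu, hB1, hB2, hB2, hsym, hxx, hxy, hyy, one_mul, z2, mul_one]
    · rw [eu2, hBu, hB1, hxy, hyy, z2]
    · rw [eu2, hBu, hyy]
  · -- (z, 1, 1): the pair `(y, x)`
    refine U1 hG hE z zc z1 z2 hN hs hZ hgen1 i1a ?_ ?_ ?_
    · rw [eu1, hinv, hyy]
    · rw [eu1, hinv, hsym, hxy]
    · rw [eu1, hinv, hxx]
  · exact U3 hG hE z zc z1 z2 hN hs hgen hx hy hxx hxy hyy
  · -- (z, z, 1): the pair `(x, xy)`
    refine U3 hG hE z zc z1 z2 hN hs hgen3 i3a i3b ?_ ?_ ?_
    · rw [eu3, hxx]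
    · rw [eu3, hB2, hxx, hxy, z2]
    · rw [eu3, hB1, hB2, hB2, hsym, hxx, hxy, hyy, z2, one_mul, mul_one]
  · -- (z, z, z): the pair `(xy, y)`
    refine U1 hG hE z zc z1 z2 hN hs hZ hgen2 i2a ?_ ?_ ?_
    · rw [eu2, hBu, hB1, hB2, hB2, hsym, hxx, hxy, hyy, z2, one_mul]
    · rw [eu2, hBu, hB1, hxy, hyy, z2]
    · rw [eu2, hBu, hyy]

end Pool.Agent.Q21.AC
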