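import Mathlib
import Pool.Agent.Q21.AC.FourU

/-!
Finite p-groups of class at least three with the property `E`.
-/

set_option autoImplicit false

open scoped commutatorElement

namespace Pool.Agent.Q21.AC

open Pool.Agent.Helper832.AutC

section Small

variable {G : Type} [Group G]

theorem mem_zpowers_two {z t : G} (hz : z * z = 1) (ht : t ∈ Subgroup.zpowers z) :
    t = 1 ∨ t = z := by
  obtain ⟨k, rfl⟩ := ht
  show z ^ k = 1 ∨ z ^ k = z
  rcases Int.even_or_odd k with ⟨j, hj⟩ | ⟨j, hj⟩
  · left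
    rw [hj, zpow_add, ← (Commute.refl z).mul_zpow, hz, one_zpow]
  · right
    rw [hj, zpow_add, two_mul, zpow_add, ← (Commute.refl z).mul_zpow, hz, one_zpow, zpow_one,
      one_mul]

theorem central_normal {z : G} (hz : ∀ g, Commute z g) : (Subgroup.zpowers z).Normal := by
  refine ⟨?_⟩
  rintro _ ⟨j, rfl⟩ g
  have h1 : g * z ^ j * g⁻¹ = z ^ j := by
    rw [← ((hz g).zpow_left j).eq, mul_inv_cancel_right]
  show g * z ^ j * g⁻¹ ∈ _
  rw [h1]
  exact ⟨j, rfl⟩

theorem mem_zpowers_central {z t : G} (hz : ∀ g, Commute z g) (ht : t ∈ Subgroup.zpowers z)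
    (g : G) : Commute t g := by
  obtain ⟨j, rfl⟩ := ht
  exact (hz g).zpow_left j

/-- a nontrivial element of a finite p-group has a power of order `p` -/
theorem exists_pow_order {p : ℕ} [hp : Fact p.Prime] [Finite G] (hG : IsPGroup p G) {w : G}
    (hw : w ≠ 1) : ∃ m : ℕ, w ^ m ≠ 1 ∧ (w ^ m) ^ p = 1 := by
  obtain ⟨k, hk⟩ := hG w
  classical
  have hex : ∃ k, w ^ p ^ k = 1 := ⟨k, hk⟩
  have h1 := Nat.find_spec hex
  have h0 : Nat.find hex ≠ 0 := by
    intro h
    rw [h, pow_zero, pow_one] at h1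
    exact hw h1
  obtain ⟨j, hj⟩ := Nat.exists_eq_succ_of_ne_zero h0
  refine ⟨p ^ j, ?_, ?_⟩
  · exact Nat.find_min hex (by omega)
  · rw [← pow_mul, ← pow_succ]
    rw [hj] at h1
    exact h1

theorem exists_cen {p : ℕ} [hp : Fact p.Prime] [Finite G] (hG : IsPGroup p G) :
    ∀ (n : ℕ) (K : Subgroup G), K.Normal → Nat.card K = n → K ≠ ⊥ →
      ∃ z ∈ K, z ≠ 1 ∧ z ^ p = 1 ∧ ∀ g, Commute z g := by
  intro n
  induction n using Nat.strong_induction_on with
  | _ n ih =>
    intro K hK hn hK1
    have hnil : Group.IsNilpotent G := hG.isNilpotent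
    by_cases hb : ⁅K, (⊤ : Subgroup G)⁆ = ⊥
    · obtain ⟨⟨w, hwK⟩, hw0⟩ := Subgroup.ne_bot_iff_exists_ne_one.mp hK1
      have hw : w ≠ 1 := fun h => hw0 (Subtype.ext h)
      obtain ⟨m, hm1, hm2⟩ := exists_pow_order hG hw
      refine ⟨w ^ m, pow_mem hwK m, hm1, hm2, fun g => ?_⟩
      rw [← cm_eq_one_iff]
      have h1 := cm_mem_top (pow_mem hwK m) g
      rw [hb] at h1
      exact Subgroup.mem_bot.mp h1
    · have hle : ⁅K, (⊤ : Subgroup G)⁆ ≤ K := Subgroup.commutator_le_left K ⊤
      have hlt : Nat.card (⁅K, (⊤ : Subgroup G)⁆ : Subgroup G) < n := by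
        rw [← hn]
        refine lt_of_le_of_ne (Nat.card_le_card_of_injective _
          (Subgroup.inclusion_injective hle)) ?_
        intro h
        have h1 := Subgroup.eq_of_le_of_card_ge hle h.ge
        exact hK1 (eq_bot_of_le_comm K h1.ge)
      obtain ⟨z, hz, h⟩ := ih _ hlt ⁅K, (⊤ : Subgroup G)⁆ inferInstance rfl hb
      exact ⟨z, hle hz, h⟩

/-- a cyclic `γ₂` of a two-generator p-group is generated by the commutator of the generators -/
theorem TB_gen {p : ℕ} [hp : Fact p.Prime] [Finite G] (hG : IsPGroup p G) {x y : G}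
    (hgen : Subgroup.closure ({x, y} : Set G) = ⊤)
    (h : ∃ v ∈ commutator G, ∀ c ∈ commutator G, c ∈ Subgroup.zpowers v) :
    ∀ c ∈ commutator G, c ∈ Subgroup.zpowers (cm x y) := by
  obtain ⟨v, hv, hall⟩ := h
  obtain ⟨a, ha⟩ := hall _ (cm_mem x y)
  have ha' : v ^ a = cm x y := ha
  have key : v ∈ Subgroup.zpowers (cm x y) := by
    by_cases hpa : (p : ℤ) ∣ a
    · obtain ⟨b, rfl⟩ := hpa
      have hMn : (Subgroup.zpowers (v ^ p)).Normal := by
        refine ⟨?_⟩
        rintro _ ⟨j, rfl⟩ g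
        obtain ⟨i, hi⟩ := hall _ ((inferInstance : (commutator G).Normal).conj_mem v hv g)
        have hi' : v ^ i = g * v * g⁻¹ := hi
        refine ⟨i * j, ?_⟩
        show (v ^ p) ^ (i * j) = g * (v ^ p) ^ j * g⁻¹
        rw [← conj_zpow, ← conj_pow, ← hi', ← zpow_natCast, ← zpow_natCast, ← zpow_mul, ← zpow_mul,
          ← zpow_mul]
        congr 1; ring
      have h1 : commutator G ≤ Subgroup.zpowers (v ^ p) := by
        refine comm_le_of_gen hgen _ ?_
        rw [← ha', zpow_mul, zpow_natCast]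
        exact zpow_mem (Subgroup.mem_zpowers _) b
      obtain ⟨j, hj⟩ := h1 hv
      have hj' : (v ^ p) ^ j = v := hj
      have h2 : v ∈ (⊥ : Subgroup G) := by
        refine mem_of_zpow_mem hG ⊥ v (1 - (p : ℤ) * j) ?_ ?_
        · intro hd
          have h3 : (p : ℤ) ∣ 1 := by
            have h4 := dvd_add hd (dvd_mul_right (p : ℤ) j)
            rwa [sub_add_cancel] at h4
          have h8 : p ∣ 1 := by exact_mod_cast h3
          exact hp.out.one_lt.ne' (Nat.dvd_one.mp h8)
        · rw [Subgroup.mem_bot, zpow_sub, zpow_one, zpow_mul, zpow_natCast, hj', mul_inv_cancel]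
      rw [Subgroup.mem_bot.mp h2]
      exact one_mem _
    · refine mem_of_zpow_mem hG _ v a hpa ?_
      rw [ha']
      exact Subgroup.mem_zpowers _
  intro c hc
  obtain ⟨k, rfl⟩ := hall c hc
  exact zpow_mem key k

end Small

section Step

variable {p : ℕ} [hp : Fact p.Prime] {G : Type} [Group G]

/-- `γ₂/N` is generated by `u`, and `[γ₂, G] ≤ γ₂⁴ N` when `p = 2` -/
def PB (p : ℕ) (u : G) (N : Subgroup G) : Prop :=
  (∀ c ∈ commutator G, ∃ k : ℤ, (u ^ k)⁻¹ * c ∈ N) ∧
    (p = 2 → ∀ c ∈ commutator G, ∀ g : G, ∃ e ∈ commutator G, (e ^ 4)⁻¹ * cm c g ∈ N)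

def PC (p : ℕ) (N : Subgroup G) : Prop :=
  p = 2 ∧ (∀ c ∈ commutator G, ∀ g h : G, cm (cm c g) h ∈ N) ∧ ∀ c ∈ commutator G, c ^ 2 ∈ N

theorem PB_of_quot [Finite G] (hG : IsPGroup p G) {x y : G}
    (hgen : Subgroup.closure ({x, y} : Set G) = ⊤) (N : Subgroup G) [N.Normal]
    (h : TB p (G ⧸ N)) : PB p (cm x y) N := by
  let π := QuotientGroup.mk' N
  have hπs : Function.Surjective π := QuotientGroup.mk'_surjective N
  have hgen' : Subgroup.closure ({π x, π y} : Set (G ⧸ N)) = ⊤ := by
    have e1 : ({π x, π y} : Set (G ⧸ N)) = π '' {x, y} := by rw [Set.image_pair]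
    rw [e1, ← MonoidHom.map_closure, hgen, Subgroup.map_top_of_surjective _ hπs]
  have hmem : ∀ c ∈ commutator G, π c ∈ commutator (G ⧸ N) := by
    intro c hc
    rw [← comm_quot]
    exact ⟨c, hc, rfl⟩
  have hcm : ∀ a b, π (cm a b) = cm (π a) (π b) := fun a b => map_cm π a b
  constructor
  · intro c hc
    obtain ⟨k, hk⟩ := TB_gen (hG.to_quotient N) hgen' h.1 _ (hmem c hc)
    have hk' : (cm (π x) (π y)) ^ k = π c := hk
    refine ⟨k, ?_⟩
    rw [← hcm, ← map_zpow] at hk'
    exact QuotientGroup.eq.mp hk'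
  · intro hp2 c hc g
    obtain ⟨e, he, hce⟩ := h.2 hp2 _ (hmem c hc) (π g)
    obtain ⟨e', he', rfl⟩ := exists_comm_quot N he
    refine ⟨e', he', ?_⟩
    rw [← hcm] at hce
    exact QuotientGroup.eq.mp hce.symm

theorem PC_of_quot (N : Subgroup G) [N.Normal] (h : TC p (G ⧸ N)) : PC p N := by
  let π := QuotientGroup.mk' N
  have hmem : ∀ c ∈ commutator G, π c ∈ commutator (G ⧸ N) := by
    intro c hc
    rw [← comm_quot]
    exact ⟨c, hc, rfl⟩
  have hcm : ∀ a b, π (cm a b) = cm (π a) (π b) := fun a b => map_cm π a b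
  refine ⟨h.1, fun c hc g k => ?_, fun c hc => ?_⟩
  · have h1 := (cm_eq_one_iff _ _).mpr (h.2.1 _ (hmem c hc) (π g) (π k))
    rw [← hcm, ← hcm] at h1
    exact (QuotientGroup.eq_one_iff _).mp h1
  · have h1 := h.2.2 _ (hmem c hc)
    rw [← map_pow] at h1
    exact (QuotientGroup.eq_one_iff _).mp h1

variable [Finite G]

/-- the case `N ≤ ⟨u⟩` -/
theorem TB_of_PB (hG : IsPGroup p G) {u z : G} (hu : u ∈ commutator G)
    (h : PB p u (Subgroup.zpowers z)) (hz : z ∈ Subgroup.zpowers u) (hzp : z ^ p = 1)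
    (h3 : ∃ c ∈ commutator G, ∃ g, cm c g ∉ Subgroup.zpowers z) : TB p G := by
  have hall : ∀ c ∈ commutator G, c ∈ Subgroup.zpowers u := by
    intro c hc
    obtain ⟨k, hk⟩ := h.1 c hc
    have h1 : Subgroup.zpowers z ≤ Subgroup.zpowers u := by rwa [Subgroup.zpowers_le]
    have h2 : c = u ^ k * ((u ^ k)⁻¹ * c) := by group
    rw [h2]
    exact mul_mem (zpow_mem (Subgroup.mem_zpowers u) k) (h1 hk)
  refine ⟨⟨u, hu, hall⟩, fun hp2 => ?_⟩
  subst hp2
  obtain ⟨m, hm⟩ := hz
  have hm' : u ^ m = z := hm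
  by_cases h4 : (4 : ℤ) ∣ m
  · obtain ⟨m', rfl⟩ := h4
    intro c hc g
    obtain ⟨e, he, j, hj⟩ := h.2 rfl c hc g
    have hj' : z ^ j = (e ^ 4)⁻¹ * cm c g := hj
    obtain ⟨i, hi⟩ := hall e he
    have hi' : u ^ i = e := hi
    refine ⟨u ^ (i + m' * j), zpow_mem hu _, ?_⟩
    have h5 : cm c g = e ^ 4 * z ^ j := by rw [hj']; group
    rw [h5, ← hi', ← hm', ← zpow_natCast, ← zpow_natCast, ← zpow_mul, ← zpow_mul, ← zpow_mul,
      ← zpow_add]
    congr 1; push_cast; ring
  · exfalso
    have h5 : u ^ 4 = 1 := by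
      obtain ⟨k, hk⟩ := (IsPGroup.iff_orderOf.mp hG) u
      have h6 : ((orderOf u : ℕ) : ℤ) ∣ 2 * m := by
        rw [orderOf_dvd_iff_zpow_eq_one, mul_comm, zpow_mul, hm']
        exact_mod_cast hzp
      rw [← orderOf_dvd_iff_pow_eq_one, hk]
      by_contra h7
      have hk3 : 3 ≤ k := by
        by_contra h8
        apply h7
        have : k ≤ 2 := by omega
        exact (pow_dvd_pow 2 this).trans (by norm_num)
      apply h4
      have h8 : (8 : ℤ) ∣ 2 * m := by
        refine dvd_trans ?_ h6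
        rw [hk]
        have : (2 ^ 3 : ℕ) ∣ 2 ^ k := pow_dvd_pow 2 hk3
        exact_mod_cast this
      omega
    obtain ⟨c, hc, g, hcg⟩ := h3
    apply hcg
    obtain ⟨e, he, hj⟩ := h.2 rfl c hc g
    obtain ⟨i, hi⟩ := hall e he
    have hi' : u ^ i = e := hi
    have h6 : e ^ 4 = 1 := by
      rw [← hi', ← zpow_natCast, ← zpow_mul, mul_comm, zpow_mul, zpow_natCast, h5, one_zpow]
    rwa [h6, inv_one, one_mul] at hj

omit hp [Finite G] in
/-- in the exponent-two situation the condition `[γ₂, G] ≤ γ₂⁴ N'` is too strong -/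
theorem no_four {u z : G} (N' : Subgroup G) (hz : z * z = 1)
    (h : PB 2 u N') (hs : ∀ c ∈ commutator G, c ^ 2 ∈ Subgroup.zpowers z) :
    ∀ c ∈ commutator G, ∀ g, cm c g ∈ N' := by
  intro c hc g
  obtain ⟨e, he, hj⟩ := h.2 rfl c hc g
  have h1 : e ^ 4 = 1 := by
    have h2 : e ^ 4 = e ^ 2 * e ^ 2 := by rw [← pow_add]
    rw [h2]
    rcases mem_zpowers_two hz (hs e he) with h | h
    · rw [h, mul_one]
    · rw [h, hz]
  rwa [h1, inv_one, one_mul] at hj

theorem step (hG : IsPGroup p G) (hE : E G)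
    (red : ∀ (N : Subgroup G), N.Normal → N ≤ commutator G → N ≠ ⊥ →
      (∃ c ∈ commutator G, ∃ g, cm c g ∉ N) → ∀ x y : G,
      Subgroup.closure ({x, y} : Set G) = ⊤ → Group.rank G = 2 ∧ (PB p (cm x y) N ∨ PC p N))
    (red' : ∀ (N : Subgroup G), N.Normal → N ≤ commutator G → N ≠ ⊥ →
      (∃ c ∈ commutator G, ∃ g, cm c g ∉ N) → Group.rank G = 2)
    (h3 : ∃ c ∈ commutator G, ∃ g, ¬ Commute c g) :
    Group.rank G = 2 ∧ (TB p G ∨ TC p G) := by
  have hnil : Group.IsNilpotent G := hG.isNilpotent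
  obtain ⟨c₀, hc₀, g₀, hg₀⟩ := h3
  -- `γ₃`
  let G3 : Subgroup G := ⁅commutator G, (⊤ : Subgroup G)⁆
  have hG3le : G3 ≤ commutator G := Subgroup.commutator_le_left _ _
  have hG3 : ∀ c ∈ commutator G, ∀ g, cm c g ∈ G3 := fun c hc g => cm_mem_top hc g
  have hG3b : G3 ≠ ⊥ := by
    intro h
    have h1 := hG3 c₀ hc₀ g₀
    rw [h] at h1
    exact hg₀ ((cm_eq_one_iff _ _).mp (Subgroup.mem_bot.mp h1))
  have hind := exists_indep hG ⟨c₀, g₀, hg₀⟩
  have hne : ∀ z : G, z ≠ 1 → Subgroup.zpowers z ≠ ⊥ := fun z hz h =>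
    hz (Subgroup.zpowers_eq_bot.mp h)
  by_cases h4 : ∀ c ∈ commutator G, ∀ g h : G, Commute (cm c g) h
  · -- `γ₄ = 1`
    have hG3c : ∀ d ∈ G3, ∀ h, Commute d h := by
      intro d hd h
      have h1 : G3 ≤ Subgroup.center G := by
        rw [comm_top_le]
        intro c hc g
        rw [Subgroup.mem_center_iff]
        intro k
        exact (h4 c hc g k).symm.eq
      exact (Subgroup.mem_center_iff.mp (h1 hd) h).symm
    obtain ⟨z, hz3, hz1, hzp, hzc⟩ := exists_cen hG _ G3 inferInstance rfl hG3b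
    by_cases hz : ∀ c ∈ commutator G, ∀ g, cm c g ∈ Subgroup.zpowers z
    · exact typeT hG hE h4 z hz hzp ⟨c₀, hc₀, g₀, hg₀⟩
    · push Not at hz
      have hNn := central_normal hzc
      have hNle : Subgroup.zpowers z ≤ commutator G := by
        rw [Subgroup.zpowers_le]; exact hG3le hz3
      have hr := red' _ hNn hNle (hne z hz1) hz
      obtain ⟨x, y, hx, hy⟩ := hind
      have hgen := gen_of_indep hG hr hx hy
      refine ⟨hr, ?_⟩
      rcases (red _ hNn hNle (hne z hz1) hz x y hgen).2 with hB | hC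
      · left
        by_cases hzu : z ∈ Subgroup.zpowers (cm x y)
        · exact TB_of_PB hG (cm_mem x y) hB hzu hzp hz
        · exfalso
          -- a second central subgroup inside `⟨u⟩`
          obtain ⟨c, hc, g, hcg⟩ := hz
          obtain ⟨k, j, hj⟩ := hB.1 _ (cm_mem c g)
          have hj' : z ^ j = ((cm x y) ^ k)⁻¹ * cm c g := hj
          have huk : (cm x y) ^ k = cm c g * (z ^ j)⁻¹ := by rw [hj']; group
          have huk3 : (cm x y) ^ k ∈ G3 := by
            rw [huk]; exact mul_mem (hG3 c hc g) (inv_mem (zpow_mem hz3 j))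
          have huk1 : (cm x y) ^ k ≠ 1 := by
            intro h
            rw [h, inv_one, one_mul] at hj'
            exact hcg ⟨j, hj'⟩
          obtain ⟨m, hm1, hm2⟩ := exists_pow_order hG huk1
          have hw3 : ((cm x y) ^ k) ^ m ∈ G3 := pow_mem huk3 m
          have hwc := hG3c _ hw3
          have hN'n := central_normal hwc
          have hN'le : Subgroup.zpowers (((cm x y) ^ k) ^ m) ≤ commutator G := by
            rw [Subgroup.zpowers_le]; exact hG3le hw3
          have hN'u : Subgroup.zpowers (((cm x y) ^ k) ^ m) ≤ Subgroup.zpowers (cm x y) := by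
            rw [Subgroup.zpowers_le]
            exact pow_mem (zpow_mem (Subgroup.mem_zpowers _) k) m
          have hex : ∃ c ∈ commutator G, ∃ g,
              cm c g ∉ Subgroup.zpowers (((cm x y) ^ k) ^ m) := by
            by_contra h
            push Not at h
            have h1 : G3 ≤ Subgroup.zpowers (((cm x y) ^ k) ^ m) := (comm_top_le _ _).mpr h
            exact hzu (hN'u (h1 hz3))
          rcases (red _ hN'n hN'le (hne _ hm1) hex x y hgen).2 with hB' | hC'
          · obtain ⟨i, hi⟩ := hB'.1 z (hG3le hz3)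
            apply hzu
            have h2 : z = (cm x y) ^ i * (((cm x y) ^ i)⁻¹ * z) := by group
            rw [h2]
            exact mul_mem (zpow_mem (Subgroup.mem_zpowers _) i) (hN'u hi)
          · obtain ⟨hp2, -, hs⟩ := hC'
            subst hp2
            have h5 := no_four (Subgroup.zpowers z) (by rw [← pow_two]; exact hm2) hB hs
            exact hcg (h5 c hc g)
      · obtain ⟨hp2, -, hs⟩ := hC
        subst hp2
        have hzz : z * z = 1 := by rw [← pow_two]; exact hzp
        right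
        refine ⟨rfl, h4, ?_⟩
        by_contra hex
        push Not at hex
        obtain ⟨c₁, hc₁, hc₁1⟩ := hex
        have hc₁z : c₁ ^ 2 = z := by
          rcases mem_zpowers_two hzz (hs c₁ hc₁) with h | h
          · exact absurd h hc₁1
          · exact h
        obtain ⟨c, hc, g, hcg⟩ := hz
        have hd2 : cm c g * cm c g = 1 := by
          rw [← pow_two, ← c3_left_pow h4 hc, cm_eq_one_iff]
          exact mem_zpowers_central hzc (hs c hc) g
        have hdc := h4 c hc g
        have hN'n := central_normal hdc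
        have hd1 : cm c g ≠ 1 := fun h => hcg (by rw [h]; exact one_mem _)
        have hdz : z ≠ cm c g := fun h => hcg (by rw [← h]; exact Subgroup.mem_zpowers z)
        have hzN' : z ∉ Subgroup.zpowers (cm c g) := by
          intro h
          rcases mem_zpowers_two hd2 h with h | h
          · exact hz1 h
          · exact hdz h
        have hN'le : Subgroup.zpowers (cm c g) ≤ commutator G := by
          rw [Subgroup.zpowers_le]; exact cm_mem c g
        have hex : ∃ c' ∈ commutator G, ∃ g', cm c' g' ∉ Subgroup.zpowers (cm c g) := by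
          by_contra h
          push Not at h
          have h1 : G3 ≤ Subgroup.zpowers (cm c g) := (comm_top_le _ _).mpr h
          exact hzN' (h1 hz3)
        rcases (red _ hN'n hN'le (hne _ hd1) hex x y hgen).2 with hB' | hC'
        · have h5 := no_four (Subgroup.zpowers (cm c g)) hzz hB' hs
          obtain ⟨c', hc', g', hcg'⟩ := hex
          exact hcg' (h5 c' hc' g')
        · have h5 := hC'.2.2 c₁ hc₁
          rw [hc₁z] at h5
          exact hzN' h5
  · -- `γ₄ ≠ 1`
    let G4 : Subgroup G := ⁅G3, (⊤ : Subgroup G)⁆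
    have hG4le : G4 ≤ G3 := Subgroup.commutator_le_left _ _
    have hG4b : G4 ≠ ⊥ := by
      intro h
      apply h4
      intro c hc g k
      have h1 : cm (cm c g) k ∈ G4 := cm_mem_top (hG3 c hc g) k
      rw [h] at h1
      exact (cm_eq_one_iff _ _).mp (Subgroup.mem_bot.mp h1)
    obtain ⟨z, hz4, hz1, hzp, hzc⟩ := exists_cen hG _ G4 inferInstance rfl hG4b
    have hz3 := hG4le hz4
    have hz : ∃ c ∈ commutator G, ∃ g, cm c g ∉ Subgroup.zpowers z := by
      by_contra h
      push Not at h
      exact h4 fun c hc g k => mem_zpowers_central hzc (h c hc g) k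
    have hNn := central_normal hzc
    have hNle : Subgroup.zpowers z ≤ commutator G := by
      rw [Subgroup.zpowers_le]; exact hG3le hz3
    have hr := red' _ hNn hNle (hne z hz1) hz
    obtain ⟨x, y, hx, hy⟩ := hind
    have hgen := gen_of_indep hG hr hx hy
    refine ⟨hr, ?_⟩
    rcases (red _ hNn hNle (hne z hz1) hz x y hgen).2 with hB | hC
    · left
      by_cases hzu : z ∈ Subgroup.zpowers (cm x y)
      · exact TB_of_PB hG (cm_mem x y) hB hzu hzp hz
      · exfalso
        apply hzu
        have hu := cm_mem x y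
        -- `γ₂` is abelian
        have hform : ∀ c ∈ commutator G, ∃ k j : ℤ, c = (cm x y) ^ k * z ^ j := by
          intro c hc
          obtain ⟨k, j, hj⟩ := hB.1 c hc
          have hj' : z ^ j = ((cm x y) ^ k)⁻¹ * c := hj
          exact ⟨k, j, by rw [hj']; group⟩
        have ab : ∀ c ∈ commutator G, ∀ d ∈ commutator G, Commute c d := by
          intro c hc d hd
          obtain ⟨k, j, rfl⟩ := hform c hc
          obtain ⟨k', j', rfl⟩ := hform d hd
          exact (((Commute.refl _).zpow_zpow k k').mul_right ((hzc _).zpow_left j').symm).mul_left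
            ((hzc _).zpow_left j)
        -- the exponent of `u` in an element of `γ₃` is divisible by `p`
        have huG3 : cm x y ∉ G3 := by
          intro h
          have h1 : commutator G ≤ G3 := comm_le_of_gen hgen G3 h
          have h2 := eq_bot_of_le_comm (commutator G) h1
          rw [h2] at hc₀
          exact hg₀ (by rw [Subgroup.mem_bot.mp hc₀]; exact Commute.one_left _)
        have hdiv : ∀ d ∈ G3, ∃ k j : ℤ, d = (cm x y) ^ ((p : ℤ) * k) * z ^ j := by
          intro d hd
          obtain ⟨k, j, hkj⟩ := hform d (hG3le hd)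
          have h5 : (cm x y) ^ k ∈ G3 := by
            have h6 : (cm x y) ^ k = d * (z ^ j)⁻¹ := by rw [hkj]; group
            rw [h6]
            exact mul_mem hd (inv_mem (zpow_mem hz3 j))
          have h7 : (p : ℤ) ∣ k := by
            by_contra h8
            exact huG3 (mem_of_zpow_mem hG G3 _ k h8 h5)
          obtain ⟨k', rfl⟩ := h7
          exact ⟨k', j, hkj⟩
        have hle : G4 ≤ Subgroup.zpowers (cm x y) := by
          rw [comm_top_le]
          intro d hd h
          obtain ⟨k, j, rfl⟩ := hdiv d hd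
          obtain ⟨a, b, hab⟩ := hform _ (cm_mem (cm x y) h)
          -- `c ↦ [c, h]` is a homomorphism on `γ₂`
          have hconj : ∀ c, h⁻¹ * c * h = c * cm c h := fun c => conj_eq c h
          have e1 : h⁻¹ * ((cm x y) ^ ((p : ℤ) * k) * z ^ j) * h
              = ((cm x y) ^ ((p : ℤ) * k) * z ^ j) * (cm (cm x y) h) ^ ((p : ℤ) * k) := by
            have e2 : h⁻¹ * (cm x y) ^ ((p : ℤ) * k) * h
                = (cm x y * cm (cm x y) h) ^ ((p : ℤ) * k) := by
              rw [← hconj]
              have := conj_zpow (i := (p : ℤ) * k) (a := h⁻¹) (b := cm x y)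
              rw [inv_inv] at this
              exact this.symm
            have e3 : h⁻¹ * z ^ j * h = z ^ j := by
              rw [mul_assoc, ((hzc h).zpow_left j).eq, inv_mul_cancel_left]
            calc h⁻¹ * ((cm x y) ^ ((p : ℤ) * k) * z ^ j) * h
                = (h⁻¹ * (cm x y) ^ ((p : ℤ) * k) * h) * (h⁻¹ * z ^ j * h) := by group
              _ = (cm x y * cm (cm x y) h) ^ ((p : ℤ) * k) * z ^ j := by rw [e2, e3]
              _ = (cm x y) ^ ((p : ℤ) * k) * (cm (cm x y) h) ^ ((p : ℤ) * k) * z ^ j := by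
                  rw [(ab _ hu _ (cm_mem _ _)).mul_zpow]
              _ = (cm x y) ^ ((p : ℤ) * k) * ((cm (cm x y) h) ^ ((p : ℤ) * k) * z ^ j) := by
                  rw [mul_assoc]
              _ = (cm x y) ^ ((p : ℤ) * k) * (z ^ j * (cm (cm x y) h) ^ ((p : ℤ) * k)) := by
                  rw [((hzc _).zpow_left j).eq]
              _ = _ := by rw [mul_assoc]
          have e4 : cm ((cm x y) ^ ((p : ℤ) * k) * z ^ j) h
              = (cm (cm x y) h) ^ ((p : ℤ) * k) := by
            rw [conj_eq] at e1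
            exact mul_left_cancel e1
          rw [e4, hab, ((hzc _).zpow_left b).symm.mul_zpow]
          have e5 : (z ^ b) ^ ((p : ℤ) * k) = 1 := by
            rw [← zpow_mul, show b * ((p : ℤ) * k) = (p : ℤ) * (b * k) by ring, zpow_mul,
              zpow_natCast, hzp, one_zpow]
          rw [e5, mul_one]
          exact zpow_mem (zpow_mem (Subgroup.mem_zpowers _) _) _
        exact hle hz4
    · exfalso
      obtain ⟨hp2, hN, hs⟩ := hC
      subst hp2
      have hzz : z * z = 1 := by rw [← pow_two]; exact hzp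
      have hN' : ∀ c ∈ commutator G, ∀ g h : G, cm (cm c g) h = 1 ∨ cm (cm c g) h = z :=
        fun c hc g h => mem_zpowers_two hzz (hN c hc g h)
      have hs' : ∀ c ∈ commutator G, c * c = 1 ∨ c * c = z := fun c hc => by
        have := mem_zpowers_two hzz (hs c hc)
        rwa [pow_two] at this
      have ab : ∀ c ∈ commutator G, ∀ d ∈ commutator G, Commute c d :=
        fun c hc d hd => U_ab z hzc hN' hgen hc hd
      refine lemmaU hG hE z hzc hz1 hzz hN' hs' hr ?_ h4
      intro c hc g hcen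
      by_contra hne'
      push Not at hne'
      have ha2 : cm c g * cm c g = 1 := U_cm_sq z hzc hs' ab hc g
      have hN'n := central_normal hcen
      have hN'le : Subgroup.zpowers (cm c g) ≤ commutator G := by
        rw [Subgroup.zpowers_le]; exact cm_mem c g
      have hex : ∃ c' ∈ commutator G, ∃ g', cm c' g' ∉ Subgroup.zpowers (cm c g) := by
        by_contra h
        push Not at h
        exact h4 fun c' hc' g' k => mem_zpowers_central hcen (h c' hc' g') k
      rcases (red _ hN'n hN'le (hne _ hne'.1) hex x y hgen).2 with hB' | hC'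
      · have h5 := no_four (Subgroup.zpowers (cm c g)) hzz hB' hs
        obtain ⟨c', hc', g', hcg'⟩ := hex
        exact hcg' (h5 c' hc' g')
      · apply h4
        intro c' hc' g' k
        rw [← cm_eq_one_iff]
        rcases hN' c' hc' g' k with h6 | h6
        · exact h6
        · rcases mem_zpowers_two ha2 (hC'.2.1 c' hc' g' k) with h7 | h7
          · exact h7
          · exact absurd (h7.symm.trans h6) hne'.2

end Step

/-- necessity in class at least three -/
theorem nec {p : ℕ} [hp : Fact p.Prime] : ∀ (n : ℕ) (G : Type) [Group G] [Finite G],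
    Nat.card G = n → IsPGroup p G → E G → (∃ c ∈ commutator G, ∃ g, ¬ Commute c g) →
    Group.rank G = 2 ∧ (TB p G ∨ TC p G) := by
  intro n
  induction n using Nat.strong_induction_on with
  | _ n ih =>
    intro G _ _ hn hG hE h3
    have main : ∀ (N : Subgroup G), N.Normal → N ≤ commutator G → N ≠ ⊥ →
        (∃ c ∈ commutator G, ∃ g, cm c g ∉ N) → Group.rank G = 2 ∧
          ∀ [N.Normal], (TB p (G ⧸ N) ∨ TC p (G ⧸ N)) := by
      intro N hNn hN hN1 hex
      have hlt : Nat.card (G ⧸ N) < n := by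
        have h1 := Subgroup.card_eq_card_quotient_mul_card_subgroup N
        have h2 : 1 < Nat.card N := (Subgroup.one_lt_card_iff_ne_bot N).mpr hN1
        have h4 : 0 < Nat.card (G ⧸ N) := Nat.card_pos
        rw [← hn, h1]
        exact lt_mul_of_one_lt_right h4 h2
      have h5 := ih _ hlt (G ⧸ N) rfl (hG.to_quotient N) (E_quot hG hE N hN) (by
        obtain ⟨c, hc, g, hcg⟩ := hex
        refine ⟨(c : G ⧸ N), ?_, (g : G ⧸ N), ?_⟩
        · rw [← comm_quot]; exact ⟨c, hc, rfl⟩
        · intro h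
          apply hcg
          have h6 := (cm_eq_one_iff _ _).mpr h
          have h7 : ((cm c g : G) : G ⧸ N) = cm (c : G ⧸ N) (g : G ⧸ N) :=
            map_cm (QuotientGroup.mk' N) c g
          rw [← h7] at h6
          exact (QuotientGroup.eq_one_iff _).mp h6)
      refine ⟨?_, h5.2⟩
      rw [← rank_quot N (hN.trans (comm_le_frat hG))]
      exact h5.1
    refine step hG hE ?_ ?_ h3
    · intro N hNn hN hN1 hex x y hgen
      obtain ⟨h1, h2⟩ := main N hNn hN hN1 hex
      refine ⟨h1, ?_⟩
      rcases h2 with h2 | h2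
      · exact Or.inl (PB_of_quot hG hgen N h2)
      · exact Or.inr (PC_of_quot N h2)
    · intro N hNn hN hN1 hex
      exact (main N hNn hN hN1 hex).1

end Pool.Agent.Q21.AC
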