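import Mathlib
import Pool.Agent.Q21.AC.Nec

/-!
Sufficiency for two-generator groups.
-/

set_option autoImplicit false

open scoped commutatorElement

namespace Pool.Agent.Q21.AC

open Pool.Agent.Helper832.AutC

/-- lifting the exponent, in the form needed here -/
theorem lte {p : ℕ} (hp : p.Prime) (t : ℤ) (ht : (p : ℤ) ∣ t - 1) (ht4 : p = 2 → (4 : ℤ) ∣ t - 1)
    (r k : ℕ) (h : ((p ^ k : ℕ) : ℤ) ∣ ∑ i ∈ Finset.range r, t ^ i) : p ^ k ∣ r := by
  by_cases h1 : t = 1
  · subst h1
    simp only [one_pow, Finset.sum_const, Finset.card_range, smul_eq_mul, mul_one] at h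
    have h' : ((p ^ k : ℕ) : ℤ) ∣ (r : ℤ) := by simpa using h
    exact_mod_cast h'
  · have hpi : Prime (p : ℤ) := Nat.prime_iff_prime_int.mp hp
    have hpt : ¬ (p : ℤ) ∣ t := by
      intro hd
      have := dvd_sub hd ht
      rw [sub_sub_cancel] at this
      exact hpi.not_unit (isUnit_of_dvd_one this)
    have e1 : emultiplicity (p : ℤ) (t ^ r - 1 ^ r)
        = emultiplicity (p : ℤ) (t - 1) + emultiplicity (p : ℤ) (r : ℤ) := by
      by_cases hp2 : p = 2
      · subst hp2
        exact Int.two_pow_sub_pow' r (ht4 rfl) hpt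
      · rw [Int.emultiplicity_pow_sub_pow hp (hp.odd_of_ne_two hp2) ht hpt r,
          Int.natCast_emultiplicity]
    have e2 : (∑ i ∈ Finset.range r, t ^ i) * (t - 1) = t ^ r - 1 ^ r := by
      rw [one_pow]; exact geom_sum_mul t r
    have e3 := emultiplicity_mul hpi (a := ∑ i ∈ Finset.range r, t ^ i) (b := t - 1)
    rw [e2, e1, add_comm] at e3
    have hfin : FiniteMultiplicity (p : ℤ) (t - 1) := by
      refine Int.finiteMultiplicity_iff.mpr ⟨?_, sub_ne_zero.mpr h1⟩
      rw [Int.natAbs_natCast]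
      exact hp.one_lt.ne'
    have e4 : emultiplicity (p : ℤ) (r : ℤ)
        = emultiplicity (p : ℤ) (∑ i ∈ Finset.range r, t ^ i) := by
      have h5 := hfin.emultiplicity_eq_multiplicity
      rw [h5] at e3
      exact (ENat.add_left_injective_of_ne_top (ENat.coe_ne_top _)) e3
    have h6 : ((p : ℤ)) ^ k ∣ (r : ℤ) := by
      rw [pow_dvd_iff_le_emultiplicity, e4, ← pow_dvd_iff_le_emultiplicity]
      exact_mod_cast h
    exact_mod_cast h6

variable {G : Type} [Group G] {p : ℕ} [hp : Fact p.Prime] [Finite G]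

theorem B_powers (hG : IsPGroup p G) (hB : TB p G) {x y : G}
    (hgen : Subgroup.closure ({x, y} : Set G) = ⊤) {c : G} (hc : c ∈ commutator G) :
    ∃ n : ℕ, cm x (y ^ n) = c := by
  have hnil : Group.IsNilpotent G := hG.isNilpotent
  have hall := TB_gen hG hgen hB.1
  have hu := cm_mem x y
  by_cases hu1 : cm x y = 1
  · refine ⟨0, ?_⟩
    have := hall c hc
    rw [hu1, Subgroup.zpowers_one_eq_bot, Subgroup.mem_bot] at this
    rw [this, pow_zero, cm_one_right]
  -- `u^y = u^t`
  obtain ⟨t, ht, ht4, hty⟩ : ∃ t : ℤ, (p : ℤ) ∣ t - 1 ∧ (p = 2 → (4 : ℤ) ∣ t - 1) ∧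
      y⁻¹ * cm x y * y = (cm x y) ^ t := by
    by_cases hp2 : p = 2
    · obtain ⟨e, he, hce⟩ := hB.2 hp2 _ hu y
      obtain ⟨i, hi⟩ := hall e he
      have hi' : (cm x y) ^ i = e := hi
      refine ⟨1 + 4 * i, ?_, fun _ => by simp, ?_⟩
      · rw [hp2]; exact ⟨2 * i, by push_cast; ring⟩
      · rw [conj_eq, hce, ← hi', zpow_add, zpow_one, ← zpow_natCast, ← zpow_mul, mul_comm i]
        rfl
    · obtain ⟨k, hk⟩ := hall _ (cm_mem (cm x y) y)
      have hk' : (cm x y) ^ k = cm (cm x y) y := hk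
      have hpk : (p : ℤ) ∣ k := by
        by_contra hpk
        apply hu1
        let G3 : Subgroup G := ⁅commutator G, (⊤ : Subgroup G)⁆
        have h1 : cm x y ∈ G3 := by
          refine mem_of_zpow_mem hG G3 _ k hpk ?_
          rw [hk']
          exact cm_mem_top hu y
        have h2 : commutator G ≤ G3 := comm_le_of_gen hgen G3 h1
        have h3 := eq_bot_of_le_comm (commutator G) h2
        rw [h3] at hu
        exact Subgroup.mem_bot.mp hu
      refine ⟨1 + k, by simpa using hpk, fun h => absurd h hp2, ?_⟩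
      rw [conj_eq, ← hk', zpow_add, zpow_one]
  have hS : ∀ n : ℕ, cm x (y ^ n) = (cm x y) ^ (∑ i ∈ Finset.range n, t ^ i) := by
    intro n
    induction n with
    | zero => simp [cm_one_right]
    | succ n ih =>
      have h1 : y⁻¹ * (cm x y) ^ (∑ i ∈ Finset.range n, t ^ i) * y
          = (cm x y) ^ (t * ∑ i ∈ Finset.range n, t ^ i) := by
        have h2 := conj_zpow (i := ∑ i ∈ Finset.range n, t ^ i) (a := y⁻¹) (b := cm x y)
        rw [inv_inv] at h2
        rw [← h2, hty, ← zpow_mul]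
      rw [pow_succ, cm_mul_right, ih, h1, ← zpow_one_add, Finset.sum_range_succ']
      congr 1
      rw [pow_zero, Finset.mul_sum, add_comm]
      congr 1
      exact Finset.sum_congr rfl fun i _ => by rw [pow_succ']
  obtain ⟨k, hk⟩ := (IsPGroup.iff_orderOf.mp hG) (cm x y)
  -- the map is injective
  let f : Fin (p ^ k) → Subgroup.zpowers (cm x y) := fun n =>
    ⟨cm x (y ^ (n : ℕ)), hall _ (cm_mem _ _)⟩
  have key : ∀ m n : ℕ, m ≤ n → cm x (y ^ m) = cm x (y ^ n) → p ^ k ∣ n - m := by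
    intro m n hmn h
    apply lte hp.out t ht ht4
    have h1 : cm x (y ^ (n - m)) = 1 := by
      have h2 : y ^ n = y ^ (n - m) * y ^ m := by rw [← pow_add, Nat.sub_add_cancel hmn]
      rw [h2, cm_mul_right] at h
      have h3 := mul_eq_left.mp h.symm
      have h4 : cm x (y ^ (n - m)) = y ^ m * ((y ^ m)⁻¹ * cm x (y ^ (n - m)) * y ^ m) * (y ^ m)⁻¹ := by
        group
      rw [h4, h3, mul_one, mul_inv_cancel]
    rw [hS, ← orderOf_dvd_iff_zpow_eq_one, hk] at h1
    exact h1
  have hf : Function.Injective f := by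
    intro m n hmn
    have h : cm x (y ^ (m : ℕ)) = cm x (y ^ (n : ℕ)) := congrArg Subtype.val hmn
    apply Fin.ext
    rcases le_total (m : ℕ) (n : ℕ) with hle | hle
    · have h1 := key _ _ hle h
      have h2 := Nat.eq_zero_of_dvd_of_lt h1 (by omega)
      omega
    · have h1 := key _ _ hle h.symm
      have h2 := Nat.eq_zero_of_dvd_of_lt h1 (by omega)
      omega
  have hcard : Nat.card (Subgroup.zpowers (cm x y)) ≤ Nat.card (Fin (p ^ k)) := by
    rw [Nat.card_zpowers, hk, Nat.card_fin]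
  obtain ⟨n, hn⟩ := (hf.bijective_of_nat_card_le hcard).2 ⟨c, hall c hc⟩
  exact ⟨n, congrArg Subtype.val hn⟩

theorem suffB (hG : IsPGroup p G) (hB : TB p G) {x y : G}
    (hgen : Subgroup.closure ({x, y} : Set G) = ⊤) {c d : G} (hc : c ∈ commutator G)
    (hd : d ∈ commutator G) : ∃ α ∈ AutC G, α x = x * c ∧ α y = y * d := by
  have hgen' : Subgroup.closure ({y, x} : Set G) = ⊤ := by rw [Set.pair_comm]; exact hgen
  obtain ⟨n, hn⟩ := B_powers hG hB hgen hc
  obtain ⟨m, hm⟩ := B_powers hG hB hgen'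
    ((inferInstance : (commutator G).Normal).conj_mem d hd (y ^ n))
  refine ⟨MulAut.conj (x ^ m * y ^ n)⁻¹, fun z => ?_, ?_, ?_⟩
  · exact isConj_iff.mpr ⟨(x ^ m * y ^ n)⁻¹, rfl⟩
  · rw [MulAut.conj_apply, inv_inv, conj_eq, cm_mul_right, hn,
      (cm_eq_one_iff x (x ^ m)).mpr ((Commute.refl x).pow_right m), mul_one, inv_mul_cancel,
      mul_one]
  · rw [MulAut.conj_apply, inv_inv, conj_eq, cm_mul_right, hm,
      (cm_eq_one_iff y (y ^ n)).mpr ((Commute.refl y).pow_right n)]
    group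

end Pool.Agent.Q21.AC
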