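import Mathlib
import Pool.Agent.Q21.AC.SuffB

/-!
Sufficiency for the two-generator 2-groups of class three with `γ₂` of exponent two.
-/

set_option autoImplicit false

open scoped commutatorElement

namespace Pool.Agent.Q21.AC

open Pool.Agent.Helper832.AutC

variable {G : Type} [Group G]

/-- the automorphism `g ↦ g f(g)` for `f` central-valued -/
theorem central_aut [Finite G] (f : G → G) (hf : ∀ a b, f (a * b) = f a * f b)
    (hfc : ∀ a g, Commute (f a) g) (hcl : ∀ g, ∃ k, cm g k = f g) :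
    ∃ α ∈ AutC G, ∀ g, α g = g * f g := by
  let φ : G →* G := MonoidHom.mk' (fun g => g * f g) (by
    intro a b
    rw [hf]
    calc a * b * (f a * f b) = a * (b * f a) * f b := by group
      _ = a * (f a * b) * f b := by rw [(hfc a b).eq]
      _ = _ := by group)
  have hφ : ∀ g, φ g = g * f g := fun g => rfl
  have hinj : Function.Injective φ := by
    rw [injective_iff_map_eq_one]
    intro g hg
    rw [hφ] at hg
    obtain ⟨k, hk⟩ := hcl g
    have h1 : Commute g k := by
      have h2 : g = (f g)⁻¹ := eq_inv_of_mul_eq_one_left hg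
      rw [h2]
      exact (hfc g k).inv_left
    rw [← hk, (cm_eq_one_iff g k).mpr h1, mul_one] at hg
    exact hg
  have hbij : Function.Bijective φ := Finite.injective_iff_bijective.mp hinj
  refine ⟨MulEquiv.ofBijective φ hbij, fun g => ?_, fun g => rfl⟩
  obtain ⟨k, hk⟩ := hcl g
  refine (isConj_cm _ _).mpr ⟨k, ?_⟩
  rw [hk]
  rfl

variable [Finite G]

/-- `γ₃ ⊆ [g, G]` for `g ∉ Φ(G)` -/
theorem C_cam (hG : IsPGroup 2 G) (hr : Group.rank G = 2)
    (h4 : ∀ c ∈ commutator G, ∀ g h : G, Commute (cm c g) h) (h2 : ∀ c ∈ commutator G, c ^ 2 = 1)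
    {g : G} (hg : g ∉ frattini G) {d : G} (hd : d ∈ ⁅commutator G, (⊤ : Subgroup G)⁆) :
    ∃ k, cm g k = d := by
  have hp2 : Fact (Nat.Prime 2) := ⟨Nat.prime_two⟩
  obtain ⟨h, hh⟩ := exists_notMem_sup hG hg hr.ge
  have hgen := gen_of_indep hG hr hg hh
  have hu := cm_mem g h
  have ab : ∀ c ∈ commutator G, ∀ d ∈ commutator G, Commute c d := fun c hc d hd =>
    c3_comm h4 hc hd
  have hac : ∀ k, Commute (cm (cm g h) g) k := h4 _ hu g
  have hbc : ∀ k, Commute (cm (cm g h) h) k := h4 _ hu h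
  have ha2 : cm (cm g h) g * cm (cm g h) g = 1 := by
    rw [← pow_two]; exact h2 _ (cm_mem _ _)
  have hb2 : cm (cm g h) h * cm (cm g h) h = 1 := by
    rw [← pow_two]; exact h2 _ (cm_mem _ _)
  have huu : cm g h * cm g h = 1 := by rw [← pow_two]; exact h2 _ hu
  have hbn := central_normal hbc
  have han := central_normal hac
  -- `γ₃ = ⟨a⟩⟨b⟩`
  let K : Subgroup G := Subgroup.zpowers (cm (cm g h) g) ⊔ Subgroup.zpowers (cm (cm g h) h)
  have huK : ∀ k, cm (cm g h) k ∈ K := by
    intro k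
    let L : Subgroup G :=
      { carrier := {k | cm (cm g h) k ∈ K}
        mul_mem' := by
          intro a b ha hb
          show cm (cm g h) (a * b) ∈ K
          rw [c3_right h4 hu]
          exact mul_mem ha hb
        one_mem' := by
          show cm (cm g h) 1 ∈ K
          rw [cm_one_right]; exact one_mem _
        inv_mem' := by
          intro a ha
          show cm (cm g h) a⁻¹ ∈ K
          have h5 := c3_right h4 hu a a⁻¹
          rw [mul_inv_cancel, cm_one_right] at h5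
          rw [eq_inv_of_mul_eq_one_right h5.symm]
          exact inv_mem ha }
    have hL : L = ⊤ := by
      rw [eq_top_iff, ← hgen, Subgroup.closure_le]
      rintro t (rfl | rfl)
      · exact (le_sup_left : Subgroup.zpowers (cm (cm t h) t) ≤ _) (Subgroup.mem_zpowers _)
      · exact (le_sup_right : Subgroup.zpowers (cm (cm g t) t) ≤ _) (Subgroup.mem_zpowers _)
    have : k ∈ L := by rw [hL]; trivial
    exact this
  have hKall : ∀ c ∈ commutator G, ∀ k, cm c k ∈ K := by
    let L : Subgroup G :=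
      { carrier := {c | c ∈ commutator G ∧ ∀ k, cm c k ∈ K}
        mul_mem' := by
          rintro a b ⟨ha, ha'⟩ ⟨hb, hb'⟩
          refine ⟨mul_mem ha hb, fun k => ?_⟩
          rw [c3_left h4 ha]
          exact mul_mem (ha' k) (hb' k)
        one_mem' := ⟨one_mem _, fun k => by rw [cm_one_left]; exact one_mem _⟩
        inv_mem' := by
          rintro a ⟨ha, ha'⟩
          refine ⟨inv_mem ha, fun k => ?_⟩
          have h5 := c3_left h4 ha (d := a⁻¹) k
          rw [mul_inv_cancel, cm_one_left] at h5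
          rw [eq_inv_of_mul_eq_one_right h5.symm]
          exact inv_mem (ha' k) }
    have hLn : L.Normal := by
      refine ⟨fun c hc t => ?_⟩
      obtain ⟨hc1, hc2⟩ := hc
      refine ⟨(inferInstance : (commutator G).Normal).conj_mem c hc1 t, fun k => ?_⟩
      have h1 : t * c * t⁻¹ = c * cm c t⁻¹ := by unfold cm; group
      rw [h1, c3_left h4 hc1, (cm_eq_one_iff _ k).mpr (h4 _ hc1 _ _), mul_one]
      exact hc2 k
    intro c hc
    exact (comm_le_of_gen hgen L ⟨hu, huK⟩ hc).2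
  have hdK : d ∈ K := (comm_top_le _ _).mpr hKall hd
  obtain ⟨a', ha', b', hb', rfl⟩ := Subgroup.mem_sup_of_normal_left.mp hdK
  -- the realisations
  have e1 : cm g (cm g h) = cm (cm g h) g := by
    have h5 : cm g (cm g h) = (cm (cm g h) g)⁻¹ := by
      have : ∀ a b : G, cm a b = (cm b a)⁻¹ := fun a b => by unfold cm; group
      exact this _ _
    rw [h5]
    exact inv_eq_of_mul_eq_one_left ha2
  have e2 : cm g (h * h) = cm (cm g h) h := by
    rw [cm_mul_right, conj_eq, ← mul_assoc, huu, one_mul]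
  have e3 : cm g (cm g h * (h * h)) = cm (cm g h) g * cm (cm g h) h := by
    rw [cm_mul_right, e1, e2, mul_assoc _⁻¹, (hac _).eq, inv_mul_cancel_left, (hac _).eq]
  rcases mem_zpowers_two ha2 ha' with rfl | rfl <;> rcases mem_zpowers_two hb2 hb' with rfl | rfl
  · exact ⟨1, by rw [cm_one_right, mul_one]⟩
  · exact ⟨h * h, by rw [e2, one_mul]⟩
  · exact ⟨cm g h, by rw [e1, mul_one]⟩
  · exact ⟨_, e3⟩

theorem index_two (hG : IsPGroup 2 G) (hr : Group.rank G = 2) {x : G} (hx : x ∉ frattini G) :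
    (Subgroup.zpowers x ⊔ frattini G).index = 2 := by
  have hp2 : Fact (Nat.Prime 2) := ⟨Nat.prime_two⟩
  have h1 := Subgroup.card_mul_index (Subgroup.zpowers x ⊔ frattini G)
  rw [card_step hG _ le_rfl x hx, card_frat_eq hG, hr] at h1
  have h2 : 0 < 2 * Nat.card (frattini G) := by
    have : 0 < Nat.card (frattini G) := Nat.card_pos
    omega
  refine Nat.eq_of_mul_eq_mul_left h2 ?_
  rw [h1]; ring

/-- prescribed central values on two generators -/
theorem C_central (hG : IsPGroup 2 G) (hr : Group.rank G = 2)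
    (h4 : ∀ c ∈ commutator G, ∀ g h : G, Commute (cm c g) h) (h2 : ∀ c ∈ commutator G, c ^ 2 = 1)
    {x y : G} (hx : x ∉ frattini G) (hy : y ∉ Subgroup.zpowers x ⊔ frattini G)
    {c d : G} (hc : c ∈ ⁅commutator G, (⊤ : Subgroup G)⁆)
    (hd : d ∈ ⁅commutator G, (⊤ : Subgroup G)⁆) :
    ∃ α ∈ AutC G, α x = x * c ∧ α y = y * d := by
  classical
  have hp2 : Fact (Nat.Prime 2) := ⟨Nat.prime_two⟩
  have hgen := gen_of_indep hG hr hx hy
  have hgen' : Subgroup.closure ({y, x} : Set G) = ⊤ := by rw [Set.pair_comm]; exact hgen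
  obtain ⟨hy', hx'⟩ := indep_of_gen hr hgen'
  have hix := index_two hG hr hx
  have hiy := index_two hG hr hy'
  have hG3c : ∀ d ∈ ⁅commutator G, (⊤ : Subgroup G)⁆, ∀ h, Commute d h := by
    intro d hd h
    have h1 : ⁅commutator G, (⊤ : Subgroup G)⁆ ≤ Subgroup.center G := by
      rw [comm_top_le]
      intro c hc g
      rw [Subgroup.mem_center_iff]
      intro k
      exact (h4 c hc g k).symm.eq
    exact (Subgroup.mem_center_iff.mp (h1 hd) h).symm
  have hle : ⁅commutator G, (⊤ : Subgroup G)⁆ ≤ commutator G := Subgroup.commutator_le_left _ _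
  have hcc : c * c = 1 := by rw [← pow_two]; exact h2 c (hle hc)
  have hdd : d * d = 1 := by rw [← pow_two]; exact h2 d (hle hd)
  -- the homomorphism
  have aux : ∀ (M : Subgroup G), M.index = 2 → ∀ e : G, e * e = 1 → ∀ a b : G,
      (if a * b ∈ M then (1 : G) else e)
        = (if a ∈ M then (1 : G) else e) * (if b ∈ M then (1 : G) else e) := by
    intro M hM e he a b
    have h5 := Subgroup.mul_mem_iff_of_index_two hM (a := a) (b := b)
    by_cases ha : a ∈ M <;> by_cases hb : b ∈ M <;> simp [h5, ha, hb, he]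
  let f : G → G := fun g => (if g ∈ Subgroup.zpowers y ⊔ frattini G then 1 else c)
    * (if g ∈ Subgroup.zpowers x ⊔ frattini G then 1 else d)
  have hfd : ∀ g, f g = (if g ∈ Subgroup.zpowers y ⊔ frattini G then 1 else c)
    * (if g ∈ Subgroup.zpowers x ⊔ frattini G then 1 else d) := fun g => rfl
  have hic : ∀ (M : Subgroup G) (g : G), (if g ∈ M then (1 : G) else c)
      ∈ ⁅commutator G, (⊤ : Subgroup G)⁆ := by
    intro M g
    by_cases h : g ∈ M
    · rw [if_pos h]; exact one_mem _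
    · rw [if_neg h]; exact hc
  have hid : ∀ (M : Subgroup G) (g : G), (if g ∈ M then (1 : G) else d)
      ∈ ⁅commutator G, (⊤ : Subgroup G)⁆ := by
    intro M g
    by_cases h : g ∈ M
    · rw [if_pos h]; exact one_mem _
    · rw [if_neg h]; exact hd
  have hf3 : ∀ g, f g ∈ ⁅commutator G, (⊤ : Subgroup G)⁆ := fun g => mul_mem (hic _ g) (hid _ g)
  obtain ⟨α, hα, h⟩ := central_aut f (by
    intro a b
    rw [hfd, hfd, hfd, aux _ hiy c hcc, aux _ hix d hdd]
    have h5 := hG3c _ (hic (Subgroup.zpowers y ⊔ frattini G) b)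
      (if a ∈ Subgroup.zpowers x ⊔ frattini G then (1 : G) else d)
    exact Commute.mul_mul_mul_comm h5 _ _) (fun a g => hG3c _ (hf3 a) g) (by
    intro g
    by_cases hg : g ∈ frattini G
    · refine ⟨1, ?_⟩
      rw [cm_one_right, hfd, if_pos ((le_sup_right : frattini G ≤ _) hg),
        if_pos ((le_sup_right : frattini G ≤ _) hg), mul_one]
    · exact C_cam hG hr h4 h2 hg (hf3 g))
  refine ⟨α, hα, ?_, ?_⟩
  · rw [h, hfd, if_neg hx', if_pos ((le_sup_left : Subgroup.zpowers x ≤ _)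
      (Subgroup.mem_zpowers x)), mul_one]
  · rw [h, hfd, if_pos ((le_sup_left : Subgroup.zpowers y ≤ _) (Subgroup.mem_zpowers y)),
      if_neg hy, one_mul]

theorem suffC (hG : IsPGroup 2 G) (hr : Group.rank G = 2) (hC : TC 2 G)
    {x y : G} (hx : x ∉ frattini G) (hy : y ∉ Subgroup.zpowers x ⊔ frattini G)
    {c d : G} (hc : c ∈ commutator G) (hd : d ∈ commutator G) :
    ∃ α ∈ AutC G, α x = x * c ∧ α y = y * d := by
  have hp2 : Fact (Nat.Prime 2) := ⟨Nat.prime_two⟩
  obtain ⟨-, h4, h2⟩ := hC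
  have hgen := gen_of_indep hG hr hx hy
  have hu := cm_mem x y
  have huu : cm x y * cm x y = 1 := by rw [← pow_two]; exact h2 _ hu
  let G3 : Subgroup G := ⁅commutator G, (⊤ : Subgroup G)⁆
  -- `γ₂ = γ₃ ∪ u γ₃`
  have hform : ∀ c ∈ commutator G, ∃ e, (e = 1 ∨ e = cm x y) ∧ e⁻¹ * c ∈ G3 := by
    let K : Subgroup G := Subgroup.zpowers (cm x y) ⊔ G3
    have hKn : K.Normal := by
      refine ⟨fun n hn g => ?_⟩
      have hn2 : n ∈ commutator G := by
        refine (sup_le ?_ (Subgroup.commutator_le_left _ _) : K ≤ commutator G) hn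
        rw [Subgroup.zpowers_le]; exact hu
      have h1 : g * n * g⁻¹ = n * cm n g⁻¹ := by unfold cm; group
      rw [h1]
      exact mul_mem hn ((le_sup_right : G3 ≤ K) (cm_mem_top hn2 g⁻¹))
    intro c hc
    have h1 : c ∈ K := comm_le_of_gen hgen K ((le_sup_left : Subgroup.zpowers (cm x y) ≤ K)
      (Subgroup.mem_zpowers _)) hc
    obtain ⟨e, he, t, ht, rfl⟩ := Subgroup.mem_sup_of_normal_right.mp h1
    refine ⟨e, mem_zpowers_two huu he, ?_⟩
    rw [inv_mul_cancel_left]
    exact ht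
  -- the inner part
  have hcmyx : cm y x = cm x y := by
    have h5 : cm y x = (cm x y)⁻¹ := by unfold cm; group
    rw [h5]
    exact inv_eq_of_mul_eq_one_left huu
  obtain ⟨e₁, he₁, hc'⟩ := hform c hc
  obtain ⟨e₂, he₂, hd'⟩ := hform d hd
  obtain ⟨k, hk1, hk2⟩ : ∃ k, (cm x k)⁻¹ * c ∈ G3 ∧ (cm y k)⁻¹ * d ∈ G3 := by
    have hxk : ∀ (k l : G), Commute x k → cm x (k * l) = cm x l := by
      intro k l h
      rw [cm_mul_right, (cm_eq_one_iff _ _).mpr h, mul_one, inv_mul_cancel, mul_one]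
    obtain ⟨l, hl, hxl⟩ : ∃ l, Commute y l ∧ cm x l = e₁ := by
      rcases he₁ with rfl | rfl
      · exact ⟨1, Commute.one_right y, cm_one_right x⟩
      · exact ⟨y, Commute.refl y, rfl⟩
    obtain ⟨k, hk, hyk⟩ : ∃ k, Commute x k ∧ cm y k = e₂ := by
      rcases he₂ with rfl | rfl
      · exact ⟨1, Commute.one_right x, cm_one_right y⟩
      · exact ⟨x, Commute.refl x, hcmyx⟩
    refine ⟨k * l, ?_, ?_⟩
    · rw [hxk k l hk, hxl]; exact hc'
    · rw [cm_mul_right, (cm_eq_one_iff _ _).mpr hl, one_mul, conj_eq, hyk]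
      have he₂m : e₂ ∈ commutator G := by rw [← hyk]; exact cm_mem _ _
      have h5 : (e₂ * cm e₂ l)⁻¹ * d = (cm e₂ l)⁻¹ * (e₂⁻¹ * d) := by group
      rw [h5]
      exact mul_mem (inv_mem (cm_mem_top he₂m l)) hd'
  -- the central part
  obtain ⟨β, hβ, hβx, hβy⟩ := C_central hG hr h4 h2 hx hy
    (c := (cm x k)⁻¹ * c) (d := (cm y k)⁻¹ * d) hk1 hk2
  have hcen : ∀ d ∈ G3, ∀ h, Commute d h := by
    intro d hd h
    have h1 : G3 ≤ Subgroup.center G := by
      rw [comm_top_le]
      intro c hc g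
      rw [Subgroup.mem_center_iff]
      intro k
      exact (h4 c hc g k).symm.eq
    exact (Subgroup.mem_center_iff.mp (h1 hd) h).symm
  refine ⟨MulAut.conj k⁻¹ * β, (AutC G).mul_mem (fun z => isConj_iff.mpr ⟨k⁻¹, rfl⟩) hβ, ?_, ?_⟩
  · rw [MulAut.mul_apply, hβx, MulAut.conj_apply, inv_inv]
    calc k⁻¹ * (x * ((cm x k)⁻¹ * c)) * k = k⁻¹ * x * (((cm x k)⁻¹ * c) * k) := by group
      _ = k⁻¹ * x * (k * ((cm x k)⁻¹ * c)) := by rw [(hcen _ hk1 k).eq]
      _ = (k⁻¹ * x * k) * ((cm x k)⁻¹ * c) := by group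
      _ = x * c := by rw [conj_eq]; group
  · rw [MulAut.mul_apply, hβy, MulAut.conj_apply, inv_inv]
    calc k⁻¹ * (y * ((cm y k)⁻¹ * d)) * k = k⁻¹ * y * (((cm y k)⁻¹ * d) * k) := by group
      _ = k⁻¹ * y * (k * ((cm y k)⁻¹ * d)) := by rw [(hcen _ hk2 k).eq]
      _ = (k⁻¹ * y * k) * ((cm y k)⁻¹ * d) := by group
      _ = y * d := by rw [conj_eq]; group

end Pool.Agent.Q21.AC
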