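import Mathlib
import Pool.Agent.Q21.AC.SuffC
import Pool.Agent.Helper832.AutC.Suff

/-!
Sufficiency in class at most two.
-/

set_option autoImplicit false

open scoped commutatorElement

namespace Pool.Agent.Q21.AC

open Pool.Agent.Helper832.AutC

variable {G : Type} [Group G] [Finite G]

theorem notMem_of_min [DecidableEq G] {s : Finset G} (hs : s.card = Group.rank G)
    (hgen : Subgroup.closure (s : Set G) = ⊤) {g : G} (hg : g ∈ s) :
    g ∉ Subgroup.closure ((s.erase g : Finset G) : Set G) ⊔ frattini G := by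
  intro h
  have h1 : Subgroup.closure ((s.erase g : Finset G) : Set G) ⊔ frattini G = ⊤ := by
    rw [eq_top_iff, ← hgen, Subgroup.closure_le]
    intro k hk
    by_cases hkg : k = g
    · rw [hkg]; exact h
    · exact (le_sup_left : _ ≤ Subgroup.closure ((s.erase g : Finset G) : Set G) ⊔ frattini G)
        (Subgroup.subset_closure (Finset.mem_coe.mpr (Finset.mem_erase.mpr ⟨hkg, hk⟩)))
  have h2 := frattini_nongenerating h1
  have h3 := Group.rank_le h2
  rw [Finset.card_erase_of_mem hg, hs] at h3
  have h4 : 0 < s.card := Finset.card_pos.mpr ⟨g, hg⟩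
  omega

variable {p : ℕ} [hp : Fact p.Prime]

theorem exps_dvd (hG : IsPGroup p G) {s : Finset G} (hs : s.card = Group.rank G)
    (hgen : Subgroup.closure (s : Set G) = ⊤) (a : Fin s.card → ℤ)
    (h : wd (fun i => (s.equivFin.symm i : G)) a ∈ frattini G) (i : Fin s.card) :
    (p : ℤ) ∣ a i := by
  classical
  by_contra hpa
  let x : Fin s.card → G := fun i => (s.equivFin.symm i : G)
  have hxs : ∀ i, x i ∈ s := fun i => (s.equivFin.symm i).2
  have hxinj : ∀ i j, x i = x j → i = j := fun i j hij =>
    s.equivFin.symm.injective (Subtype.ext hij)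
  let H : Subgroup G := Subgroup.closure ((s.erase (x i) : Finset G) : Set G) ⊔ frattini G
  have hFH : frattini G ≤ H := le_sup_right
  let φ : G →* Abelianization G := Abelianization.of
  have e1 : φ (wd x a) = φ (x i) ^ a i * ∏ j ∈ Finset.univ.erase i, φ (x j) ^ a j := by
    rw [hom_wd, Finset.mul_prod_erase Finset.univ (fun j => φ (x j) ^ a j) (Finset.mem_univ i)]
  have e2 : ∏ j ∈ Finset.univ.erase i, φ (x j) ^ a j ∈ H.map φ := by
    refine Subgroup.prod_mem _ (fun j hj => ?_)
    refine zpow_mem (Subgroup.mem_map_of_mem φ ?_) _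
    refine (le_sup_left : Subgroup.closure ((s.erase (x i) : Finset G) : Set G) ≤ H)
      (Subgroup.subset_closure (Finset.mem_coe.mpr (Finset.mem_erase.mpr ⟨?_, hxs j⟩)))
    exact fun h => (Finset.ne_of_mem_erase hj) (hxinj _ _ h)
  have e3 : φ (x i ^ a i) ∈ H.map φ := by
    have h1 : φ (x i ^ a i) = φ (wd x a) * (∏ j ∈ Finset.univ.erase i, φ (x j) ^ a j)⁻¹ := by
      rw [e1, map_zpow, mul_inv_cancel_right]
    rw [h1]
    exact mul_mem ⟨_, hFH h, rfl⟩ (inv_mem e2)
  have e4 : x i ^ a i ∈ H := by
    have h1 : x i ^ a i ∈ (H.map φ).comap φ := e3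
    rw [Subgroup.comap_map_eq] at h1
    have h2 : φ.ker ≤ H := by
      have h3 : φ.ker = commutator G := Abelianization.ker_of G
      rw [h3]
      exact (comm_le_frat hG).trans hFH
    rwa [sup_eq_left.mpr h2] at h1
  exact notMem_of_min hs hgen (hxs i) (mem_of_zpow_mem hG H (x i) (a i) hpa e4)

theorem crit_of_cam (hG : IsPGroup p G) (hc : ∀ a b c : G, ⁅⁅a, b⁆, c⁆ = 1)
    (hcam : ∀ x, x ∉ frattini G → ∀ c ∈ commutator G, ∃ g, cm x g = c)
    {s : Finset G} (hs : s.card = Group.rank G) (hgen : Subgroup.closure (s : Set G) = ⊤) :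
    Crit hc (fun i => (s.equivFin.symm i : G)) := by
  have key : ∀ (n : ℕ) (a : Fin s.card → ℤ), ∑ i, (a i).natAbs = n →
      ∀ (j : Fin s.card) (g : G), ∃ h : G, (pr hc (s.equivFin.symm j : G) g) ^ a j
        = ∏ i, (pr hc (s.equivFin.symm i : G) h) ^ a i := by
    intro n
    induction n using Nat.strong_induction_on with
    | _ n ih =>
      intro a hn j g
      by_cases hall : ∀ i, (p : ℤ) ∣ a i
      · choose b hb using hall
        by_cases h0 : ∀ i, a i = 0
        · refine ⟨1, ?_⟩
          rw [h0 j, zpow_zero]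
          symm
          refine Finset.prod_eq_one (fun i _ => ?_)
          rw [h0 i, zpow_zero]
        · push Not at h0
          obtain ⟨i₀, hi₀⟩ := h0
          have hp2 := hp.out.two_le
          have h1 : ∀ i, (b i).natAbs ≤ (a i).natAbs := by
            intro i
            rw [hb i, Int.natAbs_mul, Int.natAbs_natCast]
            exact Nat.le_mul_of_pos_left _ (by omega)
          have h2 : (b i₀).natAbs < (a i₀).natAbs := by
            rw [hb i₀, Int.natAbs_mul, Int.natAbs_natCast]
            have h3 : 0 < (b i₀).natAbs := by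
              rw [Int.natAbs_pos]
              intro h
              rw [hb i₀, h, mul_zero] at hi₀
              exact hi₀ rfl
            nlinarith
          obtain ⟨h, hh⟩ := ih _ (by
            rw [← hn]
            exact Finset.sum_lt_sum (fun i _ => h1 i) ⟨i₀, Finset.mem_univ _, h2⟩) b rfl j g
          refine ⟨h, ?_⟩
          have e1 : ∀ (t : Subgroup.center G) (i : Fin s.card), t ^ a i = (t ^ b i) ^ p := by
            intro t i
            rw [hb i, mul_comm, zpow_mul, zpow_natCast]
          rw [e1, hh, ← Finset.prod_pow]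
          exact Finset.prod_congr rfl fun i _ => (e1 _ i).symm
      · push Not at hall
        obtain ⟨i₀, hi₀⟩ := hall
        have hw : wd (fun i => (s.equivFin.symm i : G)) a ∉ frattini G := fun h =>
          hi₀ (exps_dvd hG hs hgen a h i₀)
        obtain ⟨h, hh⟩ := hcam _ hw (((pr hc (s.equivFin.symm j : G) g) ^ a j :
          Subgroup.center G) : G) (by
          rw [Subgroup.coe_zpow, pr_coe]
          exact zpow_mem (Subgroup.commutator_mem_commutator (Subgroup.mem_top _)
            (Subgroup.mem_top _)) _)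
        refine ⟨h, ?_⟩
        rw [← pr_wd hc (fun i => (s.equivFin.symm i : G))]
        apply Subtype.ext
        rw [← hh, cm_eq, ← pr_coe hc]
        congr 1
        rw [map_inv]
        have h5 := pr_zpow hc (wd (fun i => (s.equivFin.symm i : G)) a) h (-1)
        rw [zpow_neg_one, zpow_neg_one] at h5
        rw [h5, inv_inv]
  intro a j g
  exact key _ a rfl j g

theorem suffA (hG : IsPGroup p G) (hc : ∀ a b c : G, ⁅⁅a, b⁆, c⁆ = 1)
    (hcam : ∀ x, x ∉ frattini G → ∀ c ∈ commutator G, ∃ g, cm x g = c) :
    Nat.card (AutC G) = Nat.card (commutator G) ^ Group.rank G := by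
  classical
  obtain ⟨s, hs, hgen⟩ := Group.rank_spec G
  have hr : Subgroup.closure (Set.range fun i => (s.equivFin.symm i : G)) = ⊤ := by
    rw [← hgen]
    congr 1
    ext g
    constructor
    · rintro ⟨i, rfl⟩
      exact (s.equivFin.symm i).2
    · intro hg
      exact ⟨s.equivFin ⟨g, hg⟩, by simp⟩
  have hsurj := surjP_of_crit hc _ hr (crit_of_cam hG hc hcam hs hgen)
  refine card_of_surj s hs hgen (fun F hF => ?_)
  obtain ⟨α, hα, h⟩ := hsurj (fun i => (s.equivFin.symm i : G) * F (s.equivFin.symm i : G)) (by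
    intro i
    have hi : (s.equivFin.symm i : G) ∉ frattini G := by
      intro h
      exact notMem_of_min hs hgen (s.equivFin.symm i).2 ((le_sup_right : frattini G ≤ _) h)
    obtain ⟨g, hg⟩ := hcam _ hi _ (hF (s.equivFin.symm i : G))
    exact (isConj_cm _ _).mpr ⟨g, by rw [hg]⟩)
  refine ⟨α, hα, fun g hg => ?_⟩
  have h1 := h (s.equivFin ⟨g, hg⟩)
  simpa using h1

end Pool.Agent.Q21.AC
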