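import Mathlib
import Pool.Agent.Q21.AC.SuffA

/-!
Finite p-groups with `|Aut_c(G)| = |γ₂(G)|^d`.
-/

set_option autoImplicit false

open scoped commutatorElement

namespace Pool.Agent.Q21.AC

open Pool.Agent.Helper832.AutC

variable {G : Type} [Group G] [Finite G] {p : ℕ} [hp : Fact p.Prime]

omit [Finite G] in
theorem bracket_eq (x g : G) : ⁅x, g⁆ = cm x⁻¹ g⁻¹ := by
  rw [cm_eq, inv_inv, inv_inv]

omit [Finite G] in
theorem g3_bot_iff : ⁅commutator G, (⊤ : Subgroup G)⁆ = ⊥ ↔
    ∀ c ∈ commutator G, ∀ g, Commute c g := by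
  rw [eq_bot_iff, comm_top_le]
  refine forall₂_congr fun c _ => forall_congr' fun g => ?_
  rw [Subgroup.mem_bot, cm_eq_one_iff]

omit [Finite G] in
theorem g4_bot_iff : ⁅⁅commutator G, (⊤ : Subgroup G)⁆, (⊤ : Subgroup G)⁆ = ⊥ ↔
    ∀ c ∈ commutator G, ∀ g h, Commute (cm c g) h := by
  constructor
  · intro h c hc g k
    have h1 := cm_mem_top (cm_mem_top hc g) k
    rw [h, Subgroup.mem_bot, cm_eq_one_iff] at h1
    exact h1
  · intro h
    rw [eq_bot_iff, comm_top_le]
    have h1 : ⁅commutator G, (⊤ : Subgroup G)⁆ ≤ Subgroup.center G := by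
      rw [comm_top_le]
      intro c hc g
      rw [Subgroup.mem_center_iff]
      intro k
      exact (h c hc g k).symm.eq
    intro c hc g
    rw [Subgroup.mem_bot, cm_eq_one_iff]
    exact (Subgroup.mem_center_iff.mp (h1 hc) g).symm

/-- in class at most two: `[x, G] = γ₂` off `Φ(G)` is `Z(G/M) = Φ(G)/M` for all maximal `M < γ₂` -/
theorem cam_iff_max (hG : IsPGroup p G) (h3 : ⁅commutator G, (⊤ : Subgroup G)⁆ = ⊥) :
    (∀ M : Subgroup G, M ⋖ commutator G → ∀ x, (∀ g, ⁅x, g⁆ ∈ M) ↔ x ∈ frattini G) ↔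
      ∀ x, x ∉ frattini G → ∀ c ∈ commutator G, ∃ g, cm x g = c := by
  have hcen := g3_bot_iff.mp h3
  have hmul : ∀ x y g : G, cm (x * y) g = cm x g * cm y g := by
    intro x y g
    rw [cm_mul_left, mul_assoc y⁻¹, (hcen _ (cm_mem x g) y).eq, inv_mul_cancel_left]
  have hmul' : ∀ x g h : G, cm x (g * h) = cm x g * cm x h := fun x =>
    cm_hom x fun g h => hcen _ (cm_mem x g) h
  have hmem : ∀ (M : Subgroup G) (x : G), (∀ g, ⁅x, g⁆ ∈ M) ↔ ∀ g, cm x g ∈ M := by
    intro M x
    have e1 : ∀ g, cm x⁻¹ g = (cm x g)⁻¹ := by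
      intro g
      have := hmul x⁻¹ x g
      rw [inv_mul_cancel, cm_one_left] at this
      exact eq_inv_of_mul_eq_one_left this.symm
    constructor
    · intro h g
      have := h g⁻¹
      rw [bracket_eq, inv_inv, e1] at this
      exact (inv_mem_iff (x := cm x g)).mp this
    · intro h g
      rw [bracket_eq, e1]
      exact inv_mem (h _)
  constructor
  · intro h x hx c hc
    let R : Subgroup G :=
      { carrier := {c | ∃ g, cm x g = c}
        mul_mem' := by
          rintro _ _ ⟨g, rfl⟩ ⟨k, rfl⟩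
          exact ⟨g * k, hmul' x g k⟩
        one_mem' := ⟨1, cm_one_right x⟩
        inv_mem' := by
          rintro _ ⟨g, rfl⟩
          refine ⟨g⁻¹, ?_⟩
          have := hmul' x g g⁻¹
          rw [mul_inv_cancel, cm_one_right] at this
          exact eq_inv_of_mul_eq_one_right this.symm }
    have hR : R ≤ commutator G := by
      rintro _ ⟨g, rfl⟩
      exact cm_mem x g
    by_contra hne
    have hlt : R < commutator G := lt_of_le_of_ne hR fun heq => hne (by rw [← heq] at hc; exact hc)
    obtain ⟨M, hM1, hM2⟩ := exists_le_covBy_of_lt hlt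
    exact hx ((h M hM2 x).mp ((hmem M x).mpr fun g => hM1 ⟨g, rfl⟩))
  · intro h M hM x
    rw [hmem]
    constructor
    · intro hx
      by_contra hxF
      have h1 : commutator G ≤ M := by
        intro c hc
        obtain ⟨g, rfl⟩ := h x hxF c hc
        exact hx g
      exact absurd h1 (not_le_of_gt hM.lt)
    · -- `Φ(G)` is central modulo `M`
      have hpow : ∀ c ∈ commutator G, c ^ p ∈ M := by
        intro c hc
        by_contra hcp
        have hcn : (Subgroup.zpowers (c ^ p)).Normal :=
          central_normal fun g => (hcen c hc g).pow_left p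
        have h1 : M < Subgroup.zpowers (c ^ p) ⊔ M := by
          refine lt_of_le_of_ne le_sup_right fun heq => hcp ?_
          rw [heq]
          exact (le_sup_left : Subgroup.zpowers (c ^ p) ≤ _) (Subgroup.mem_zpowers _)
        have h2 : Subgroup.zpowers (c ^ p) ⊔ M ≤ commutator G := by
          refine sup_le ?_ hM.le
          rw [Subgroup.zpowers_le]; exact pow_mem hc p
        have h3 : Subgroup.zpowers (c ^ p) ⊔ M = commutator G := by
          by_contra hne
          exact hM.2 h1 (lt_of_le_of_ne h2 hne)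
        rw [← h3] at hc
        obtain ⟨_, ⟨j, rfl⟩, m, hm, hjm⟩ := Subgroup.mem_sup_of_normal_left.mp hc
        have hjm' : (c ^ p) ^ j * m = c := hjm
        have h4 : c ∈ M := by
          refine mem_of_zpow_mem hG M c (1 - (p : ℤ) * j) ?_ ?_
          · intro hd
            have h3 : (p : ℤ) ∣ 1 := by
              have h4 := dvd_add hd (dvd_mul_right (p : ℤ) j)
              rwa [sub_add_cancel] at h4
            have h8 : p ∣ 1 := by exact_mod_cast h3
            exact hp.out.one_lt.ne' (Nat.dvd_one.mp h8)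
          · have h5 : c ^ (1 - (p : ℤ) * j) = ((c ^ p) ^ j)⁻¹ * c := by
              rw [sub_eq_neg_add, zpow_add, zpow_one, zpow_neg, zpow_mul, zpow_natCast]
            have h6 : ((c ^ p) ^ j)⁻¹ * c = m := by
              rw [inv_mul_eq_iff_eq_mul]
              exact hjm'.symm
            rw [h5, h6]
            exact hm
        exact hcp (pow_mem h4 p)
      let K : Subgroup G :=
        { carrier := {x | ∀ g, cm x g ∈ M}
          mul_mem' := by
            intro a b ha hb g
            rw [hmul]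
            exact mul_mem (ha g) (hb g)
          one_mem' := fun g => by rw [cm_one_left]; exact one_mem _
          inv_mem' := by
            intro a ha g
            have := hmul a⁻¹ a g
            rw [inv_mul_cancel, cm_one_left] at this
            rw [eq_inv_of_mul_eq_one_left this.symm]
            exact inv_mem (ha g) }
      have h1 : frattini G ≤ K := by
        refine frat_le hG K ?_ ?_
        · intro c hc g
          rw [(cm_eq_one_iff _ _).mpr (hcen c hc g)]
          exact one_mem _
        · intro x g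
          have h2 : cm (x ^ p) g = (cm x g) ^ p := by
            have h3 : ∀ n : ℕ, cm (x ^ n) g = (cm x g) ^ n := by
              intro n
              induction n with
              | zero => simp [cm_one_left]
              | succ n ih => rw [pow_succ, hmul, ih, pow_succ]
            exact h3 p
          rw [h2]
          exact hpow _ (cm_mem x g)
      intro hx
      exact h1 hx

theorem main (hG : IsPGroup p G) :
    Nat.card (AutC G) = Nat.card (commutator G) ^ Group.rank G ↔
      (⁅commutator G, (⊤ : Subgroup G)⁆ = ⊥ ∧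
        ∀ M : Subgroup G, M ⋖ commutator G → ∀ x, (∀ g, ⁅x, g⁆ ∈ M) ↔ x ∈ frattini G) ∨
      (Group.rank G = 2 ∧ IsCyclic (commutator G) ∧
        (p = 2 → ∀ c ∈ ⁅commutator G, (⊤ : Subgroup G)⁆, ∃ e ∈ commutator G, c = e ^ 4)) ∨
      (p = 2 ∧ Group.rank G = 2 ∧
        ⁅⁅commutator G, (⊤ : Subgroup G)⁆, (⊤ : Subgroup G)⁆ = ⊥ ∧
        ∀ c ∈ commutator G, c ^ 2 = 1) := by
  classical
  constructor
  · intro h
    have hE := E_of_card h
    by_cases h3 : ⁅commutator G, (⊤ : Subgroup G)⁆ = ⊥
    · left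
      exact ⟨h3, (cam_iff_max hG h3).mpr fun x hx c hc => E.cam hG hE hx hc⟩
    · right
      have h3' : ∃ c ∈ commutator G, ∃ g, ¬ Commute c g := by
        by_contra hcon
        push Not at hcon
        exact h3 (g3_bot_iff.mpr hcon)
      obtain ⟨hr, hB | hC⟩ := nec _ G rfl hG hE h3'
      · left
        obtain ⟨⟨u, hu, hall⟩, h2⟩ := hB
        refine ⟨hr, ⟨⟨⟨u, hu⟩, fun c => ?_⟩⟩, fun hp2 => ?_⟩
        · obtain ⟨k, hk⟩ := hall c.1 c.2
          exact ⟨k, Subtype.ext hk⟩
        · have h5 : ⁅commutator G, (⊤ : Subgroup G)⁆ ≤ Subgroup.zpowers (u ^ 4) := by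
            rw [comm_top_le]
            intro c hc g
            obtain ⟨e, he, hce⟩ := h2 hp2 c hc g
            obtain ⟨k, hk⟩ := hall e he
            have hk' : u ^ k = e := hk
            refine ⟨k, ?_⟩
            show (u ^ 4) ^ k = cm c g
            rw [hce, ← hk', ← zpow_natCast, ← zpow_natCast, ← zpow_mul, ← zpow_mul, mul_comm]
          intro c hc
          obtain ⟨k, hk⟩ := h5 hc
          have hk' : (u ^ 4) ^ k = c := hk
          refine ⟨u ^ k, zpow_mem hu k, ?_⟩
          rw [← hk', ← zpow_natCast, ← zpow_natCast, ← zpow_mul, ← zpow_mul, mul_comm]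
      · right
        exact ⟨hC.1, hr, g4_bot_iff.mpr hC.2.1, hC.2.2⟩
  · have pairs : Group.rank G = 2 → (∀ x y : G, x ∉ frattini G →
        y ∉ Subgroup.zpowers x ⊔ frattini G → ∀ c ∈ commutator G, ∀ d ∈ commutator G,
        ∃ α ∈ AutC G, α x = x * c ∧ α y = y * d) →
        Nat.card (AutC G) = Nat.card (commutator G) ^ Group.rank G := by
      intro hr h
      obtain ⟨s, hs, hgen⟩ := Group.rank_spec G
      have hs2 : s.card = 2 := by rw [hs, hr]
      obtain ⟨x, y, hxy, rfl⟩ := Finset.card_eq_two.mp hs2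
      have hgen' : Subgroup.closure ({x, y} : Set G) = ⊤ := by simpa using hgen
      obtain ⟨hx, hy⟩ := indep_of_gen hr hgen'
      refine card_of_surj _ hs hgen fun F hF => ?_
      obtain ⟨α, hα, h1, h2⟩ := h x y hx hy (F x) (hF x) (F y) (hF y)
      refine ⟨α, hα, fun g hg => ?_⟩
      rcases Finset.mem_insert.mp hg with rfl | hg
      · exact h1
      · rw [Finset.mem_singleton.mp hg]; exact h2
    rintro (⟨h3, hA⟩ | ⟨hr, hcyc, h4⟩ | ⟨rfl, hr, h4, h2⟩)
    · refine suffA hG ?_ ((cam_iff_max hG h3).mp hA)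
      intro a b c
      rw [commutatorElement_eq_one_iff_mul_comm]
      exact (g3_bot_iff.mp h3 _ (Subgroup.commutator_mem_commutator (Subgroup.mem_top a)
        (Subgroup.mem_top b)) c).eq
    · have hB : TB p G := by
        obtain ⟨⟨u, hu⟩, hall⟩ := hcyc.exists_generator
        refine ⟨⟨u, hu, fun c hc => ?_⟩, fun hp2 c hc g => h4 hp2 _ (cm_mem_top hc g)⟩
        obtain ⟨k, hk⟩ := hall ⟨c, hc⟩
        exact ⟨k, congrArg Subtype.val hk⟩
      refine pairs hr fun x y hx hy c hc d hd => ?_
      exact suffB hG hB (gen_of_indep hG hr hx hy) hc hd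
    · have hC : TC 2 G := ⟨rfl, g4_bot_iff.mp h4, h2⟩
      refine pairs hr fun x y hx hy c hc d hd => ?_
      exact suffC hG hr hC hx hy hc hd

/-- in class at most two: the condition on maximal subgroups says that `x^G = x γ₂(G)` off `Φ(G)` -/
theorem cam_iff_coset (hG : IsPGroup p G) (h3 : ⁅commutator G, (⊤ : Subgroup G)⁆ = ⊥) :
    (∀ M : Subgroup G, M ⋖ commutator G → ∀ x, (∀ g, ⁅x, g⁆ ∈ M) ↔ x ∈ frattini G) ↔
      ∀ x, x ∉ frattini G → ∀ c ∈ commutator G, IsConj x (x * c) := by
  rw [cam_iff_max hG h3]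
  refine forall₂_congr fun x _ => forall₂_congr fun c _ => ?_
  rw [isConj_cm]
  constructor
  · rintro ⟨g, hg⟩
    exact ⟨g, by rw [hg]⟩
  · rintro ⟨g, hg⟩
    exact ⟨g, (mul_left_cancel hg).symm⟩

end Pool.Agent.Q21.AC
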